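import Pool.Agent.Helper43.GH.Defs
import Pool.Agent.Helper14.TR.Defs

/-!
Project GH (MP_b8862a_ag): compressions, shifts and scalars for the structure `Gr`.
-/

set_option linter.unusedSectionVars false

open Matrix Module

namespace GH

open MH

variable {n : Type*} [Fintype n] [DecidableEq n] {L : Submodule ℂ (Matrix n n ℂ)} {h : Matrix n n ℂ}
  {E : ℝ → Matrix n n ℂ} {Λ : Finset ℝ}

/-- the algebra with the scalars -/
def L1 (L : Submodule ℂ (Matrix n n ℂ)) : Submodule ℂ (Matrix n n ℂ) := L ⊔ Submodule.span ℂ {1}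

theorem mem_L1 {x : Matrix n n ℂ} : x ∈ L1 L ↔ ∃ y ∈ L, ∃ c : ℂ, x = y + c • (1 : Matrix n n ℂ) := by
  unfold L1
  rw [Submodule.mem_sup]
  constructor
  · rintro ⟨y, hy, z, hz, rfl⟩
    obtain ⟨c, rfl⟩ := Submodule.mem_span_singleton.1 hz
    exact ⟨y, hy, c, rfl⟩
  · rintro ⟨y, hy, c, rfl⟩
    exact ⟨y, hy, c • 1, Submodule.mem_span_singleton.2 ⟨c, rfl⟩, rfl⟩

theorem le_L1 {x : Matrix n n ℂ} (hx : x ∈ L) : x ∈ L1 L := mem_L1.2 ⟨x, hx, 0, by simp⟩

theorem one_L1 : (1 : Matrix n n ℂ) ∈ L1 L := mem_L1.2 ⟨0, L.zero_mem, 1, by simp⟩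

theorem Gr.addOne (G : Gr L h E Λ) : Gr (L1 L) h E Λ where
  spec := G.spec
  br := by
    intro x hx y hy
    obtain ⟨x', hx', c, rfl⟩ := mem_L1.1 hx
    obtain ⟨y', hy', d, rfl⟩ := mem_L1.1 hy
    have e1 : (x' + c • (1 : Matrix n n ℂ)) * (y' + d • (1 : Matrix n n ℂ)) -
        (y' + d • (1 : Matrix n n ℂ)) * (x' + c • (1 : Matrix n n ℂ)) = x' * y' - y' * x' := by
      simp only [add_mul, mul_add, mul_smul_comm, smul_mul_assoc, mul_one, one_mul, smul_add]
      rw [smul_comm c d]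
      abel
    rw [e1]
    exact le_L1 (G.br _ hx' _ hy')
  st := by
    intro x hx
    obtain ⟨x', hx', c, rfl⟩ := mem_L1.1 hx
    refine mem_L1.2 ⟨x'ᴴ, G.st _ hx', star c, ?_⟩
    rw [Matrix.conjTranspose_add, Matrix.conjTranspose_smul, Matrix.conjTranspose_one]
  mem := le_L1 G.mem

/-- a matrix that commutes with `h` commutes with the spectral projections -/
theorem spec_comm (S : Spec h E Λ) {T : Matrix n n ℂ} (hT : T * h = h * T) (μ : ℝ) : T * E μ = E μ * T := by
  have hEh : ∀ μ, E μ * h = (μ : ℂ) • E μ := by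
    intro μ
    rw [S.eq, Finset.mul_sum]
    by_cases hμ : μ ∈ Λ
    · rw [Finset.sum_eq_single μ]
      · rw [mul_smul_comm, S.mul, if_pos rfl]
      · intro ν _ hν
        rw [mul_smul_comm, S.mul, if_neg (Ne.symm hν), smul_zero]
      · intro h0
        exact absurd hμ h0
    · rw [S.supp μ hμ]
      simp
  have hhE : ∀ μ, h * E μ = (μ : ℂ) • E μ := by
    intro μ
    rw [S.eq, Finset.sum_mul]
    by_cases hμ : μ ∈ Λ
    · rw [Finset.sum_eq_single μ]
      · rw [smul_mul_assoc, S.mul, if_pos rfl]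
      · intro ν _ hν
        rw [smul_mul_assoc, S.mul, if_neg hν, smul_zero]
      · intro h0
        exact absurd hμ h0
    · rw [S.supp μ hμ]
      simp
  have hoff : ∀ μ ν, μ ≠ ν → E μ * T * E ν = 0 := by
    intro μ ν hne
    have e1 : E μ * (T * h) * E ν = (ν : ℂ) • (E μ * T * E ν) := by
      rw [mul_assoc, mul_assoc T, hhE, mul_smul_comm, mul_smul_comm, mul_assoc]
    have e2 : E μ * (h * T) * E ν = (μ : ℂ) • (E μ * T * E ν) := by
      rw [← mul_assoc, hEh, smul_mul_assoc, smul_mul_assoc]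
    rw [hT, e2] at e1
    have e3 : ((μ : ℂ) - ν) • (E μ * T * E ν) = 0 := by rw [sub_smul, e1, sub_self]
    rcases smul_eq_zero.1 e3 with h1 | h1
    · exfalso
      apply hne
      exact_mod_cast sub_eq_zero.1 h1
    · exact h1
  have l1 : T * E μ = E μ * T * E μ := by
    have e1 : T * E μ = (∑ ν ∈ Λ, E ν) * (T * E μ) := by rw [S.sum, one_mul]
    rw [e1, Finset.sum_mul]
    by_cases hμ : μ ∈ Λ
    · rw [Finset.sum_eq_single μ]
      · rw [mul_assoc]
      · intro ν _ hν
        rw [← mul_assoc, hoff ν μ hν]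
      · intro h0
        exact absurd hμ h0
    · rw [S.supp μ hμ]
      simp
  have l2 : E μ * T = E μ * T * E μ := by
    have e1 : E μ * T = E μ * T * ∑ ν ∈ Λ, E ν := by rw [S.sum, mul_one]
    conv_lhs => rw [e1]
    rw [Finset.mul_sum]
    by_cases hμ : μ ∈ Λ
    · rw [Finset.sum_eq_single μ]
      · intro ν _ hν
        rw [hoff μ ν (Ne.symm hν)]
      · intro h0
        exact absurd hμ h0
    · rw [S.supp μ hμ]
      simp
  exact l1.trans l2.symm

theorem spec_shift (S : Spec h E Λ) (c : ℝ) :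
    Spec (h - (c : ℂ) • (1 : Matrix n n ℂ)) (fun μ => E (μ + c)) (Λ.image (fun μ => μ - c)) where
  star := fun μ => S.star _
  mul := by
    intro μ ν
    rw [S.mul]
    by_cases h1 : μ = ν
    · rw [if_pos h1, if_pos (by rw [h1])]
    · rw [if_neg h1, if_neg (fun h2 => h1 (add_right_cancel h2))]
  supp := by
    intro μ hμ
    apply S.supp
    intro h1
    exact hμ (Finset.mem_image.2 ⟨μ + c, h1, by ring⟩)
  sum := by
    rw [Finset.sum_image (fun x _ y _ hxy => sub_left_injective hxy)]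
    simp only [sub_add_cancel]
    exact S.sum
  eq := by
    rw [Finset.sum_image (fun x _ y _ hxy => sub_left_injective hxy)]
    simp only [sub_add_cancel]
    conv_lhs => rw [S.eq, ← S.sum, Finset.smul_sum, ← Finset.sum_sub_distrib]
    refine Finset.sum_congr rfl fun μ _ => ?_
    rw [← sub_smul]
    push_cast
    rfl

theorem Gr.shift (G : Gr L h E Λ) (h1 : (1 : Matrix n n ℂ) ∈ L) (c : ℝ) :
    Gr L (h - (c : ℂ) • (1 : Matrix n n ℂ)) (fun μ => E (μ + c)) (Λ.image (fun μ => μ - c)) where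
  spec := spec_shift G.spec c
  br := G.br
  st := G.st
  mem := L.sub_mem G.mem (L.smul_mem _ h1)

section compress

variable {e : Matrix n n ℂ} {k : Type*} [Fintype k] [DecidableEq k] {w : Matrix n k ℂ}
  (hw : wᴴ * w = 1) (hww : w * wᴴ = e)
include hw hww

theorem cp_ew : e * w = w := by rw [← hww, Matrix.mul_assoc, hw, Matrix.mul_one]

theorem cp_we : wᴴ * e = wᴴ := by rw [← hww, ← Matrix.mul_assoc, hw, Matrix.one_mul]

theorem cp_mul {x y : Matrix n n ℂ} (hx : x * e = e * x) :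
    (wᴴ * x * w) * (wᴴ * y * w) = wᴴ * (x * y) * w := by
  calc (wᴴ * x * w) * (wᴴ * y * w) = wᴴ * (x * (w * wᴴ)) * y * w := by simp only [Matrix.mul_assoc]
    _ = (wᴴ * e) * x * y * w := by rw [hww, hx]; simp only [Matrix.mul_assoc]
    _ = wᴴ * (x * y) * w := by rw [cp_we hw hww]; simp only [Matrix.mul_assoc]

theorem Gr.compress (G : Gr L h E Λ) (hc : ∀ x ∈ L, x * e = e * x) :
    Gr (cpL w wᴴ L) (wᴴ * h * w) (fun μ => wᴴ * E μ * w) Λ := by
  have hE : ∀ μ, E μ * e = e * E μ := fun μ => (spec_comm G.spec (hc h G.mem).symm μ).symm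
  refine ⟨⟨?_, ?_, ?_, ?_, ?_⟩, ?_, ?_, ?_⟩
  · intro μ
    rw [Matrix.conjTranspose_mul, Matrix.conjTranspose_mul, Matrix.conjTranspose_conjTranspose,
      G.spec.star, Matrix.mul_assoc]
  · intro μ ν
    rw [cp_mul hw hww (hE μ), G.spec.mul]
    split_ifs with h1
    · rfl
    · rw [Matrix.mul_zero, Matrix.zero_mul]
  · intro μ hμ
    rw [G.spec.supp μ hμ, Matrix.mul_zero, Matrix.zero_mul]
  · rw [← Matrix.sum_mul, ← Matrix.mul_sum, G.spec.sum, Matrix.mul_one, hw]
  · conv_lhs => rw [G.spec.eq]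
    rw [Matrix.mul_sum, Matrix.sum_mul]
    refine Finset.sum_congr rfl fun μ _ => ?_
    rw [Matrix.mul_smul, Matrix.smul_mul]
  · rintro _ ⟨x, hx, rfl⟩ _ ⟨y, hy, rfl⟩
    refine ⟨x * y - y * x, G.br x hx y hy, ?_⟩
    rw [cp_mul hw hww (hc x hx), cp_mul hw hww (hc y hy), Matrix.mul_sub, Matrix.sub_mul]
  · rintro _ ⟨x, hx, rfl⟩
    refine ⟨xᴴ, G.st x hx, ?_⟩
    rw [Matrix.conjTranspose_mul, Matrix.conjTranspose_mul, Matrix.conjTranspose_conjTranspose,
      Matrix.mul_assoc]
  · exact ⟨h, G.mem, rfl⟩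

theorem cp_lift_left (T : Matrix k k ℂ) : e * (w * T * wᴴ) = w * T * wᴴ := by
  rw [← Matrix.mul_assoc, ← Matrix.mul_assoc, cp_ew hw hww]

theorem cp_lift_right (T : Matrix k k ℂ) : (w * T * wᴴ) * e = w * T * wᴴ := by
  rw [Matrix.mul_assoc, cp_we hw hww]

/-- an operator on the block that commutes with the compression of `x` commutes with `x` -/
theorem cp_comm {T : Matrix k k ℂ} {x : Matrix n n ℂ} (hx : x * e = e * x)
    (h1 : T * (wᴴ * x * w) = (wᴴ * x * w) * T) : (w * T * wᴴ) * x = x * (w * T * wᴴ) := by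
  calc w * T * wᴴ * x = w * T * (wᴴ * e) * x := by rw [cp_we hw hww]
    _ = w * T * (wᴴ * (e * x)) := by simp only [Matrix.mul_assoc]
    _ = w * T * (wᴴ * (x * (w * wᴴ))) := by rw [← hx, hww]
    _ = w * (T * (wᴴ * x * w)) * wᴴ := by simp only [Matrix.mul_assoc]
    _ = w * ((wᴴ * x * w) * T) * wᴴ := by rw [h1]
    _ = ((w * wᴴ) * x) * w * T * wᴴ := by simp only [Matrix.mul_assoc]
    _ = x * (e * w) * T * wᴴ := by rw [hww, ← hx]; simp only [Matrix.mul_assoc]
    _ = x * (w * T * wᴴ) := by rw [cp_ew hw hww]; simp only [Matrix.mul_assoc]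

theorem cp_scalar {T : Matrix k k ℂ} {c : ℂ} (hT : w * T * wᴴ = c • e) : T = c • (1 : Matrix k k ℂ) := by
  calc T = (wᴴ * w) * T * (wᴴ * w) := by rw [hw, Matrix.one_mul, Matrix.mul_one]
    _ = wᴴ * (w * T * wᴴ) * w := by simp only [Matrix.mul_assoc]
    _ = c • (1 : Matrix k k ℂ) := by
      rw [hT, Matrix.mul_smul, Matrix.smul_mul, cp_we hw hww, hw]

/-- the compression of an idempotent that commutes with `e` -/
theorem cp_idem {F : Matrix n n ℂ} (hF : F * F = F) (hc : F * e = e * F) :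
    (wᴴ * F * w) * (wᴴ * F * w) = wᴴ * F * w := by
  rw [cp_mul hw hww hc, hF]

theorem cp_rank {F : Matrix n n ℂ} (hF : F * F = F) (hc : F * e = e * F) : (wᴴ * F * w).rank = (e * F).rank := by
  have hee : e * e = e := by
    conv_lhs => rw [← hww, ← Matrix.mul_assoc, hww, cp_ew hw hww]
    exact hww
  have h2 : (e * F) * (e * F) = e * F := by
    calc (e * F) * (e * F) = e * (F * e) * F := by simp only [Matrix.mul_assoc]
      _ = (e * e) * (F * F) := by rw [hc]; simp only [Matrix.mul_assoc]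
      _ = e * F := by rw [hee, hF]
  have h3 : (wᴴ * F * w).trace = (e * F).trace := by
    rw [Matrix.trace_mul_comm, ← Matrix.mul_assoc, hww]
  rw [trace_eq_rank (cp_idem hw hww hF hc), trace_eq_rank h2] at h3
  exact_mod_cast h3

theorem cp_card (hee : e * e = e) : Fintype.card k = e.rank := by
  have h3 : (wᴴ * w).trace = (w * wᴴ).trace := Matrix.trace_mul_comm _ _
  rw [hw, hww, Matrix.trace_one, trace_eq_rank hee] at h3
  exact_mod_cast h3

end compress

/-- the rank of the complement of an idempotent -/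
theorem rank_compl {F : Matrix n n ℂ} (hF : F * F = F) : (1 - F).rank + F.rank = Fintype.card n := by
  have h1 : (1 - F) * (1 - F) = 1 - F := by
    rw [sub_mul, one_mul, mul_sub, mul_one, hF, sub_self, sub_zero]
  have h2 : ((1 - F).rank : ℂ) + (F.rank : ℂ) = (Fintype.card n : ℂ) := by
    rw [← trace_eq_rank h1, ← trace_eq_rank hF, Matrix.trace_sub, Matrix.trace_one]
    ring
  exact_mod_cast h2

/-- combinations of orthogonal idempotents: `Dg`, and the rank of a shift -/
theorem dg_of {ι : Type*} [DecidableEq ι] {S : Finset ι} {F : ι → Matrix n n ℂ} {c : ι → ℂ}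
    (hc : ∀ i ∈ S, ∀ j ∈ S, c i = c j → i = j)
    (hm : ∀ i j, F i * F j = if i = j then F i else 0) (hs : ∑ i ∈ S, F i = 1) :
    Dg (∑ i ∈ S, c i • F i) := by
  classical
  have key : ∀ i ∈ S, ∑ j ∈ S.filter (fun j => c j = c i), F j = F i := by
    intro i hi
    rw [Finset.sum_eq_single i]
    · intro j hj hji
      rw [Finset.mem_filter] at hj
      exact absurd (hc j hj.1 i hi hj.2) hji
    · intro h0
      exfalso
      apply h0
      rw [Finset.mem_filter]
      exact ⟨hi, rfl⟩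
  refine ⟨S.image c, fun μ => ∑ j ∈ S.filter (fun j => c j = μ), F j, ?_, ?_, ?_⟩
  · intro μ ν
    by_cases hμ : ∃ i ∈ S, c i = μ
    · obtain ⟨i, hi, rfl⟩ := hμ
      simp only [key i hi]
      by_cases hν : ∃ j ∈ S, c j = ν
      · obtain ⟨j, hj, rfl⟩ := hν
        simp only [key j hj]
        rw [hm]
        by_cases hij : i = j
        · rw [if_pos hij, if_pos (by rw [hij])]
        · rw [if_neg hij, if_neg (fun h0 => hij (hc i hi j hj h0))]
      · push Not at hν
        have e1 : S.filter (fun j => c j = ν) = ∅ := Finset.filter_false_of_mem hν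
        rw [e1, Finset.sum_empty, mul_zero, if_neg (hν i hi)]
    · push Not at hμ
      have e1 : S.filter (fun j => c j = μ) = ∅ := Finset.filter_false_of_mem hμ
      simp only [e1, Finset.sum_empty, zero_mul]
      split_ifs <;> rfl
  · rw [Finset.sum_image hc, ← hs]
    exact Finset.sum_congr rfl fun i hi => key i hi
  · rw [Finset.sum_image hc]
    exact Finset.sum_congr rfl fun i hi => by simp only [key i hi]

theorem rank_shift_le {ι : Type*} [DecidableEq ι] {S : Finset ι} {F : ι → Matrix n n ℂ} {c : ι → ℂ}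
    (hm : ∀ i j, F i * F j = if i = j then F i else 0) (hs : ∑ i ∈ S, F i = 1) {i : ι} (hi : i ∈ S) :
    ((∑ j ∈ S, c j • F j) - c i • (1 : Matrix n n ℂ)).rank + (F i).rank ≤ Fintype.card n := by
  have h1 : (∑ j ∈ S, c j • F j) - c i • (1 : Matrix n n ℂ) =
      ((∑ j ∈ S, c j • F j) - c i • (1 : Matrix n n ℂ)) * (1 - F i) := by
    have h0 : (∑ j ∈ S, c j • F j) * F i = c i • F i := by
      rw [Finset.sum_mul, Finset.sum_eq_single i]
      · rw [smul_mul_assoc, hm, if_pos rfl]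
      · intro j _ hj
        rw [smul_mul_assoc, hm, if_neg hj, smul_zero]
      · intro h0
        exact absurd hi h0
    rw [mul_sub, mul_one, sub_mul (∑ j ∈ S, c j • F j), h0, smul_mul_assoc, one_mul, sub_self, sub_zero]
  have h2 : (((∑ j ∈ S, c j • F j) - c i • (1 : Matrix n n ℂ)) * (1 - F i)).rank ≤ (1 - F i).rank :=
    Matrix.rank_mul_le_right _ _
  rw [← h1] at h2
  have h3 := rank_compl (F := F i) (by rw [hm, if_pos rfl])
  omega

end GH
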