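import Pool.Agent.Helper14.GH.DefsW

/-!
Project GH (MP_b8862a_ag): definitions for the self-dual case.
-/

set_option linter.unusedSectionVars false

open Matrix

namespace MH

variable {n : Type*} [Fintype n] [DecidableEq n]

/-- Every block carries an invariant form (there is no factor of type IV). -/
def SelfDual (Q : Matrix n n ℚ) (P : ℤ → Matrix n n ℂ) : Prop :=
  ∀ e, IsBlk P e → ∃ x ∈ EC P, eᵀ * (toC Q * x) * e ≠ 0

/-- The largest possible Mumford-Tate group if all blocks are self-dual. -/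
def InGw (w : ℤ) (Q : Matrix n n ℚ) (P : ℤ → Matrix n n ℂ) (g : Matrix n n ℂ) : Prop :=
  (∀ x ∈ EC P, g * x = x * g) ∧ ∃ z : ℂ, (w = 0 → z = 1) ∧ gᵀ * toC Q * g = z ^ 2 • toC Q ∧
    ∀ e, IsBlk P e → (g * e + (1 - e)).det = z ^ e.rank

end MH
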