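import Pool.Agent.Helper14.GH.HW4

/-!
Project GH (MP_b8862a_ag): definitions for the final statements.
-/

set_option linter.unusedSectionVars false

open Matrix

namespace MH

variable {n : Type*} [Fintype n] [DecidableEq n]

/-- `e` is a primitive idempotent of the complexified endomorphism algebra. -/
structure IsBlk (P : ℤ → Matrix n n ℂ) (e : Matrix n n ℂ) : Prop where
  mem : e ∈ EC P
  idem : e * e = e
  ne : e ≠ 0
  min : ∀ x ∈ EC P, ∃ c : ℂ, e * x * e = c • e

/-- One of the Hodge numbers of the block is large. -/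
def DomG (P : ℤ → Matrix n n ℂ) (e : Matrix n n ℂ) : Prop :=
  ∃ p, e.rank ≤ (e * P p).rank + 1 ∨ (e.rank - (e * P p).rank + 1) ^ 2 ≤ e.rank

/-- The block carries an invariant symmetric form. -/
def OrthB (Q : Matrix n n ℚ) (P : ℤ → Matrix n n ℂ) (e : Matrix n n ℂ) : Prop :=
  ∃ x ∈ EC P, xᵀ * toC Q = toC Q * x ∧ eᵀ * (toC Q * x) * e ≠ 0

/-- The sum of the numbers of the block above the middle. -/
noncomputable def sB (m : ℤ) (S : Finset ℤ) (P : ℤ → Matrix n n ℂ) (e : Matrix n n ℂ) : ℕ :=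
  ∑ p ∈ S.filter (fun p => m < p), (e * P p).rank

/-- The block is of type `(m, m)`, or its middle number dominates. -/
def DomM (m : ℤ) (S : Finset ℤ) (P : ℤ → Matrix n n ℂ) (e : Matrix n n ℂ) : Prop :=
  e * P m = e ∨ 2 ≤ sB m S P e ∧ sB m S P e ^ 2 < (e * P m).rank

/-- The condition on a block. -/
def DomB (w : ℤ) (Q : Matrix n n ℚ) (S : Finset ℤ) (P : ℤ → Matrix n n ℂ) (e : Matrix n n ℂ) : Prop :=
  DomG P e ∨ ∃ m, w = 2 * m ∧ OrthB Q P e ∧ DomM m S P e

/-- The derived group of the Mumford-Tate group in the theorem: the isometries of `Q` that commute with all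
semi-invariants and have determinant one on every block. -/
def InD (Q : Matrix n n ℚ) (S : Finset ℤ) (P : ℤ → Matrix n n ℂ) (g : Matrix n n ℂ) : Prop :=
  (∀ T : Matrix n n ℂ, SI S P T → g * T = T * g) ∧ gᵀ * toC Q * g = toC Q ∧
    ∀ e, IsBlk P e → (g * e + (1 - e)).det = 1

end MH
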