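import Pool.Agent.Helper14.GH.HW11
import Pool.Agent.Helper83.GH.Glue
import Pool.Agent.Helper48.GH.Fix5

/-!
Project GH (MP_b8862a_ag): the Mumford-Tate group contains the group `InD`.
-/

set_option linter.unusedSectionVars false

open Matrix Module GH

namespace MH

variable {n : Type*} [Fintype n] [DecidableEq n]
variable {m w : ℤ} {Q : Matrix n n ℚ} {S : Finset ℤ} {P : ℤ → Matrix n n ℂ}

namespace IsHW

variable (H : IsHW w Q S P)
include H

/-- an irreducible idempotent of the commutant of the Lie algebra is a block -/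
theorem blk_of_irr {e : Matrix n n ℂ} (he : IrrL (LH Q S P : Set (Matrix n n ℂ)) e) : IsBlk P e := by
  refine ⟨H.EC_of_LH fun X hX => (he.mem X hX).symm, he.idem, he.ne, fun x hx => he.min x fun X hX => ?_⟩
  exact H.LH_EC hX hx

theorem irr_of_blk {e : Matrix n n ℂ} (he : IsBlk P e) : IrrL (LH Q S P : Set (Matrix n n ℂ)) e := by
  refine ⟨fun X hX => H.LH_EC hX he.mem, he.idem, he.ne, fun x hx => he.min x ?_⟩
  exact H.EC_of_LH fun X hX => (hx X hX).symm

section basis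

variable {B Bi : Matrix n n ℂ} (h1 : B * Bi = 1) (h2 : Bi * B = 1) (hM : Mw w Q S P = Bᴴ * B)
include h1 h2 hM

/-- the decomposition into blocks -/
theorem exists_FD : ∃ (ι : Type) (_ : Fintype ι) (_ : DecidableEq ι) (e : ι → Matrix n n ℂ) (r : ι → ℕ)
    (W : ∀ i, Matrix n (Fin (r i)) ℂ) (V : ∀ i, Matrix (Fin (r i)) n ℂ), FD (LH Q S P) e r W V ∧
      (∀ i, IsBlk P (e i)) ∧ (∀ i, (e i).rank = r i) ∧ ∀ i, (cj B Bi (e i))ᴴ = cj B Bi (e i) := by
  classical
  have hst : ∀ X ∈ (LB Q S P B Bi : Set (Matrix n n ℂ)), Xᴴ ∈ (LB Q S P B Bi : Set (Matrix n n ℂ)) :=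
    fun X hX => H.LB_star h1 h2 hM hX
  obtain ⟨ι, _, _, e', hirr, hherm, horth, hsum⟩ := exists_irr_sum hst
  have hblk : ∀ i, IsBlk P (cj Bi B (e' i)) := by
    intro i
    refine ⟨?_, ?_, ?_, ?_⟩
    · refine H.EC_of_LH fun Y hY => ?_
      have hY' : cj B Bi Y ∈ LB Q S P B Bi := by rw [mem_LB, cj_cj h2]; exact hY
      have a6 := congrArg (cj Bi B) ((hirr i).mem _ hY').symm
      rw [← cj_mul h1, ← cj_mul h1, cj_cj h2] at a6
      exact a6
    · rw [cj_mul h1, (hirr i).idem]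
    · intro h0
      apply (hirr i).ne
      rw [← cj_cj h1 (e' i), h0, cj_zero]
    · intro x hx
      obtain ⟨c, hc⟩ := (hirr i).min (cj B Bi x) fun X hX => H.LB_com h1 h2 hM hx X hX
      refine ⟨c, ?_⟩
      have a7 := congrArg (cj Bi B) hc
      rw [← cj_mul h1, ← cj_mul h1, cj_cj h2, cj_smul] at a7
      exact a7
  have hu : ∀ i, ∃ u : Matrix n (Fin (e' i).rank) ℂ, uᴴ * u = 1 ∧ u * uᴴ = e' i := fun i =>
    exists_onbE (hirr i).idem (hherm i)
  choose u hu1 hu2 using hu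
  refine ⟨ι, inferInstance, inferInstance, fun i => cj Bi B (e' i), fun i => (e' i).rank, fun i => Bi * u i,
    fun i => (u i)ᴴ * B, ⟨?_, ?_, ?_, ?_, ?_, ?_⟩, hblk, ?_, ?_⟩
  · intro i
    calc ((u i)ᴴ * B) * (Bi * u i) = (u i)ᴴ * (B * Bi) * u i := by simp only [Matrix.mul_assoc]
      _ = 1 := by rw [h1, Matrix.mul_one, hu1]
  · intro i
    calc (Bi * u i) * ((u i)ᴴ * B) = Bi * (u i * (u i)ᴴ) * B := by simp only [Matrix.mul_assoc]
      _ = cj Bi B (e' i) := by rw [hu2]; rfl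
  · intro i j hij
    show cj Bi B (e' i) * cj Bi B (e' j) = 0
    rw [cj_mul h1, horth i j hij, cj_zero]
  · show ∑ i, cj Bi B (e' i) = 1
    rw [← cj_sum, hsum, cj_one h2]
  · intro i x hx
    exact H.LH_EC hx (hblk i).mem
  · intro i x hx
    exact (hblk i).min x (H.EC_of_LH fun X hX => hx X hX)
  · intro i
    exact rank_cj h2 h1 (hirr i).idem
  · intro i
    show (cj B Bi (cj Bi B (e' i)))ᴴ = cj B Bi (cj Bi B (e' i))
    rw [cj_cj h1, hherm]

/-- links are symmetric for Hermitian blocks -/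
theorem lnk_symm {e f : Matrix n n ℂ} (hes : (cj B Bi e)ᴴ = cj B Bi e) (hfs : (cj B Bi f)ᴴ = cj B Bi f)
    (h : Lnk (LH Q S P) e f) : Lnk (LH Q S P) f e := by
  have hcj : ∀ x : Matrix n n ℂ, Bi * (B * x * Bi)ᴴ * B = cj Bi B (cj B Bi x)ᴴ := fun x => rfl
  have hmul : ∀ x y : Matrix n n ℂ, cj Bi B (cj B Bi (x * y))ᴴ = cj Bi B (cj B Bi y)ᴴ * cj Bi B (cj B Bi x)ᴴ := by
    intro x y
    rw [← cj_mul h2, Matrix.conjTranspose_mul, cj_mul h1]
  rcases h with ⟨T, hT0, hT1, hT2, hT3⟩ | ⟨F, hF0, hF1, hF2, hF3⟩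
  · left
    refine ⟨cj Bi B (cj B Bi T)ᴴ, ?_, ?_, ?_, ?_⟩
    · intro h0
      apply hT0
      have a1 := congrArg (cj B Bi) h0
      rw [cj_cj h1, cj_zero] at a1
      have a2 : cj B Bi T = 0 := by
        rw [← Matrix.conjTranspose_conjTranspose (cj B Bi T), a1, Matrix.conjTranspose_zero]
      rw [← cj_cj h2 T, a2, cj_zero]
    · have a1 := hmul T e
      rw [hT2, hes, cj_cj h2] at a1
      exact a1.symm
    · have a1 := hmul f T
      rw [hT1, hfs, cj_cj h2] at a1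
      exact a1.symm
    · intro x hx
      have hx' := H.LH_st h1 h2 hM hx
      have hy : cj Bi B (cj B Bi (Bi * (B * x * Bi)ᴴ * B))ᴴ = x := by
        rw [hcj, cj_cj h1, Matrix.conjTranspose_conjTranspose, cj_cj h2]
      generalize Bi * (B * x * Bi)ᴴ * B = y at hx' hy
      obtain ⟨c, hc⟩ := hT3 _ hx'
      refine ⟨-(star c), ?_⟩
      have a1 : cj Bi B (cj B Bi (y * T - T * y))ᴴ = cj Bi B (cj B Bi (c • T))ᴴ :=
        congrArg (fun Z => cj Bi B (cj B Bi Z)ᴴ) hc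
      rw [cj_sub, Matrix.conjTranspose_sub, cj_sub, hmul, hmul, cj_smul, Matrix.conjTranspose_smul, cj_smul, hy] at a1
      rw [neg_smul, ← a1, neg_sub]
  · right
    refine ⟨Fᵀ, ?_, ?_, ?_, ?_⟩
    · intro h0
      apply hF0
      rw [← Matrix.transpose_transpose F, h0, Matrix.transpose_zero]
    · rw [← Matrix.transpose_mul, hF2]
    · rw [← Matrix.transpose_transpose f, ← Matrix.transpose_mul, hF1]
    · intro x hx
      obtain ⟨c, hc⟩ := hF3 x hx
      refine ⟨c, ?_⟩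
      have a1 := congrArg Matrix.transpose hc
      rw [Matrix.transpose_add, Matrix.transpose_mul, Matrix.transpose_mul, Matrix.transpose_transpose,
        Matrix.transpose_smul] at a1
      rw [← a1, add_comm]

/-- pairs, the first of size two -/
theorem pair_of_two (hdom : ∀ f, IsBlk P f → DomB w Q S P f) {e f : Matrix n n ℂ} (he : IsBlk P e) (hf : IsBlk P f)
    {a b : ℕ} {w₁ : Matrix n (Fin a) ℂ} {v₁ : Matrix (Fin a) n ℂ} {w₂ : Matrix n (Fin b) ℂ}
    {v₂ : Matrix (Fin b) n ℂ} (k1 : v₁ * w₁ = 1) (k1' : w₁ * v₁ = e) (k2 : v₂ * w₂ = 1) (k2' : w₂ * v₂ = f)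
    (he2 : e.rank = 2) (ha : a = 2) (hf2 : 2 ≤ f.rank) :
    Prd (LH Q S P) e f ∨ Prd (LH Q S P) f e ∨ Lnk (LH Q S P) e f := by
  have hce : ∀ x ∈ LH Q S P, x * e = e * x := fun x hx => H.LH_EC hx he.mem
  have hcf : ∀ x ∈ LH Q S P, x * f = f * x := fun x hx => H.LH_EC hx hf.mem
  refine of_pair14 k1 k1' hce k2 k2' hcf fun g => Or.inl ?_
  have t1 := (H.tyB_all h1 h2 hM hdom he (by omega)).any k1 k1'
  have t2 := (H.tyB_all h1 h2 hM hdom hf hf2).any k2 k2'
  refine pair_two (PP_br k1 k1' hce k2 k2' hcf fun x hx y hy => LH_br hx hy) g (by rw [Fintype.card_fin, ha]) ?_ ?_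
  · intro x
    have hx0 : x - ((2 : ℂ)⁻¹ * x.trace) • (1 : Matrix (Fin a) (Fin a) ℂ) ∈ cpL w₁ v₁ (L1 (LH Q S P)) := by
      have hsl : ∀ x : Matrix (Fin a) (Fin a) ℂ, x.trace = 0 → x ∈ cpL w₁ v₁ (L1 (LH Q S P)) := by
        rcases t1.2 with h3 | h3
        · exact h3
        · rw [Fintype.card_fin, ha] at h3
          omega
      apply hsl
      have ha' : ((a : ℕ) : ℂ) = 2 := by
        rw [ha]
        norm_num
      rw [Matrix.trace_sub, Matrix.trace_smul, Matrix.trace_one, Fintype.card_fin, smul_eq_mul, ha']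
      ring
    have hx1 : x ∈ L1 (cpL w₁ v₁ (LH Q S P)) := by
      rw [L1_cpL k1]
      have e1 : x = (x - ((2 : ℂ)⁻¹ * x.trace) • (1 : Matrix (Fin a) (Fin a) ℂ)) +
          ((2 : ℂ)⁻¹ * x.trace) • (1 : Matrix (Fin a) (Fin a) ℂ) := by abel
      rw [e1]
      refine Submodule.add_mem _ hx0 (Submodule.smul_mem _ _ ?_)
      exact ⟨1, one_L1, by rw [Matrix.mul_one, k1]⟩
    obtain ⟨_, ⟨z, hz, rfl⟩, c, rfl⟩ := mem_L1.1 hx1
    exact ⟨_, z, hz, c, 0, rfl⟩
  · rw [PP_snd, L1_cpL k2]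
    exact t2

/-- **The Lie algebra.** -/
theorem LH_of_com (hdom : ∀ f, IsBlk P f → DomB w Q S P f) {X : Matrix n n ℂ} (hX1 : ∀ T, SI S P T → X * T = T * X)
    (hX2 : Xᵀ * toC Q + toC Q * X = 0) (hX3 : ∀ f ∈ EC P, (X * f).trace = 0) : X ∈ LH Q S P := by
  classical
  obtain ⟨ι, _, _, e, r, W, V, D, hblk, hr, hherm⟩ := H.exists_FD h1 h2 hM
  obtain ⟨_, _, Qi, _, _, q1, q2, _⟩ := H.exists_basis
  refine FD.glue (fun x hx y hy => LH_br hx hy) D h1 h2 (fun x hx => H.LH_st h1 h2 hM hx) (fun x hx => hx.1)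
    ⟨⟨toC Q, Qi, q1, q2⟩, rfl⟩ ?_ ?_ ?_ hX2 ?_
  · intro i hi
    exact (H.tyB_all h1 h2 hM hdom (hblk i) (by rw [hr]; exact hi)).any (D.vw i) (D.wv i)
  · intro i j _ hi hj
    by_cases hi3 : r i = 2
    · exact H.pair_of_two h1 h2 hM hdom (hblk i) (hblk j) (D.vw i) (D.wv i) (D.vw j) (D.wv j)
        (by rw [hr, hi3]) hi3 (by rw [hr]; exact hj)
    by_cases hj3 : r j = 2
    · have h3 := H.pair_of_two h1 h2 hM hdom (hblk j) (hblk i) (D.vw j) (D.wv j) (D.vw i) (D.wv i)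
        (by rw [hr, hj3]) hj3 (by rw [hr]; exact hi)
      rcases h3 with h4 | h4 | h4
      · exact Or.inr (Or.inl h4)
      · exact Or.inl h4
      · exact Or.inr (Or.inr (H.lnk_symm h1 h2 hM (hherm j) (hherm i) h4))
    · exact H.pair_three h1 h2 hM hdom (hblk i) (hblk j) (by rw [hr]; omega) (by rw [hr]; omega)
  · intro T hT
    exact hX1 T (H.SI_iff_LH.2 hT)
  · intro f hf _
    exact hX3 f (H.EC_of_LH fun X hX => (hf X hX).symm)

end basis

/-- **The Mumford-Tate group contains the group `InD`.** -/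
theorem InD_MT (hdom : ∀ f, IsBlk P f → DomB w Q S P f) {g : GL n ℂ} (hg : InD Q S P (g : Matrix n n ℂ)) :
    g ∈ MT S P := by
  obtain ⟨B, Bi, Qi, h1, h2, q1, q2, hM⟩ := H.exists_basis
  intro a b t ht
  refine D_fix (L := (LH Q S P : Set (Matrix n n ℂ))) h1 h2 (fun X hX => H.LH_st h1 h2 hM hX) (fun X hX => hX.1) ?_ ?_
    ?_ hg.2.1 ?_
  · intro h0
    have h3 := congrArg Matrix.det q1
    rw [Matrix.det_mul, h0, zero_mul, Matrix.det_one] at h3
    exact zero_ne_one h3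
  · intro X hX1 hX2 hX3
    have hX : X ∈ LH Q S P := by
      refine H.LH_of_com h1 h2 hM hdom (fun T hT => hX1 T ?_) hX2 fun f hf => hX3 f ?_
      · exact H.SI_iff_LH.1 hT
      · exact fun Y hY => H.LH_EC hY hf
    exact hX.2 a b t ht
  · intro T hT
    exact hg.1 T (H.SI_iff_LH.2 hT)
  · intro e he
    exact hg.2.2 e (H.blk_of_irr he)

/-- a tensor killed by all the skew matrices that commute with the semi-invariants and have trace zero on the
endomorphisms is fixed by `InD` -/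
theorem InD_fix {a b : ℕ} {t : (Fin a ⊕ Fin b → n) → ℂ}
    (hk : ∀ X : Matrix n n ℂ, (∀ T, SI S P T → X * T = T * X) → Xᵀ * toC Q + toC Q * X = 0 →
      (∀ f ∈ EC P, (X * f).trace = 0) → dL a b t X = 0) {g : GL n ℂ} (hg : InD Q S P (g : Matrix n n ℂ)) :
    actF (slot a b (g : Matrix n n ℂ) ((g⁻¹ : GL n ℂ) : Matrix n n ℂ)) t = t := by
  obtain ⟨B, Bi, Qi, h1, h2, q1, q2, hM⟩ := H.exists_basis
  refine D_fix (L := (LH Q S P : Set (Matrix n n ℂ))) h1 h2 (fun X hX => H.LH_st h1 h2 hM hX) (fun X hX => hX.1) ?_ ?_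
    ?_ hg.2.1 ?_
  · intro h0
    have h3 := congrArg Matrix.det q1
    rw [Matrix.det_mul, h0, zero_mul, Matrix.det_one] at h3
    exact zero_ne_one h3
  · intro X hX1 hX2 hX3
    refine hk X (fun T hT => hX1 T (H.SI_iff_LH.1 hT)) hX2 fun f hf => hX3 f fun Y hY => H.LH_EC hY hf
  · intro T hT
    exact hg.1 T (H.SI_iff_LH.2 hT)
  · intro e he
    exact hg.2.2 e (H.blk_of_irr he)

end IsHW

end MH
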