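import Pool.Agent.Helper14.TR.Defs
import Pool.Agent.Helper21.MH.HodgeD

/-!
Project GH (MP_b8862a_ag): polarised rational Hodge structures of any weight.
-/

set_option linter.unusedSectionVars false

open Matrix

namespace MH

variable {n : Type*} [Fintype n] [DecidableEq n]

/-- A polarised rational Hodge structure of weight `w` on `ℚ ^ n`: `P p` is the projection of `ℂ ^ n` onto
`H^{p, w - p}` along the other summands, `Q` is the matrix of the polarisation. -/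
structure IsHW (w : ℤ) (Q : Matrix n n ℚ) (S : Finset ℤ) (P : ℤ → Matrix n n ℂ) : Prop where
  mul : ∀ p q, P p * P q = if p = q then P p else 0
  supp : ∀ p, p ∉ S → P p = 0
  sum : ∑ p ∈ S, P p = 1
  conj : ∀ p, (P p).map (starRingEnd ℂ) = P (w - p)
  symm : Qᵀ = (-1 : ℚ) ^ w • Q
  orth : ∀ p q, p + q ≠ w → (P p)ᵀ * toC Q * P q = 0
  pos : ∀ p (v : n → ℂ), P p *ᵥ v = v → v ≠ 0 → 0 < (Complex.I ^ (2 * p - w) * (v ⬝ᵥ (toC Q *ᵥ star v))).re

variable {w : ℤ} {Q : Matrix n n ℚ} {S : Finset ℤ} {P : ℤ → Matrix n n ℂ}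

/-- the Hodge cocharacter: `2 p - w` on the piece `P p` -/
noncomputable def hw (w : ℤ) (S : Finset ℤ) (P : ℤ → Matrix n n ℂ) : Matrix n n ℂ :=
  ∑ p ∈ S, ((2 * p - w : ℤ) : ℂ) • P p

/-- the sign `(-1) ^ p` on the piece `P p` -/
noncomputable def C0 (S : Finset ℤ) (P : ℤ → Matrix n n ℂ) : Matrix n n ℂ :=
  ∑ p ∈ S, ((-1 : ℂ) ^ p) • P p

namespace IsHW

variable (H : IsHW w Q S P)
include H

theorem idm : Idm S P := ⟨H.mul, H.sum⟩

/-- two matrices that agree on all the pieces are equal -/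
theorem ext_right {X Y : Matrix n n ℂ} (h : ∀ p ∈ S, X * P p = Y * P p) : X = Y := by
  have h1 : X = X * ∑ p ∈ S, P p := by rw [H.sum, mul_one]
  have h2 : Y = Y * ∑ p ∈ S, P p := by rw [H.sum, mul_one]
  rw [h1, h2, Finset.mul_sum, Finset.mul_sum]
  exact Finset.sum_congr rfl h

theorem sum_mul_P (c : ℤ → ℂ) (q : ℤ) : (∑ p ∈ S, c p • P p) * P q = c q • P q := by
  rw [Finset.sum_mul]
  by_cases hq : q ∈ S
  · rw [Finset.sum_eq_single q]
    · rw [smul_mul_assoc, H.mul, if_pos rfl]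
    · intro p _ hp
      rw [smul_mul_assoc, H.mul, if_neg hp, smul_zero]
    · intro h
      exact absurd hq h
  · rw [H.supp q hq]
    simp

theorem P_mul_sum (c : ℤ → ℂ) (q : ℤ) : P q * (∑ p ∈ S, c p • P p) = c q • P q := by
  rw [Finset.mul_sum]
  by_cases hq : q ∈ S
  · rw [Finset.sum_eq_single q]
    · rw [mul_smul_comm, H.mul, if_pos rfl]
    · intro p _ hp
      rw [mul_smul_comm, H.mul, if_neg (Ne.symm hp), smul_zero]
    · intro h
      exact absurd hq h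
  · rw [H.supp q hq]
    simp

theorem sum_mul_sum (c d : ℤ → ℂ) : (∑ p ∈ S, c p • P p) * (∑ p ∈ S, d p • P p) = ∑ p ∈ S, (c p * d p) • P p := by
  refine H.ext_right fun q _ => ?_
  rw [mul_assoc, H.sum_mul_P d, mul_smul_comm, H.sum_mul_P c, smul_smul, H.sum_mul_P (fun p => c p * d p), mul_comm]

theorem P_ne (p : ℤ) (hp : w - p ∉ S) : P p = 0 := by
  have h1 := H.conj (w - p)
  rw [H.supp _ hp, sub_sub_cancel, Matrix.map_zero _ (map_zero _)] at h1
  exact h1.symm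

theorem reflect (c : ℤ → ℂ) : ∑ p ∈ S, c p • P (w - p) = ∑ p ∈ S, c (w - p) • P p := by
  refine H.ext_right fun q hq => ?_
  rw [H.sum_mul_P, Finset.sum_mul]
  by_cases h1 : w - q ∈ S
  · rw [Finset.sum_eq_single (w - q)]
    · rw [sub_sub_cancel, smul_mul_assoc, H.mul, if_pos rfl]
    · intro p _ hp
      rw [smul_mul_assoc, H.mul, if_neg, smul_zero]
      intro h2
      exact hp (by omega)
    · intro h
      exact absurd h1 h
  · rw [H.P_ne q h1]
    simp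

theorem transpose_mul_Q (p : ℤ) : (P p)ᵀ * toC Q = toC Q * P (w - p) := by
  have h1 : (P p)ᵀ * toC Q = (P p)ᵀ * toC Q * P (w - p) := by
    refine H.ext_right fun q _ => ?_
    rw [mul_assoc _ (P (w - p)), H.mul]
    by_cases h2 : w - p = q
    · rw [if_pos h2, h2]
    · rw [if_neg h2, mul_zero, H.orth p q (by omega)]
  have h3 : toC Q * P (w - p) = (P p)ᵀ * toC Q * P (w - p) := by
    have h4 : (∑ q ∈ S, P q)ᵀ * (toC Q * P (w - p)) = toC Q * P (w - p) := by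
      rw [H.sum, Matrix.transpose_one, one_mul]
    rw [← h4, Matrix.transpose_sum, Finset.sum_mul]
    by_cases hp : p ∈ S
    · rw [Finset.sum_eq_single p]
      · rw [← mul_assoc]
      · intro q _ hq
        rw [← mul_assoc, H.orth q (w - p) (by omega)]
      · intro h
        exact absurd hp h
    · rw [H.supp p hp]
      have h5 : P (w - p) = 0 := by
        apply H.P_ne
        rw [sub_sub_cancel]
        exact hp
      rw [h5]
      simp
  rw [h3, ← h1]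

theorem sum_transpose_mul_Q (c : ℤ → ℂ) : (∑ p ∈ S, c p • P p)ᵀ * toC Q = toC Q * ∑ p ∈ S, c (w - p) • P p := by
  rw [← H.reflect, Matrix.transpose_sum, Finset.sum_mul, Finset.mul_sum]
  refine Finset.sum_congr rfl fun p _ => ?_
  rw [Matrix.transpose_smul, smul_mul_assoc, H.transpose_mul_Q, mul_smul_comm]

theorem sum_conj (c : ℤ → ℂ) : (∑ p ∈ S, c p • P p).map (starRingEnd ℂ) =
    ∑ p ∈ S, starRingEnd ℂ (c (w - p)) • P p := by
  rw [← H.reflect (fun p => starRingEnd ℂ (c p))]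
  ext i j
  simp only [Matrix.map_apply, Matrix.sum_apply, Matrix.smul_apply, smul_eq_mul, map_sum, map_mul]
  refine Finset.sum_congr rfl fun p _ => ?_
  rw [← H.conj p, Matrix.map_apply]

/-- a Hodge tensor is killed by `∑ p P p` -/
theorem kill_p {a b : ℕ} {t : (Fin a ⊕ Fin b → n) → ℚ} (ht : IsHodgeTensor S P a b t) :
    dL a b (tC t) (∑ p ∈ S, (p : ℂ) • P p) = 0 := (H.idm.inv_iff a b (tC t)).1 ht

/-- a Hodge tensor is killed by the scalars if the weight is not zero -/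
theorem kill_one {a b : ℕ} {t : (Fin a ⊕ Fin b → n) → ℚ} (ht : IsHodgeTensor S P a b t) :
    (w : ℂ) • dL a b (tC t) 1 = 0 := by
  have h1 := H.kill_p ht
  have h2 := dL_conjC h1
  rw [H.sum_conj (fun p => (p : ℂ))] at h2
  have e1 : ∑ p ∈ S, starRingEnd ℂ (((w - p : ℤ) : ℂ)) • P p =
      (w : ℂ) • (1 : Matrix n n ℂ) - ∑ p ∈ S, (p : ℂ) • P p := by
    rw [← H.sum, Finset.smul_sum, ← Finset.sum_sub_distrib]
    refine Finset.sum_congr rfl fun p _ => ?_
    rw [← sub_smul, map_intCast]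
    congr 1
    push_cast
    ring
  rwa [e1, map_sub, h1, sub_zero, map_smul] at h2

theorem hw_eq : hw w S P = (2 : ℂ) • (∑ p ∈ S, (p : ℂ) • P p) - (w : ℂ) • (1 : Matrix n n ℂ) := by
  unfold hw
  rw [← H.sum, Finset.smul_sum, Finset.smul_sum, ← Finset.sum_sub_distrib]
  refine Finset.sum_congr rfl fun p _ => ?_
  rw [smul_smul, ← sub_smul]
  congr 1
  push_cast
  ring

/-- the element `∑ (2 p - w) P p` -/
theorem hw_mem : hw w S P ∈ LH Q S P := by
  refine ⟨?_, fun a b t ht => ?_⟩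
  · unfold hw
    rw [H.sum_transpose_mul_Q (fun p => ((2 * p - w : ℤ) : ℂ)), ← mul_add, ← Finset.sum_add_distrib,
      Finset.sum_eq_zero, mul_zero]
    intro p _
    rw [← add_smul]
    have : (((2 * (w - p) - w : ℤ) : ℂ)) + ((2 * p - w : ℤ) : ℂ) = 0 := by push_cast; ring
    rw [this, zero_smul]
  · rw [H.hw_eq, map_sub, map_smul, map_smul, H.kill_p ht, H.kill_one ht, smul_zero, sub_zero]

theorem C0_mul : C0 S P * C0 S P = 1 := by
  unfold C0
  rw [H.sum_mul_sum (fun p => (-1 : ℂ) ^ p) (fun p => (-1 : ℂ) ^ p), ← H.sum]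
  refine Finset.sum_congr rfl fun p _ => ?_
  rw [sgn_mul, one_smul]

theorem sgn_sub (p : ℤ) : (-1 : ℂ) ^ (w - p) = (-1) ^ w * (-1) ^ p := by
  rw [sub_eq_add_neg, zpow_add₀ (by norm_num), sgn_neg]

theorem C0_Q : (C0 S P)ᵀ * toC Q = ((-1 : ℂ) ^ w) • (toC Q * C0 S P) := by
  unfold C0
  rw [H.sum_transpose_mul_Q (fun p => (-1 : ℂ) ^ p), ← mul_smul_comm, Finset.smul_sum]
  congr 1
  refine Finset.sum_congr rfl fun p _ => ?_
  rw [H.sgn_sub, smul_smul]

theorem C0_conj : (C0 S P).map (starRingEnd ℂ) = ((-1 : ℂ) ^ w) • C0 S P := by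
  unfold C0
  rw [H.sum_conj (fun p => (-1 : ℂ) ^ p), Finset.smul_sum]
  refine Finset.sum_congr rfl fun p _ => ?_
  rw [H.sgn_sub, smul_smul]
  congr 1
  simp [map_zpow₀]

theorem Q_symm : (toC Q)ᵀ = ((-1 : ℂ) ^ w) • toC Q := by
  rw [← toC_transpose, H.symm]
  ext i j
  simp [toC]

theorem Q_conj : (toC Q).map (starRingEnd ℂ) = toC Q := toC_conj Q

theorem Q_herm : (toC Q)ᴴ = ((-1 : ℂ) ^ w) • toC Q := by
  have h1 : (toC Q)ᴴ = ((toC Q)ᵀ).map (starRingEnd ℂ) := rfl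
  rw [h1, H.Q_symm]
  ext i j
  simp [toC, map_zpow₀]

theorem P_herm_Q (p : ℤ) : (P p)ᴴ * toC Q = toC Q * P p := by
  have h1 : (P p)ᴴ = (P (w - p))ᵀ := by
    rw [← H.conj p]
    rfl
  rw [h1, H.transpose_mul_Q, sub_sub_cancel]

theorem C0_herm_Q : (C0 S P)ᴴ * toC Q = toC Q * C0 S P := by
  unfold C0
  rw [Matrix.conjTranspose_sum, Finset.sum_mul, Finset.mul_sum]
  refine Finset.sum_congr rfl fun p _ => ?_
  rw [Matrix.conjTranspose_smul, smul_mul_assoc, H.P_herm_Q, mul_smul_comm]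
  congr 1
  simp

end IsHW

/-- the matrix of the Hodge-Riemann form -/
noncomputable def Mw (w : ℤ) (Q : Matrix n n ℚ) (S : Finset ℤ) (P : ℤ → Matrix n n ℂ) : Matrix n n ℂ :=
  (Complex.I ^ w) • (toC Q * C0 S P)

theorem I_sq_sgn (w : ℤ) : Complex.I ^ w * Complex.I ^ w = (-1) ^ w := by
  rw [← mul_zpow, Complex.I_mul_I]

theorem I_conj (w : ℤ) : starRingEnd ℂ (Complex.I ^ w) = (-1) ^ w * Complex.I ^ w := by
  rw [map_zpow₀, Complex.conj_I, neg_eq_neg_one_mul, mul_zpow]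

namespace IsHW

variable (H : IsHW w Q S P)
include H

theorem M_herm : (Mw w Q S P)ᴴ = Mw w Q S P := by
  unfold Mw
  rw [Matrix.conjTranspose_smul, Matrix.conjTranspose_mul, H.Q_herm, mul_smul_comm, H.C0_herm_Q, smul_smul]
  congr 1
  rw [← starRingEnd_apply, I_conj, mul_comm, ← mul_assoc, sgn_mul, one_mul]

open scoped ComplexOrder in
theorem M_pos : (Mw w Q S P).PosDef := by
  refine Matrix.PosDef.of_dotProduct_mulVec_pos H.M_herm fun x hx => ?_
  have key : star x ⬝ᵥ (Mw w Q S P *ᵥ x) =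
      ∑ p ∈ S, Complex.I ^ (2 * p - w) * ((P p *ᵥ x) ⬝ᵥ (toC Q *ᵥ star (P p *ᵥ x))) := by
    have e0 : Mw w Q S P = ∑ p ∈ S, (Complex.I ^ w * (-1) ^ p) • ((P p)ᴴ * (toC Q * P p)) := by
      unfold Mw C0
      rw [Finset.mul_sum, Finset.smul_sum]
      refine Finset.sum_congr rfl fun p _ => ?_
      rw [mul_smul_comm, smul_smul]
      congr 1
      rw [← mul_assoc, H.P_herm_Q, mul_assoc, H.mul, if_pos rfl]
    rw [e0, Matrix.sum_mulVec, dotProduct_sum]
    refine Finset.sum_congr rfl fun p _ => ?_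
    rw [Matrix.smul_mulVec, dotProduct_smul, smul_eq_mul]
    have e1 : star x ⬝ᵥ ((P p)ᴴ * (toC Q * P p)) *ᵥ x =
        (-1) ^ w * ((P p *ᵥ x) ⬝ᵥ (toC Q *ᵥ star (P p *ᵥ x))) := by
      rw [← Matrix.mulVec_mulVec, ← Matrix.mulVec_mulVec, Matrix.dotProduct_mulVec, Matrix.vecMul_conjTranspose,
        star_star, Matrix.dotProduct_mulVec, ← Matrix.mulVec_transpose, H.Q_symm, Matrix.smul_mulVec, smul_dotProduct,
        smul_eq_mul, dotProduct_comm]
    rw [e1, ← mul_assoc]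
    congr 1
    have e2 : Complex.I ^ (2 * p - w) = (-1) ^ p * (Complex.I ^ w)⁻¹ := by
      rw [sub_eq_add_neg, zpow_add₀ Complex.I_ne_zero, two_mul, zpow_add₀ Complex.I_ne_zero, I_sq_sgn,
        _root_.zpow_neg]
    rw [e2, mul_assoc, mul_comm]
    have e3 : Complex.I ^ w * Complex.I ^ w * (-1) ^ w = 1 := by rw [I_sq_sgn, sgn_mul]
    have e4 : (Complex.I ^ w)⁻¹ = Complex.I ^ w * (-1) ^ w := by
      apply inv_eq_of_mul_eq_one_right
      rw [← mul_assoc]
      exact e3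
    rw [e4]
    ring
  have hfix : ∀ p, P p *ᵥ (P p *ᵥ x) = P p *ᵥ x := by
    intro p
    rw [Matrix.mulVec_mulVec, H.mul, if_pos rfl]
  have hnn : ∀ p ∈ S, 0 ≤ (Complex.I ^ (2 * p - w) * ((P p *ᵥ x) ⬝ᵥ (toC Q *ᵥ star (P p *ᵥ x)))).re := by
    intro p _
    by_cases h0 : P p *ᵥ x = 0
    · rw [h0]
      simp
    · exact (H.pos p _ (hfix p) h0).le
  have hex : ∃ p ∈ S, P p *ᵥ x ≠ 0 := by
    by_contra hcon
    push Not at hcon
    apply hx
    have h1 : x = (∑ p ∈ S, P p) *ᵥ x := by rw [H.sum, Matrix.one_mulVec]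
    rw [h1, Matrix.sum_mulVec]
    exact Finset.sum_eq_zero hcon
  obtain ⟨p0, hp0, hne⟩ := hex
  have hpos : 0 < (star x ⬝ᵥ (Mw w Q S P *ᵥ x)).re := by
    rw [key, Complex.re_sum]
    exact Finset.sum_pos' hnn ⟨p0, hp0, H.pos p0 _ (hfix p0) hne⟩
  have him : (star x ⬝ᵥ (Mw w Q S P *ᵥ x)).im = 0 :=
    Matrix.IsHermitian.im_star_dotProduct_mulVec_self (𝕜 := ℂ) H.M_herm x
  rw [Complex.lt_def]
  exact ⟨hpos, him.symm⟩

open scoped ComplexOrder in
/-- the data of the change of basis -/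
theorem exists_basis : ∃ B Bi Qi : Matrix n n ℂ, B * Bi = 1 ∧ Bi * B = 1 ∧ toC Q * Qi = 1 ∧ Qi * toC Q = 1 ∧
    Mw w Q S P = Bᴴ * B := by
  obtain ⟨B, hB⟩ := posDef_decomp H.M_pos
  have h1 : IsUnit (Mw w Q S P) := Matrix.PosDef.isUnit H.M_pos
  have h2 : IsUnit (Mw w Q S P).det := (Matrix.isUnit_iff_isUnit_det _).1 h1
  have h3 : IsUnit (toC Q).det := by
    unfold Mw at h2
    rw [← smul_mul_assoc, Matrix.det_mul, Matrix.det_smul] at h2
    exact isUnit_of_mul_isUnit_right (isUnit_of_mul_isUnit_left h2)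
  have h4 : IsUnit B.det := by
    rw [hB, Matrix.det_mul] at h2
    exact isUnit_of_mul_isUnit_right h2
  exact ⟨B, B⁻¹, (toC Q)⁻¹, Matrix.mul_nonsing_inv _ h4, Matrix.nonsing_inv_mul _ h4, Matrix.mul_nonsing_inv _ h3,
    Matrix.nonsing_inv_mul _ h3, hB⟩

end IsHW

end MH
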