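import Pool.Agent.Helper14.GH.HW9

/-!
Project GH (MP_b8862a_ag): every block of rank at least two is of full type.
-/

set_option linter.unusedSectionVars false

open Matrix Module GH

namespace MH

variable {n : Type*} [Fintype n] [DecidableEq n]
variable {m w : ℤ} {Q : Matrix n n ℚ} {S : Finset ℤ} {P : ℤ → Matrix n n ℂ}

theorem L1_cpL {k : Type*} [Fintype k] [DecidableEq k] {u : Matrix n k ℂ} {v : Matrix k n ℂ} (hu : v * u = 1)
    (L : Submodule ℂ (Matrix n n ℂ)) : L1 (cpL u v L) = cpL u v (L1 L) := by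
  ext y
  constructor
  · intro hy
    obtain ⟨_, ⟨x, hx, rfl⟩, c, rfl⟩ := mem_L1.1 hy
    refine ⟨x + c • 1, mem_L1.2 ⟨x, hx, c, rfl⟩, ?_⟩
    rw [Matrix.mul_add, Matrix.add_mul, Matrix.mul_smul, Matrix.smul_mul, Matrix.mul_one, hu]
  · rintro ⟨x, hx, rfl⟩
    obtain ⟨y, hy, c, rfl⟩ := mem_L1.1 hx
    refine mem_L1.2 ⟨_, ⟨y, hy, rfl⟩, c, ?_⟩
    rw [Matrix.mul_add, Matrix.add_mul, Matrix.mul_smul, Matrix.smul_mul, Matrix.mul_one, hu]

theorem mapσ_eq_iff (σ : ℂ ≃+* ℂ) {x y : Matrix n n ℂ} (h : x.map σ = y.map σ) : x = y := by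
  rw [← map_symmσ' σ x, h, map_symmσ']

/-- the compressions in the two bases -/
theorem cpL_basis {B Bi : Matrix n n ℂ} (h1 : B * Bi = 1) (h2 : Bi * B = 1) {k : Type*} [Fintype k] [DecidableEq k]
    {u : Matrix n k ℂ} : cpL u uᴴ (L1 (LB Q S P B Bi)) = cpL (Bi * u) (uᴴ * B) (L1 (LH Q S P)) := by
  ext y
  constructor
  · rintro ⟨x, hx, rfl⟩
    obtain ⟨y, hy, c, rfl⟩ := mem_L1.1 hx
    refine ⟨cj Bi B y + c • 1, mem_L1.2 ⟨_, mem_LB.1 hy, c, rfl⟩, ?_⟩
    have e1 : B * (cj Bi B y + c • 1) * Bi = y + c • 1 := by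
      unfold cj
      rw [mul_add, add_mul, mul_smul_comm, smul_mul_assoc, mul_one, h1]
      congr 1
      calc B * (Bi * y * B) * Bi = (B * Bi) * y * (B * Bi) := by simp only [mul_assoc]
        _ = y := by rw [h1, one_mul, mul_one]
    calc uᴴ * (y + c • 1) * u = uᴴ * (B * (cj Bi B y + c • 1) * Bi) * u := by rw [e1]
      _ = _ := by simp only [Matrix.mul_assoc]
  · rintro ⟨x, hx, rfl⟩
    obtain ⟨y, hy, c, rfl⟩ := mem_L1.1 hx
    refine ⟨cj B Bi y + c • 1, mem_L1.2 ⟨_, ?_, c, rfl⟩, ?_⟩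
    · rw [mem_LB, cj_cj h2]
      exact hy
    · have e1 : B * (y + c • 1) * Bi = cj B Bi y + c • 1 := by
        unfold cj
        rw [mul_add, add_mul, mul_smul_comm, smul_mul_assoc, mul_one, h1]
      calc uᴴ * B * (y + c • 1) * (Bi * u) = uᴴ * (B * (y + c • 1) * Bi) * u := by simp only [Matrix.mul_assoc]
        _ = _ := by rw [e1]

namespace IsHW

variable (H : IsHW w Q S P)
include H

section basis

variable {B Bi : Matrix n n ℂ} (h1 : B * Bi = 1) (h2 : Bi * B = 1) (hM : Mw w Q S P = Bᴴ * B)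
include h1 h2 hM

theorem orth_fullO (hdom : ∀ f, IsBlk P f → DomB w Q S P f) (hw2 : w = 2 * m) {e x : Matrix n n ℂ}
    (he : IsBlk P e) (hx : x ∈ EC P) (hxs : xᵀ * toC Q = toC Q * x) (hx0 : eᵀ * (toC Q * x) * e ≠ 0)
    (h3 : 3 ≤ e.rank) {σ0 : ℂ ≃+* ℂ} (hσ : 2 ≤ sB m S P (e.map σ0)) : FullO Q S P e x := by
  classical
  have hQ : ∀ τ : ℂ ≃+* ℂ, (toC Q).map τ = toC Q := by
    intro τ
    ext i j
    simp [toC]
  have ht : ∀ (τ : ℂ ≃+* ℂ) (y : Matrix n n ℂ), (y.map τ)ᵀ = yᵀ.map τ := fun τ y => rfl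
  have hf := he.aut σ0
  obtain ⟨f', hf', hfs, a1, a2⟩ := H.herm_rep h1 h2 hM hf
  have hPP : ∀ p, P p * P p = P p := fun p => by rw [H.mul, if_pos rfl]
  have hr : ∀ p, (f' * P p).rank = (e.map σ0 * P p).rank := fun p =>
    rank_of_range a1 a2 (hPP p) (EC_P hf.mem p) (EC_P hf'.mem p)
  have hrk : f'.rank = e.rank := by
    have h4 := rank_of_range (F := (1 : Matrix n n ℂ)) a1 a2 (mul_one 1) (by rw [mul_one, one_mul])
      (by rw [mul_one, one_mul])
    rw [mul_one, mul_one] at h4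
    rw [h4, rank_aut σ0 he.idem]
  have hs : sB m S P f' = sB m S P (e.map σ0) := by
    unfold sB
    exact Finset.sum_congr rfl fun p _ => hr p
  have hx1 : x.map σ0 ∈ EC P := EC_aut σ0 hx
  have hx2 : (x.map σ0)ᵀ * toC Q = toC Q * x.map σ0 := by
    have h4 := congrArg (fun Z : Matrix n n ℂ => Z.map σ0) hxs
    simp only [map_mulσ, hQ] at h4
    exact h4
  have hx3 : (e.map σ0)ᵀ * (toC Q * x.map σ0) * e.map σ0 ≠ 0 := by
    intro h0
    apply hx0
    apply mapσ_eq_iff σ0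
    simp only [map_mulσ, hQ]
    rw [Matrix.map_zero _ (map_zero _)]
    exact h0
  have hx4 := orth_range a2 hx3
  have hO : OrthB Q P f' := ⟨_, hx1, hx2, hx4⟩
  have hfull : FullO Q S P f' (x.map σ0) := by
    refine H.orth_full h1 h2 hM hw2 hf' hfs hx1 hx2 hx4 (by rw [hs]; exact hσ) fun σ => ?_
    have hb := hf'.aut σ
    rcases H.orth_cond h1 h2 hM hw2 hb (hO.aut σ) (by rw [rank_aut σ hf'.idem, hrk]; exact h3) (hdom _ hb) with h | h
    · exact Or.inl h
    · exact Or.inr h.2.1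
  have hf2 := hfull.of_range a2 a1
  have hf3 := hf2.aut σ0.symm
  rwa [map_symmσ', map_symmσ'] at hf3

theorem good_all (hdom : ∀ f, IsBlk P f → DomB w Q S P f) {e : Matrix n n ℂ} (he : IsBlk P e)
    (hes : (cj B Bi e)ᴴ = cj B Bi e) (h3 : 3 ≤ e.rank) (hns : ∀ c : ℂ, hw w S P * e ≠ c • e)
    {k : Type*} [Fintype k] [DecidableEq k] {u : Matrix n k ℂ} (hu : uᴴ * u = 1) (huu : u * uᴴ = cj B Bi e) :
    ∃ c : ℝ, Good (cpL u uᴴ (L1 (LB Q S P B Bi))) (uᴴ * (cj B Bi (hw w S P) - (c : ℂ) • (1 : Matrix n n ℂ)) * u)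
      (fun μ => uᴴ * EW w S P B Bi (μ + c) * u) ((LamW w S).image (fun μ => μ - c)) := by
  classical
  by_cases hG : ∀ σ : ℂ ≃+* ℂ, DomG P (e.map σ)
  · exact H.good_block h1 h2 hM he hG hes h3 hns hu huu
  push Not at hG
  obtain ⟨σ0, hσ0⟩ := hG
  rcases hdom _ (he.aut σ0) with h4 | ⟨m, hw2, hO, hMm⟩
  · exact absurd h4 hσ0
  have hσ2 : 2 ≤ sB m S P (e.map σ0) := by
    rcases hMm with h5 | h5
    · exfalso
      apply hσ0
      refine ⟨m, Or.inl ?_⟩
      rw [h5]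
      exact Nat.le_succ _
    · exact h5.1
  have hO1 := hO.aut σ0.symm
  rw [map_symmσ'] at hO1
  obtain ⟨x, hx, hxs, hx0⟩ := hO1
  have hfull := H.orth_fullO h1 h2 hM hdom hw2 he hx hxs hx0 h3 hσ2
  have hcond := (H.orth_cond h1 h2 hM hw2 he ⟨x, hx, hxs, hx0⟩ h3 (hdom _ he)).resolve_left (by
    intro h5
    apply hns ((2 * m - w : ℤ) : ℂ)
    have a4 : hw w S P * P m = ((2 * m - w : ℤ) : ℂ) • P m :=
      H.sum_mul_P (fun p => ((2 * p - w : ℤ) : ℂ)) m
    have hPe := EC_P he.mem m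
    calc hw w S P * e = hw w S P * (P m * e) := by rw [← hPe, h5]
      _ = ((2 * m - w : ℤ) : ℂ) • (P m * e) := by rw [← mul_assoc, a4, smul_mul_assoc]
      _ = _ := by rw [← hPe, h5])
  have hcL := H.LB_com h1 h2 hM he.mem
  obtain ⟨E', hE', r1, Fi, τ, hFi, hFs, hτ, D⟩ : ∃ E' : ℝ → Matrix k k ℂ,
      E' = (fun μ => uᴴ * EW w S P B Bi μ * u) ∧
      (∀ p : ℤ, (E' ((2 * p - w : ℤ) : ℝ)).rank = (e * P p).rank) ∧
      ∃ (Fi : Matrix k k ℂ) (τ : Matrix k k ℂ →ₗ[ℂ] Matrix k k ℂ), Fi * (uᵀ * (Biᵀ * (toC Q * x) * Bi) * u) = 1 ∧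
      (uᵀ * (Biᵀ * (toC Q * x) * Bi) * u)ᵀ = uᵀ * (Biᵀ * (toC Q * x) * Bi) * u ∧
      (∀ y, τ y = Fi * yᵀ * (uᵀ * (Biᵀ * (toC Q * x) * Bi) * u)) ∧
      Dat τ (cpL u uᴴ (LB Q S P B Bi)) (uᴴ * cj B Bi (hw w S P) * u) E' (LamW w S) := by
    obtain ⟨Fi, τ, a1, a2, a3, D⟩ := H.orth_dat h1 h2 hM hw2 he hx hxs hx0 hu huu
    exact ⟨fun μ => uᴴ * EW w S P B Bi μ * u, rfl, H.blk_rank h1 h2 hM he hu huu, Fi, τ, a1, a2, a3, D⟩
  have hPpr : (Pp E' (LamW w S)).rank = sB m S P e := by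
    rw [D.rank_Pp]
    exact sum_LamW r1 hw2
  have r0 := r1 m
  rw [show (2 * m - w : ℤ) = 0 by omega, Int.cast_zero] at r0
  have hGood : Good (L1 (cpL u uᴴ (LB Q S P B Bi))) (uᴴ * cj B Bi (hw w S P) * u) E' (LamW w S) := by
    refine good_of_skew D hFi hFs hτ ?_ (by rw [hPpr]; exact hcond.1) (by rw [hPpr, r0]; exact hcond.2.1)
      (by rw [r0]; exact hcond.2.2)
    intro y hy
    set F := uᵀ * (Biᵀ * (toC Q * x) * Bi) * u with hF
    have hFF : F * Fi = 1 := mul_eq_one_comm.1 hFi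
    have hsk : yᵀ * F + F * y = 0 := by
      have h5 : yᵀ * F = -(F * y) := by
        calc yᵀ * F = (F * Fi) * yᵀ * F := by rw [hFF, Matrix.one_mul]
          _ = F * (Fi * yᵀ * F) := by simp only [Matrix.mul_assoc]
          _ = -(F * y) := by rw [← hτ y, hy, Matrix.mul_neg]
      rw [h5, neg_add_cancel]
    have hVW : (uᴴ * B) * (Bi * u) = 1 := by
      calc (uᴴ * B) * (Bi * u) = uᴴ * (B * Bi) * u := by simp only [Matrix.mul_assoc]
        _ = 1 := by rw [h1, Matrix.mul_one, hu]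
    have hWV : (Bi * u) * (uᴴ * B) = e := by
      calc (Bi * u) * (uᴴ * B) = Bi * (u * uᴴ) * B := by simp only [Matrix.mul_assoc]
        _ = cj Bi B (cj B Bi e) := by rw [huu]; rfl
        _ = e := cj_cj h2 _
    have hFW : F = (Bi * u)ᵀ * (toC Q * x) * (Bi * u) := by
      rw [hF, Matrix.transpose_mul]
      simp only [Matrix.mul_assoc]
    have heW : e * (Bi * u) = Bi * u := by rw [← hWV, Matrix.mul_assoc, hVW, Matrix.mul_one]
    have hVe : (uᴴ * B) * e = uᴴ * B := by rw [← hWV, ← Matrix.mul_assoc, hVW, Matrix.one_mul]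
    set W := Bi * u with hW
    set V := uᴴ * B with hV
    have hform : eᵀ * (toC Q * x) * e = Vᵀ * F * V := by
      rw [hFW, ← hWV, Matrix.transpose_mul]
      simp only [Matrix.mul_assoc]
    obtain ⟨Y, hY, hYX⟩ := hfull (W * y * V) (by
        calc e * (W * y * V) * e = (e * W) * y * (V * e) := by simp only [Matrix.mul_assoc]
          _ = W * y * V := by rw [heW, hVe]) (by
        rw [hform]
        calc (W * y * V)ᵀ * (Vᵀ * F * V) + Vᵀ * F * V * (W * y * V)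
            = Vᵀ * (yᵀ * (V * W)ᵀ * F) * V + Vᵀ * (F * (V * W) * y) * V := by
              rw [Matrix.transpose_mul (W * y) V, Matrix.transpose_mul W y, Matrix.transpose_mul V W]
              simp only [Matrix.mul_assoc]
          _ = Vᵀ * (yᵀ * F + F * y) * V := by
              rw [hVW, Matrix.transpose_one, Matrix.mul_one, Matrix.mul_one, Matrix.mul_add, Matrix.add_mul]
          _ = 0 := by rw [hsk, Matrix.mul_zero, Matrix.zero_mul])
    refine ⟨cj B Bi Y, by rw [mem_LB, cj_cj h2]; exact hY, ?_⟩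
    calc y = (V * W) * y * (V * W) := by rw [hVW, Matrix.one_mul, Matrix.mul_one]
      _ = V * (W * y * V) * W := by simp only [Matrix.mul_assoc]
      _ = V * (Y * e) * W := by rw [hYX]
      _ = V * Y * (e * W) := by simp only [Matrix.mul_assoc]
      _ = V * Y * W := by rw [heW]
      _ = uᴴ * (B * Y * Bi) * u := by
        rw [hV, hW]
        simp only [Matrix.mul_assoc]
  refine ⟨0, ?_⟩
  rw [L1_cpL hu] at hGood
  have e1 : (fun μ : ℝ => uᴴ * EW w S P B Bi (μ + 0) * u) = E' := by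
    rw [hE']
    funext μ
    rw [add_zero]
  have e2 : (LamW w S).image (fun μ : ℝ => μ - 0) = LamW w S := by
    simp
  rw [e1, e2, Complex.ofReal_zero, zero_smul, sub_zero]
  exact hGood

/-- every Hermitian block on which `hw` is not scalar is of full type -/
theorem tyB_herm (hdom : ∀ f, IsBlk P f → DomB w Q S P f) {e : Matrix n n ℂ} (he : IsBlk P e)
    (hes : (cj B Bi e)ᴴ = cj B Bi e) (hr2 : 2 ≤ e.rank) (hns : ∀ c : ℂ, hw w S P * e ≠ c • e) : TyB Q S P e := by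
  classical
  have hee' : cj B Bi e * cj B Bi e = cj B Bi e := by rw [cj_mul h2, he.idem]
  obtain ⟨k, u, hu, huu⟩ : ∃ (k : ℕ) (u : Matrix n (Fin k) ℂ), uᴴ * u = 1 ∧ u * uᴴ = cj B Bi e :=
    ⟨_, exists_onbE hee' hes⟩
  have hcard : Fintype.card (Fin k) = e.rank := by
    rw [← rank_cj h1 h2 he.idem]
    exact cp_card hu huu hee'
  have hcL := H.LB_com h1 h2 hM he.mem
  refine ⟨k, Bi * u, uᴴ * B, ?_, ?_, ?_⟩
  · calc (uᴴ * B) * (Bi * u) = uᴴ * (B * Bi) * u := by simp only [Matrix.mul_assoc]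
      _ = 1 := by rw [h1, Matrix.mul_one, hu]
  · calc (Bi * u) * (uᴴ * B) = Bi * (u * uᴴ) * B := by simp only [Matrix.mul_assoc]
      _ = cj Bi B (cj B Bi e) := by rw [huu]; rfl
      _ = e := cj_cj h2 _
  rw [← cpL_basis h1 h2]
  by_cases h3 : 3 ≤ e.rank
  · obtain ⟨c, hG⟩ := H.good_all h1 h2 hM hdom he hes h3 hns hu huu
    exact ⟨hG.ty, hG.five⟩
  · have hr : e.rank = 2 := by omega
    have hsl : ∀ x : Matrix (Fin k) (Fin k) ℂ, x.trace = 0 → x ∈ cpL u uᴴ (L1 (LB Q S P B Bi)) := by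
      intro x hx
      obtain ⟨p, hp⟩ : ∃ p, e * P p ≠ 0 := by
        by_contra hcon
        push Not at hcon
        apply he.ne
        calc e = e * ∑ p ∈ S, P p := by rw [H.sum, mul_one]
          _ = 0 := by
            rw [Finset.mul_sum]
            exact Finset.sum_eq_zero fun p _ => hcon p
      have hcL1 : ∀ x ∈ L1 (LB Q S P B Bi), x * cj B Bi e = cj B Bi e * x := by
        intro x hx
        obtain ⟨y, hy, c, rfl⟩ := mem_L1.1 hx
        rw [add_mul, mul_add, hcL y hy, smul_mul_assoc, mul_smul_comm, one_mul, mul_one]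
      set c : ℝ := ((2 * p - w : ℤ) : ℝ) with hc
      have G0 := ((H.grW h1 h2 hM).addOne.shift one_L1 c).compress hu huu hcL1
      have hPe := EC_P he.mem p
      have hPP : P p * P p = P p := by rw [H.mul, if_pos rfl]
      have hE0 : uᴴ * EW w S P B Bi (0 + c) * u = uᴴ * cj B Bi (P p) * u := by
        rw [zero_add, hc, H.EW_int]
      have a1 : cj B Bi (P p) * cj B Bi (P p) = cj B Bi (P p) := by rw [cj_mul h2, hPP]
      have a2 : cj B Bi (P p) * cj B Bi e = cj B Bi e * cj B Bi (P p) := by rw [cj_mul h2, cj_mul h2, hPe]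
      have i0 := cp_idem hu huu a1 a2
      have r0 := H.blk_rank h1 h2 hM he hu huu p
      rw [H.EW_int] at r0
      have hcomp := rank_compl i0
      have hpos : 1 ≤ (e * P p).rank := by
        rw [Nat.one_le_iff_ne_zero]
        intro h0
        apply hp
        rw [Matrix.rank, Submodule.finrank_eq_zero, LinearMap.range_eq_bot] at h0
        exact (LinearEquiv.map_eq_zero_iff Matrix.toLin').1 h0
      refine G0.one_sl ?_ ?_ ?_ hx
      · intro T hT
        exact H.blk_irr h1 h2 hM he hu huu T fun x hx => by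
          obtain ⟨y, hy, rfl⟩ := hx
          exact hT _ ⟨y, le_L1 hy, rfl⟩
      · intro hE
        rw [hE0] at hE
        apply hns ((2 * p - w : ℤ) : ℂ)
        have b0 : e * P p = e := by
          apply H.untouched_of_rank h1 h2 hM he
          rw [← r0, hE, Matrix.rank_one, hcard]
        have a4 : hw w S P * P p = ((2 * p - w : ℤ) : ℂ) • P p :=
          H.sum_mul_P (fun p => ((2 * p - w : ℤ) : ℂ)) p
        calc hw w S P * e = hw w S P * (P p * e) := by rw [← hPe, b0]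
          _ = ((2 * p - w : ℤ) : ℂ) • (P p * e) := by rw [← mul_assoc, a4, smul_mul_assoc]
          _ = _ := by rw [← hPe, b0]
      · rw [hE0]
        omega
    exact ⟨Or.inl hsl, Or.inl hsl⟩

/-- **every block of rank at least two is of full type** -/
theorem tyB_all (hdom : ∀ f, IsBlk P f → DomB w Q S P f) {e : Matrix n n ℂ} (he : IsBlk P e) (hr2 : 2 ≤ e.rank) :
    TyB Q S P e := by
  obtain ⟨σ, hσ⟩ := H.exists_nonscalar he (by omega)
  have hf := he.aut σ
  obtain ⟨f', hf', hfs, a1, a2⟩ := H.herm_rep h1 h2 hM hf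
  have hrk : f'.rank = e.rank := by
    have h4 := rank_of_range (F := (1 : Matrix n n ℂ)) a1 a2 (mul_one 1) (by rw [mul_one, one_mul])
      (by rw [mul_one, one_mul])
    rw [mul_one, mul_one] at h4
    rw [h4, rank_aut σ he.idem]
  have hns : ∀ c : ℂ, hw w S P * f' ≠ c • f' := by
    intro c hc
    apply hσ c
    calc hw w S P * e.map σ = hw w S P * f' * e.map σ := by rw [mul_assoc, a2]
      _ = c • e.map σ := by rw [hc, smul_mul_assoc, a2]
  have h4 := H.tyB_herm h1 h2 hM hdom hf' hfs (by omega) hns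
  have h5 := h4.of_range a2 a1 (fun x hx => H.LH_EC hx hf.mem)
  have h6 := h5.aut σ.symm
  rwa [map_symmσ'] at h6

end basis

end IsHW

end MH
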