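import Pool.Agent.Helper14.GH.HW10
import Pool.Agent.Helper58.GH.Pair
import Pool.Agent.Helper67.GH.Two

/-!
Project GH (MP_b8862a_ag): pairs of blocks.
-/

set_option linter.unusedSectionVars false

open Matrix Module GH

namespace GH

open MH

section ofpair

variable {n : Type*} [Fintype n] [DecidableEq n] {L : Submodule ℂ (Matrix n n ℂ)} {a b : ℕ}
  {e f : Matrix n n ℂ} {w₁ : Matrix n (Fin a) ℂ} {v₁ : Matrix (Fin a) n ℂ} {w₂ : Matrix n (Fin b) ℂ}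
  {v₂ : Matrix (Fin b) n ℂ}

theorem sca14 (h1 : v₁ * w₁ = 1) (h1' : w₁ * v₁ = e) (hce : ∀ x ∈ L, x * e = e * x) {x : Matrix n n ℂ} (hx : x ∈ L)
    (c : ℂ) : (∃ c' : ℂ, v₁ * x * w₁ + c • (1 : Matrix (Fin a) (Fin a) ℂ) = c' • (1 : Matrix (Fin a) (Fin a) ℂ)) ↔
      ∃ c' : ℂ, x * e = c' • e := by
  have hee : e * e = e := by rw [← h1', Matrix.mul_assoc, ← Matrix.mul_assoc v₁, h1, Matrix.one_mul]
  constructor
  · rintro ⟨c', hc'⟩
    refine ⟨c' - c, ?_⟩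
    have h2 : v₁ * x * w₁ = (c' - c) • (1 : Matrix (Fin a) (Fin a) ℂ) := by
      rw [sub_smul, ← hc', add_sub_cancel_right]
    calc x * e = x * (e * e) := by rw [hee]
      _ = e * x * e := by rw [← Matrix.mul_assoc, hce x hx]
      _ = w₁ * (v₁ * x * w₁) * v₁ := by
          rw [← h1']
          simp only [Matrix.mul_assoc]
      _ = (c' - c) • e := by
          rw [h2, Matrix.mul_smul, Matrix.smul_mul, Matrix.mul_one, h1']
  · rintro ⟨c', hc'⟩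
    refine ⟨c' + c, ?_⟩
    have h2 : v₁ * x * w₁ = c' • (1 : Matrix (Fin a) (Fin a) ℂ) := by
      calc v₁ * x * w₁ = v₁ * x * (w₁ * (v₁ * w₁)) := by rw [h1, Matrix.mul_one]
        _ = v₁ * (x * e) * w₁ := by
            rw [← h1']
            simp only [Matrix.mul_assoc]
        _ = c' • (v₁ * e * w₁) := by rw [hc', Matrix.mul_smul, Matrix.smul_mul]
        _ = c' • ((v₁ * w₁) * (v₁ * w₁)) := by
            rw [← h1']
            simp only [Matrix.mul_assoc]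
        _ = _ := by rw [h1, Matrix.one_mul]
    rw [h2, add_smul]

theorem xw14 (h1 : v₁ * w₁ = 1) (h1' : w₁ * v₁ = e) (hce : ∀ x ∈ L, x * e = e * x) {x : Matrix n n ℂ} (hx : x ∈ L) :
    x * w₁ = w₁ * (v₁ * x * w₁) := by
  calc x * w₁ = x * (w₁ * (v₁ * w₁)) := by rw [h1, Matrix.mul_one]
    _ = (x * e) * w₁ := by
        rw [← h1']
        simp only [Matrix.mul_assoc]
    _ = (e * x) * w₁ := by rw [hce x hx]
    _ = _ := by
        rw [← h1']
        simp only [Matrix.mul_assoc]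

theorem vx14 (h1 : v₁ * w₁ = 1) (h1' : w₁ * v₁ = e) (hce : ∀ x ∈ L, x * e = e * x) {x : Matrix n n ℂ} (hx : x ∈ L) :
    v₁ * x = (v₁ * x * w₁) * v₁ := by
  calc v₁ * x = ((v₁ * w₁) * v₁) * x := by rw [h1, Matrix.one_mul]
    _ = v₁ * (e * x) := by
        rw [← h1']
        simp only [Matrix.mul_assoc]
    _ = v₁ * (x * e) := by rw [hce x hx]
    _ = _ := by
        rw [← h1']
        simp only [Matrix.mul_assoc]

theorem mem14 {x : Matrix n n ℂ} (hx : x ∈ L) : (v₁ * x * w₁, v₂ * x * w₂) ∈ PP L w₁ v₁ w₂ v₂ :=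
  ⟨x, hx, 0, 0, by rw [zero_smul, zero_smul, add_zero, add_zero]⟩

/-- from pairs of compressions to the space, for two idempotents of the commutant -/
theorem of_pair14 (h1 : v₁ * w₁ = 1) (h1' : w₁ * v₁ = e) (hce : ∀ x ∈ L, x * e = e * x)
    (h2 : v₂ * w₂ = 1) (h2' : w₂ * v₂ = f) (hcf : ∀ x ∈ L, x * f = f * x)
    (hp : Gra (PP L w₁ v₁ w₂ v₂) → LinkT (PP L w₁ v₁ w₂ v₂) ∨ LinkF (PP L w₁ v₁ w₂ v₂)) :
    Prd L e f ∨ Prd L f e ∨ Lnk L e f := by
  by_cases hg : Gra (PP L w₁ v₁ w₂ v₂)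
  · right; right
    rcases hp hg with ⟨T, hT0, hT⟩ | ⟨F, hF0, hF⟩
    · left
      refine ⟨w₂ * T * v₁, ?_, ?_, ?_, ?_⟩
      · intro h
        apply hT0
        calc T = (v₂ * w₂) * T * (v₁ * w₁) := by rw [h1, h2, Matrix.one_mul, Matrix.mul_one]
          _ = v₂ * (w₂ * T * v₁) * w₁ := by simp only [Matrix.mul_assoc]
          _ = 0 := by rw [h, Matrix.mul_zero, Matrix.zero_mul]
      · calc f * (w₂ * T * v₁) = w₂ * (v₂ * w₂) * T * v₁ := by
              rw [← h2']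
              simp only [Matrix.mul_assoc]
          _ = _ := by rw [h2, Matrix.mul_one]
      · calc w₂ * T * v₁ * e = w₂ * T * ((v₁ * w₁) * v₁) := by
              rw [← h1']
              simp only [Matrix.mul_assoc]
          _ = _ := by rw [h1, Matrix.one_mul]
      · intro x hx
        obtain ⟨c, hc⟩ := hT _ (mem14 hx)
        refine ⟨c, ?_⟩
        have e1 : x * (w₂ * T * v₁) = w₂ * ((v₂ * x * w₂) * T) * v₁ := by
          calc x * (w₂ * T * v₁) = (x * w₂) * T * v₁ := by simp only [Matrix.mul_assoc]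
            _ = w₂ * (v₂ * x * w₂) * T * v₁ := by rw [xw14 h2 h2' hcf hx]
            _ = _ := by simp only [Matrix.mul_assoc]
        have e2 : w₂ * T * v₁ * x = w₂ * (T * (v₁ * x * w₁)) * v₁ := by
          calc w₂ * T * v₁ * x = w₂ * T * (v₁ * x) := by simp only [Matrix.mul_assoc]
            _ = w₂ * T * ((v₁ * x * w₁) * v₁) := by rw [← vx14 h1 h1' hce hx]
            _ = _ := by simp only [Matrix.mul_assoc]
        rw [e1, e2, ← Matrix.sub_mul, ← Matrix.mul_sub, hc, Matrix.mul_smul, Matrix.smul_mul]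
    · right
      refine ⟨v₂ᵀ * F * v₁, ?_, ?_, ?_, ?_⟩
      · intro h
        apply hF0
        calc F = (v₂ * w₂)ᵀ * F * (v₁ * w₁) := by
              rw [h1, h2, Matrix.transpose_one, Matrix.one_mul, Matrix.mul_one]
          _ = w₂ᵀ * (v₂ᵀ * F * v₁) * w₁ := by
              rw [Matrix.transpose_mul]
              simp only [Matrix.mul_assoc]
          _ = 0 := by rw [h, Matrix.mul_zero, Matrix.zero_mul]
      · calc fᵀ * (v₂ᵀ * F * v₁) = (v₂ᵀ * (v₂ * w₂)ᵀ) * F * v₁ := by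
              rw [← h2', Matrix.transpose_mul, Matrix.transpose_mul]
              simp only [Matrix.mul_assoc]
          _ = _ := by rw [h2, Matrix.transpose_one, Matrix.mul_one]
      · calc v₂ᵀ * F * v₁ * e = v₂ᵀ * F * ((v₁ * w₁) * v₁) := by
              rw [← h1']
              simp only [Matrix.mul_assoc]
          _ = _ := by rw [h1, Matrix.one_mul]
      · intro x hx
        obtain ⟨c, hc⟩ := hF _ (mem14 hx)
        refine ⟨c, ?_⟩
        have e1 : xᵀ * (v₂ᵀ * F * v₁) = v₂ᵀ * ((v₂ * x * w₂)ᵀ * F) * v₁ := by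
          calc xᵀ * (v₂ᵀ * F * v₁) = (v₂ * x)ᵀ * F * v₁ := by
                rw [Matrix.transpose_mul]
                simp only [Matrix.mul_assoc]
            _ = ((v₂ * x * w₂) * v₂)ᵀ * F * v₁ := by rw [← vx14 h2 h2' hcf hx]
            _ = _ := by
                rw [Matrix.transpose_mul (v₂ * x * w₂) v₂]
                simp only [Matrix.mul_assoc]
        have e2 : v₂ᵀ * F * v₁ * x = v₂ᵀ * (F * (v₁ * x * w₁)) * v₁ := by
          calc v₂ᵀ * F * v₁ * x = v₂ᵀ * F * (v₁ * x) := by simp only [Matrix.mul_assoc]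
            _ = v₂ᵀ * F * ((v₁ * x * w₁) * v₁) := by rw [← vx14 h1 h1' hce hx]
            _ = _ := by simp only [Matrix.mul_assoc]
        rw [e1, e2, ← Matrix.add_mul, ← Matrix.mul_add, hc, Matrix.mul_smul, Matrix.smul_mul]
  · unfold Gra at hg
    push Not at hg
    obtain ⟨p, ⟨x, hx, c, d, rfl⟩, hpn⟩ := hg
    simp only at hpn
    rcases hpn with ⟨h3, h4⟩ | ⟨h3, h4⟩
    · right; left
      refine ⟨x, hx, ?_, ?_⟩
      · rintro ⟨c', hc'⟩
        obtain ⟨c'', h5⟩ := (sca14 h2 h2' hcf hx d).2 ⟨c', hc'⟩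
        exact h4 c'' h5
      · exact (sca14 h1 h1' hce hx c).1 h3
    · left
      refine ⟨x, hx, ?_, ?_⟩
      · rintro ⟨c', hc'⟩
        obtain ⟨c'', h5⟩ := (sca14 h1 h1' hce hx c).2 ⟨c', hc'⟩
        exact h3 c'' h5
      · exact (sca14 h2 h2' hcf hx d).1 h4

/-- the first projection of the pairs -/
theorem PP_fst : (PP L w₁ v₁ w₂ v₂).map (LinearMap.fst ℂ _ _) = L1 (cpL w₁ v₁ L) := by
  ext y
  constructor
  · rintro ⟨_, ⟨x, hx, c, d, rfl⟩, rfl⟩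
    exact mem_L1.2 ⟨_, ⟨x, hx, rfl⟩, c, rfl⟩
  · intro hy
    obtain ⟨_, ⟨x, hx, rfl⟩, c, rfl⟩ := mem_L1.1 hy
    exact ⟨_, ⟨x, hx, c, 0, rfl⟩, rfl⟩

theorem PP_snd : (PP L w₁ v₁ w₂ v₂).map (LinearMap.snd ℂ _ _) = L1 (cpL w₂ v₂ L) := by
  ext y
  constructor
  · rintro ⟨_, ⟨x, hx, c, d, rfl⟩, rfl⟩
    exact mem_L1.2 ⟨_, ⟨x, hx, rfl⟩, d, rfl⟩
  · intro hy
    obtain ⟨_, ⟨x, hx, rfl⟩, c, rfl⟩ := mem_L1.1 hy
    exact ⟨_, ⟨x, hx, 0, c, rfl⟩, rfl⟩

theorem PP_br (h1 : v₁ * w₁ = 1) (h1' : w₁ * v₁ = e) (hce : ∀ x ∈ L, x * e = e * x)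
    (h2 : v₂ * w₂ = 1) (h2' : w₂ * v₂ = f) (hcf : ∀ x ∈ L, x * f = f * x)
    (hbr : ∀ x ∈ L, ∀ y ∈ L, x * y - y * x ∈ L) :
    ∀ p ∈ PP L w₁ v₁ w₂ v₂, ∀ q ∈ PP L w₁ v₁ w₂ v₂, p * q - q * p ∈ PP L w₁ v₁ w₂ v₂ := by
  rintro _ ⟨x, hx, c, d, rfl⟩ _ ⟨y, hy, c', d', rfl⟩
  refine ⟨x * y - y * x, hbr x hx y hy, 0, 0, ?_⟩
  have key : ∀ {k : ℕ} {w : Matrix n (Fin k) ℂ} {v : Matrix (Fin k) n ℂ} {g : Matrix n n ℂ} (_ : v * w = 1)
      (_ : w * v = g) (_ : ∀ x ∈ L, x * g = g * x) (c c' : ℂ),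
      (v * x * w + c • (1 : Matrix (Fin k) (Fin k) ℂ)) * (v * y * w + c' • (1 : Matrix (Fin k) (Fin k) ℂ)) -
      (v * y * w + c' • (1 : Matrix (Fin k) (Fin k) ℂ)) * (v * x * w + c • (1 : Matrix (Fin k) (Fin k) ℂ)) =
      v * (x * y - y * x) * w + (0 : ℂ) • (1 : Matrix (Fin k) (Fin k) ℂ) := by
    intro k w v g a1 a2 a3 c c'
    have b1 : (v * x * w) * (v * y * w) = v * (x * y) * w := by
      calc (v * x * w) * (v * y * w) = v * (x * w) * v * y * w := by simp only [Matrix.mul_assoc]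
        _ = v * (w * (v * x * w)) * v * y * w := by rw [← xw14 a1 a2 a3 hx]
        _ = (v * w) * ((v * x * w) * v) * y * w := by simp only [Matrix.mul_assoc]
        _ = v * x * y * w := by rw [a1, ← vx14 a1 a2 a3 hx, Matrix.one_mul]
        _ = _ := by simp only [Matrix.mul_assoc]
    have b2 : (v * y * w) * (v * x * w) = v * (y * x) * w := by
      calc (v * y * w) * (v * x * w) = v * (y * w) * v * x * w := by simp only [Matrix.mul_assoc]
        _ = v * (w * (v * y * w)) * v * x * w := by rw [← xw14 a1 a2 a3 hy]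
        _ = (v * w) * ((v * y * w) * v) * x * w := by simp only [Matrix.mul_assoc]
        _ = v * y * x * w := by rw [a1, ← vx14 a1 a2 a3 hy, Matrix.one_mul]
        _ = _ := by simp only [Matrix.mul_assoc]
    simp only [add_mul, mul_add, Matrix.mul_smul, Matrix.smul_mul, Matrix.mul_one, Matrix.one_mul, smul_add, zero_smul,
      add_zero, mul_sub, Matrix.mul_sub, Matrix.sub_mul]
    rw [b1, b2, smul_comm c c']
    abel
  exact Prod.ext (key h1 h1' hce c c') (key h2 h2' hcf d d')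

end ofpair

end GH

namespace MH

variable {n : Type*} [Fintype n] [DecidableEq n]
variable {m w : ℤ} {Q : Matrix n n ℚ} {S : Finset ℤ} {P : ℤ → Matrix n n ℂ}

namespace IsHW

variable (H : IsHW w Q S P)
include H

section basis

variable {B Bi : Matrix n n ℂ} (h1 : B * Bi = 1) (h2 : Bi * B = 1) (hM : Mw w Q S P = Bᴴ * B)
include h1 h2 hM

/-- the adjoint in the original coordinates -/
theorem LH_st {x : Matrix n n ℂ} (hx : x ∈ LH Q S P) : Bi * (B * x * Bi)ᴴ * B ∈ LH Q S P := by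
  have h3 : cj B Bi x ∈ LB Q S P B Bi := by rw [mem_LB, cj_cj h2]; exact hx
  exact mem_LB.1 (H.LB_star h1 h2 hM h3)

/-- pairs of Hermitian blocks of rank at least three on the first of which `hw` is not scalar -/
theorem pair_herm (hdom : ∀ f, IsBlk P f → DomB w Q S P f) {e f : Matrix n n ℂ} (he : IsBlk P e) (hf : IsBlk P f)
    (hes : (cj B Bi e)ᴴ = cj B Bi e) (hfs : (cj B Bi f)ᴴ = cj B Bi f) (he3 : 3 ≤ e.rank) (hf3 : 3 ≤ f.rank)
    (hns : ∀ c : ℂ, hw w S P * e ≠ c • e) : Prd (LH Q S P) e f ∨ Prd (LH Q S P) f e ∨ Lnk (LH Q S P) e f := by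
  classical
  by_cases hsc : ∃ c : ℂ, hw w S P * f = c • f
  · exact Or.inl ⟨hw w S P, H.hw_mem, fun ⟨c, hc⟩ => hns c hc, hsc⟩
  have hns' : ∀ c : ℂ, hw w S P * f ≠ c • f := fun c hc => hsc ⟨c, hc⟩
  have hee' : cj B Bi e * cj B Bi e = cj B Bi e := by rw [cj_mul h2, he.idem]
  have hff' : cj B Bi f * cj B Bi f = cj B Bi f := by rw [cj_mul h2, hf.idem]
  obtain ⟨a, u₁, hu₁, huu₁⟩ : ∃ (k : ℕ) (u : Matrix n (Fin k) ℂ), uᴴ * u = 1 ∧ u * uᴴ = cj B Bi e :=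
    ⟨_, exists_onbE hee' hes⟩
  obtain ⟨b, u₂, hu₂, huu₂⟩ : ∃ (k : ℕ) (u : Matrix n (Fin k) ℂ), uᴴ * u = 1 ∧ u * uᴴ = cj B Bi f :=
    ⟨_, exists_onbE hff' hfs⟩
  obtain ⟨c₁, G₁⟩ := H.good_all h1 h2 hM hdom he hes he3 hns hu₁ huu₁
  obtain ⟨c₂, G₂⟩ := H.good_all h1 h2 hM hdom hf hfs hf3 hns' hu₂ huu₂
  have hvw : ∀ {k : ℕ} {u : Matrix n (Fin k) ℂ}, uᴴ * u = 1 → (uᴴ * B) * (Bi * u) = 1 := by
    intro k u hu
    calc (uᴴ * B) * (Bi * u) = uᴴ * (B * Bi) * u := by simp only [Matrix.mul_assoc]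
      _ = 1 := by rw [h1, Matrix.mul_one, hu]
  have hwv : ∀ {k : ℕ} {u : Matrix n (Fin k) ℂ} {g : Matrix n n ℂ}, u * uᴴ = cj B Bi g →
      (Bi * u) * (uᴴ * B) = g := by
    intro k u g huu
    calc (Bi * u) * (uᴴ * B) = Bi * (u * uᴴ) * B := by simp only [Matrix.mul_assoc]
      _ = cj Bi B (cj B Bi g) := by rw [huu]; rfl
      _ = g := cj_cj h2 _
  have hce : ∀ x ∈ LH Q S P, x * e = e * x := fun x hx => H.LH_EC hx he.mem
  have hcf : ∀ x ∈ LH Q S P, x * f = f * x := fun x hx => H.LH_EC hx hf.mem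
  refine of_pair14 (hvw hu₁) (hwv huu₁) hce (hvw hu₂) (hwv huu₂) hcf fun g => ?_
  -- the good projections
  have hcp : ∀ {k : ℕ} {u : Matrix n (Fin k) ℂ}, uᴴ * u = 1 →
      L1 (cpL (Bi * u) (uᴴ * B) (LH Q S P)) = cpL u uᴴ (L1 (LB Q S P B Bi)) := by
    intro k u hu
    rw [cpL_basis h1 h2, L1_cpL (hvw hu)]
  have g1 : Good ((PP (LH Q S P) (Bi * u₁) (u₁ᴴ * B) (Bi * u₂) (u₂ᴴ * B)).map (LinearMap.fst ℂ _ _))
      (u₁ᴴ * (cj B Bi (hw w S P) - (c₁ : ℂ) • (1 : Matrix n n ℂ)) * u₁)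
      (fun μ => u₁ᴴ * EW w S P B Bi (μ + c₁) * u₁) ((LamW w S).image (fun μ => μ - c₁)) := by
    rw [PP_fst, hcp hu₁]
    exact G₁
  have g2 : Good ((PP (LH Q S P) (Bi * u₁) (u₁ᴴ * B) (Bi * u₂) (u₂ᴴ * B)).map (LinearMap.snd ℂ _ _))
      (u₂ᴴ * (cj B Bi (hw w S P) - (c₂ : ℂ) • (1 : Matrix n n ℂ)) * u₂)
      (fun μ => u₂ᴴ * EW w S P B Bi (μ + c₂) * u₂) ((LamW w S).image (fun μ => μ - c₂)) := by
    rw [PP_snd, hcp hu₂]
    exact G₂
  have hhs : ∀ {k : ℕ} {u : Matrix n (Fin k) ℂ} (c : ℝ), uᴴ * u = 1 →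
      uᴴ * (cj B Bi (hw w S P) - (c : ℂ) • (1 : Matrix n n ℂ)) * u =
        (uᴴ * B) * hw w S P * (Bi * u) + (-(c : ℂ)) • (1 : Matrix (Fin k) (Fin k) ℂ) := by
    intro k u c hu
    rw [Matrix.mul_sub, Matrix.sub_mul, Matrix.mul_smul, Matrix.smul_mul, Matrix.mul_one, hu, neg_smul, ← sub_eq_add_neg]
    congr 1
    unfold cj
    simp only [Matrix.mul_assoc]
  refine PG.pair ⟨G₁.gr.spec, G₂.gr.spec, ?_, ?_, ?_, ?_, ?_⟩ g g1 g2
  · exact PP_br (hvw hu₁) (hwv huu₁) hce (hvw hu₂) (hwv huu₂) hcf fun x hx y hy => LH_br hx hy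
  · rintro _ ⟨x, hx, c, d, rfl⟩
    refine ⟨Bi * (B * x * Bi)ᴴ * B, H.LH_st h1 h2 hM hx, star c, star d, ?_⟩
    have key : ∀ {k : ℕ} (u : Matrix n (Fin k) ℂ) (c : ℂ),
        ((uᴴ * B) * x * (Bi * u) + c • (1 : Matrix (Fin k) (Fin k) ℂ))ᴴ =
          (uᴴ * B) * (Bi * (B * x * Bi)ᴴ * B) * (Bi * u) + star c • (1 : Matrix (Fin k) (Fin k) ℂ) := by
      intro k u c
      rw [Matrix.conjTranspose_add, Matrix.conjTranspose_smul, Matrix.conjTranspose_one]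
      congr 1
      calc ((uᴴ * B) * x * (Bi * u))ᴴ = (uᴴ * (B * x * Bi) * u)ᴴ := by simp only [Matrix.mul_assoc]
        _ = uᴴ * (B * x * Bi)ᴴ * u := by
          rw [Matrix.conjTranspose_mul, Matrix.conjTranspose_mul uᴴ, Matrix.conjTranspose_conjTranspose]
          exact (Matrix.mul_assoc _ _ _).symm
        _ = uᴴ * ((B * Bi) * (B * x * Bi)ᴴ * (B * Bi)) * u := by rw [h1, Matrix.one_mul, Matrix.mul_one]
        _ = _ := by simp only [Matrix.mul_assoc]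
    exact Prod.ext (key u₁ c) (key u₂ d)
  · exact ⟨hw w S P, H.hw_mem, -(c₁ : ℂ), -(c₂ : ℂ), Prod.ext (hhs c₁ hu₁) (hhs c₂ hu₂)⟩
  · exact ⟨0, (LH Q S P).zero_mem, 1, 0, by simp⟩
  · exact ⟨0, (LH Q S P).zero_mem, 0, 1, by simp⟩

/-- pairs of blocks of rank at least three -/
theorem pair_three (hdom : ∀ f, IsBlk P f → DomB w Q S P f) {e f : Matrix n n ℂ} (he : IsBlk P e) (hf : IsBlk P f)
    (he3 : 3 ≤ e.rank) (hf3 : 3 ≤ f.rank) : Prd (LH Q S P) e f ∨ Prd (LH Q S P) f e ∨ Lnk (LH Q S P) e f := by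
  obtain ⟨σ, hσ⟩ := H.exists_nonscalar he (by omega)
  have he1 := he.aut σ
  have hf1 := hf.aut σ
  obtain ⟨e', he', hes, a1, a2⟩ := H.herm_rep h1 h2 hM he1
  obtain ⟨f', hf', hfs, b1, b2⟩ := H.herm_rep h1 h2 hM hf1
  have hrke : e'.rank = e.rank := by
    have h4 := rank_of_range (F := (1 : Matrix n n ℂ)) a1 a2 (mul_one 1) (by rw [mul_one, one_mul])
      (by rw [mul_one, one_mul])
    rw [mul_one, mul_one] at h4
    rw [h4, rank_aut σ he.idem]
  have hrkf : f'.rank = f.rank := by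
    have h4 := rank_of_range (F := (1 : Matrix n n ℂ)) b1 b2 (mul_one 1) (by rw [mul_one, one_mul])
      (by rw [mul_one, one_mul])
    rw [mul_one, mul_one] at h4
    rw [h4, rank_aut σ hf.idem]
  have hns : ∀ c : ℂ, hw w S P * e' ≠ c • e' := by
    intro c hc
    apply hσ c
    calc hw w S P * e.map σ = hw w S P * e' * e.map σ := by rw [mul_assoc, a2]
      _ = c • e.map σ := by rw [hc, smul_mul_assoc, a2]
  have h4 := H.pair_herm h1 h2 hM hdom he' hf' hes hfs (by omega) (by omega) hns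
  have h5 := lnk_of_range' a2 a1 b2 b1 (fun x hx => H.LH_EC hx he1.mem) (fun x hx => H.LH_EC hx hf1.mem) h4
  rcases h5 with h6 | h6 | h6
  · have h7 := prd_aut σ.symm h6
    rw [map_symmσ', map_symmσ'] at h7
    exact Or.inl h7
  · have h7 := prd_aut σ.symm h6
    rw [map_symmσ', map_symmσ'] at h7
    exact Or.inr (Or.inl h7)
  · have h7 := lnk_aut σ.symm h6
    rw [map_symmσ', map_symmσ'] at h7
    exact Or.inr (Or.inr h7)

end basis

end IsHW

end MH
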