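import Pool.Agent.Helper14.GH.HW
import Pool.Agent.Helper21.MH.Gal

/-!
Project GH (MP_b8862a_ag): the Lie algebra `LH` in a basis that is orthonormal for the Hodge-Riemann form.
-/

set_option linter.unusedSectionVars false

open Matrix

namespace MH

variable {n : Type*} [Fintype n] [DecidableEq n]
variable {w : ℤ} {Q : Matrix n n ℚ} {S : Finset ℤ} {P : ℤ → Matrix n n ℂ}

/-- the spectral projections of `hw` in the new basis -/
noncomputable def EW (w : ℤ) (S : Finset ℤ) (P : ℤ → Matrix n n ℂ) (B Bi : Matrix n n ℂ) (μ : ℝ) : Matrix n n ℂ :=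
  ∑ p ∈ S.filter (fun p => ((2 * p - w : ℤ) : ℝ) = μ), cj B Bi (P p)

/-- the eigenvalues of `hw` -/
noncomputable def LamW (w : ℤ) (S : Finset ℤ) : Finset ℝ := S.image (fun p => ((2 * p - w : ℤ) : ℝ))

theorem castW_inj (w : ℤ) {S : Finset ℤ} : ∀ p ∈ S, ∀ q ∈ S, ((2 * p - w : ℤ) : ℝ) = ((2 * q - w : ℤ) : ℝ) →
    p = q := by
  intro p _ q _ h
  have h2 : 2 * p - w = 2 * q - w := by exact_mod_cast h
  omega

theorem EW_other (B Bi : Matrix n n ℂ) {μ : ℝ} (h : ∀ p ∈ S, ((2 * p - w : ℤ) : ℝ) ≠ μ) : EW w S P B Bi μ = 0 := by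
  unfold EW
  rw [Finset.filter_false_of_mem h, Finset.sum_empty]

theorem I_mul_sgn (w : ℤ) : (-1 : ℂ) ^ w * Complex.I ^ w = (Complex.I ^ w)⁻¹ := by
  symm
  apply inv_eq_of_mul_eq_one_left
  rw [mul_assoc, I_sq_sgn, sgn_mul]

theorem I_zpow_ne (w : ℤ) : Complex.I ^ w ≠ 0 := zpow_ne_zero _ Complex.I_ne_zero

namespace IsHW

variable (H : IsHW w Q S P)
include H

theorem EW_int (B Bi : Matrix n n ℂ) (p : ℤ) : EW w S P B Bi ((2 * p - w : ℤ) : ℝ) = cj B Bi (P p) := by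
  unfold EW
  by_cases hp : p ∈ S
  · rw [Finset.sum_eq_single p]
    · intro q hq hqp
      exfalso
      apply hqp
      have h1 : ((2 * q - w : ℤ) : ℝ) = ((2 * p - w : ℤ) : ℝ) := (Finset.mem_filter.1 hq).2
      have h2 : 2 * q - w = 2 * p - w := by exact_mod_cast h1
      omega
    · intro h
      exact (h (Finset.mem_filter.2 ⟨hp, rfl⟩)).elim
  · rw [H.supp p hp, cj_zero]
    refine Finset.sum_eq_zero fun q hq => ?_
    have h1 : ((2 * q - w : ℤ) : ℝ) = ((2 * p - w : ℤ) : ℝ) := (Finset.mem_filter.1 hq).2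
    have h2 : 2 * q - w = 2 * p - w := by exact_mod_cast h1
    have h3 : q = p := by omega
    rw [h3, H.supp p hp, cj_zero]

/-- the Lie algebra is stable under conjugation by the Weil operator -/
theorem LH_C0 {X : Matrix n n ℂ} (hX : X ∈ LH Q S P) : C0 S P * X * C0 S P ∈ LH Q S P := by
  have hCC := H.C0_mul
  have hCQ := H.C0_Q
  obtain ⟨h1, h2⟩ := hX
  refine ⟨?_, fun a b t ht => ?_⟩
  · have e1 : Xᵀ * toC Q = -(toC Q * X) := eq_neg_of_add_eq_zero_left h1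
    have e2 : (C0 S P * X * C0 S P)ᵀ * toC Q = -(toC Q * (C0 S P * X * C0 S P)) := by
      rw [Matrix.transpose_mul, Matrix.transpose_mul, mul_assoc, mul_assoc, hCQ, mul_smul_comm, ← mul_assoc Xᵀ, e1,
        neg_mul, mul_smul_comm, mul_neg, ← mul_assoc (C0 S P)ᵀ, ← mul_assoc (C0 S P)ᵀ, hCQ, smul_mul_assoc,
        smul_mul_assoc, smul_neg, smul_smul, sgn_mul, one_smul]
      simp only [mul_assoc]
    rw [e2, neg_add_cancel]
  · have h3 := ht (-1) (by norm_num)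
    have h4 : cochar S P (-1) = C0 S P := rfl
    have h5 : cochar S P (-1)⁻¹ = C0 S P := by
      unfold cochar C0
      norm_num
    rw [h4, h5] at h3
    rw [dL_conj a b (tC t) X (C0 S P) (C0 S P) hCC h3, h2 a b t ht, actF_zero]

section basis

variable {B Bi Qi : Matrix n n ℂ} (h1 : B * Bi = 1) (h2 : Bi * B = 1) (h3 : toC Q * Qi = 1)
  (h4 : Qi * toC Q = 1) (hM : Mw w Q S P = Bᴴ * B)
include h1 h2 hM

omit H h2 in
/-- the adjoint in the new basis -/
theorem cj_herm (x : Matrix n n ℂ) : cj Bi B xᴴ = (Bi * Biᴴ) * (cj Bi B x)ᴴ * Mw w Q S P := by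
  have e2 : x = cj B Bi (cj Bi B x) := (cj_cj h1 x).symm
  conv_lhs => rw [e2]
  rw [hM]
  unfold cj
  rw [Matrix.conjTranspose_mul, Matrix.conjTranspose_mul]
  simp only [mul_assoc]

omit H in
theorem Mi_mul : (Bi * Biᴴ) * Mw w Q S P = 1 := by
  rw [hM]
  calc (Bi * Biᴴ) * (Bᴴ * B) = Bi * (Biᴴ * Bᴴ) * B := by simp only [mul_assoc]
    _ = 1 := by rw [← Matrix.conjTranspose_mul, h1, Matrix.conjTranspose_one, mul_one, h2]

omit H in
theorem mul_Mi : Mw w Q S P * (Bi * Biᴴ) = 1 := by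
  rw [hM]
  calc (Bᴴ * B) * (Bi * Biᴴ) = Bᴴ * (B * Bi) * Biᴴ := by simp only [mul_assoc]
    _ = 1 := by rw [h1, mul_one, ← Matrix.conjTranspose_mul, h2, Matrix.conjTranspose_one]

theorem Mi_Q : (Bi * Biᴴ) * toC Q = (Complex.I ^ w)⁻¹ • C0 S P := by
  have e1 := Mi_mul h1 h2 hM
  unfold Mw at e1
  rw [mul_smul_comm] at e1
  have e2 : (Bi * Biᴴ) * (toC Q * C0 S P) = (Complex.I ^ w)⁻¹ • (1 : Matrix n n ℂ) := by
    rw [← e1, smul_smul, inv_mul_cancel₀ (I_zpow_ne w), one_smul]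
  calc (Bi * Biᴴ) * toC Q = (Bi * Biᴴ) * toC Q * (C0 S P * C0 S P) := by rw [H.C0_mul, mul_one]
    _ = ((Bi * Biᴴ) * (toC Q * C0 S P)) * C0 S P := by simp only [mul_assoc]
    _ = _ := by rw [e2, smul_mul_assoc, one_mul]

/-- the Lie algebra is self-adjoint in the new basis -/
theorem LB_star {x : Matrix n n ℂ} (hx : x ∈ LB Q S P B Bi) : xᴴ ∈ LB Q S P B Bi := by
  rw [mem_LB] at hx ⊢
  rw [cj_herm h1 hM]
  have hXc : (cj Bi B x).map (starRingEnd ℂ) ∈ LH Q S P := LH_conj hx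
  have hXt : (cj Bi B x)ᴴ = ((cj Bi B x).map (starRingEnd ℂ))ᵀ := rfl
  rw [hXt]
  generalize (cj Bi B x).map (starRingEnd ℂ) = Y at hXc
  have e3 : Yᵀ * toC Q = -(toC Q * Y) := eq_neg_of_add_eq_zero_left hXc.1
  have e4 : Bi * Biᴴ * Yᵀ * Mw w Q S P = -(C0 S P * Y * C0 S P) := by
    unfold Mw
    rw [mul_smul_comm]
    calc Complex.I ^ w • (Bi * Biᴴ * Yᵀ * (toC Q * C0 S P))
        = Complex.I ^ w • ((Bi * Biᴴ) * (Yᵀ * toC Q) * C0 S P) := by simp only [mul_assoc]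
      _ = Complex.I ^ w • -(((Bi * Biᴴ) * toC Q) * Y * C0 S P) := by
          rw [e3, mul_neg, neg_mul]
          simp only [mul_assoc]
      _ = _ := by
          rw [H.Mi_Q h1 h2 hM, smul_mul_assoc, smul_mul_assoc, ← smul_neg, smul_smul, mul_inv_cancel₀ (I_zpow_ne w),
            one_smul]
  rw [e4]
  exact (LH Q S P).neg_mem (H.LH_C0 hXc)

theorem specW : Spec (cj B Bi (hw w S P)) (EW w S P B Bi) (LamW w S) := by
  have hstar : ∀ p, (cj B Bi (P p))ᴴ = cj B Bi (P p) := by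
    intro p
    have e0 : C0 S P * P p = P p * C0 S P := by
      unfold C0
      rw [H.sum_mul_P (fun p => (-1 : ℂ) ^ p), H.P_mul_sum (fun p => (-1 : ℂ) ^ p)]
    have e1 : Mw w Q S P * P p = (P p)ᴴ * Mw w Q S P := by
      unfold Mw
      rw [smul_mul_assoc, mul_smul_comm, mul_assoc, e0, ← mul_assoc, ← H.P_herm_Q, mul_assoc]
    have e2 := cj_herm h1 hM (cj B Bi (P p))
    rw [cj_cj h2, mul_assoc, ← e1, ← mul_assoc, Mi_mul h1 h2 hM, one_mul] at e2
    have e3 := congrArg (cj B Bi) e2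
    rwa [cj_cj h1] at e3
  refine ⟨?_, ?_, ?_, ?_, ?_⟩
  · intro μ
    unfold EW
    rw [Matrix.conjTranspose_sum]
    exact Finset.sum_congr rfl fun p _ => hstar p
  · intro μ ν
    by_cases hμ : ∃ p ∈ S, ((2 * p - w : ℤ) : ℝ) = μ
    · obtain ⟨p, _, rfl⟩ := hμ
      by_cases hν : ∃ q ∈ S, ((2 * q - w : ℤ) : ℝ) = ν
      · obtain ⟨q, _, rfl⟩ := hν
        rw [H.EW_int, H.EW_int, cj_mul h2, H.mul]
        by_cases hpq : p = q
        · rw [if_pos hpq, if_pos (by rw [hpq])]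
        · rw [if_neg hpq, if_neg, cj_zero]
          intro h
          have h3 : 2 * p - w = 2 * q - w := by exact_mod_cast h
          exact hpq (by omega)
      · push Not at hν
        rw [EW_other B Bi hν, mul_zero]
        split_ifs with h
        · rw [h, EW_other B Bi hν]
        · rfl
    · push Not at hμ
      rw [EW_other B Bi hμ, zero_mul]
      simp
  · intro μ hμ
    apply EW_other
    intro p hp h
    exact hμ (Finset.mem_image.2 ⟨p, hp, h⟩)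
  · unfold LamW
    rw [Finset.sum_image (castW_inj w)]
    simp_rw [H.EW_int]
    rw [← cj_sum, H.sum, cj_one h1]
  · unfold LamW hw
    rw [Finset.sum_image (castW_inj w), cj_sum]
    refine Finset.sum_congr rfl fun p _ => ?_
    rw [H.EW_int, cj_smul]
    congr 1

omit hM in
theorem LB_br {x y : Matrix n n ℂ} (hx : x ∈ LB Q S P B Bi) (hy : y ∈ LB Q S P B Bi) :
    x * y - y * x ∈ LB Q S P B Bi := by
  rw [mem_LB, cj_sub, ← cj_mul h1, ← cj_mul h1]
  exact LH_br (mem_LB.1 hx) (mem_LB.1 hy)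

omit h1 hM in
theorem LB_h : cj B Bi (hw w S P) ∈ LB Q S P B Bi := by
  rw [mem_LB, cj_cj h2]
  exact H.hw_mem

omit hM h1 h2 in
include h3 h4 in
theorem Qi_symm : Qiᵀ = ((-1 : ℂ) ^ w) • Qi := by
  have e1 := congrArg Matrix.transpose h4
  rw [Matrix.transpose_mul, H.Q_symm, Matrix.transpose_one, smul_mul_assoc] at e1
  calc Qiᵀ = (Qi * toC Q) * Qiᵀ := by rw [h4, one_mul]
    _ = Qi * (toC Q * Qiᵀ) := by rw [mul_assoc]
    _ = _ := by
      have e2 : toC Q * Qiᵀ = ((-1 : ℂ) ^ w) • (1 : Matrix n n ℂ) := by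
        rw [← e1, smul_smul, sgn_mul, one_smul]
      rw [e2, mul_smul_comm, mul_one]

omit hM h1 h2 in
include h3 h4 in
theorem Qi_herm : Qiᴴ = ((-1 : ℂ) ^ w) • Qi := by
  have e1 := congrArg Matrix.conjTranspose h4
  rw [Matrix.conjTranspose_mul, H.Q_herm, Matrix.conjTranspose_one, smul_mul_assoc] at e1
  calc Qiᴴ = (Qi * toC Q) * Qiᴴ := by rw [h4, one_mul]
    _ = Qi * (toC Q * Qiᴴ) := by rw [mul_assoc]
    _ = _ := by
      have e2 : toC Q * Qiᴴ = ((-1 : ℂ) ^ w) • (1 : Matrix n n ℂ) := by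
        rw [← e1, smul_smul, sgn_mul, one_smul]
      rw [e2, mul_smul_comm, mul_one]

theorem M_symm : (Mw w Q S P)ᵀ = Mw w Q S P := by
  unfold Mw
  rw [Matrix.transpose_smul, Matrix.transpose_mul, H.Q_symm, mul_smul_comm, H.C0_Q, smul_smul, smul_smul, mul_assoc,
    sgn_mul, mul_one]

include h3 h4 in
/-- the adjoint for `Q` in the new basis -/
theorem invW : Inv (tau B Bi (toC Q) Qi) := by
  have hQit := H.Qi_symm h3 h4
  have hQih := H.Qi_herm h3 h4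
  have a2 := H.Mi_Q h1 h2 hM
  have a1 : Qi * Mw w Q S P = Complex.I ^ w • C0 S P := by
    unfold Mw
    rw [mul_smul_comm, ← mul_assoc, h4, one_mul]
  have a3 := H.M_symm h1 h2 hM
  have a4 : (Bi * Biᴴ)ᵀ = Bi * Biᴴ := by
    have e1 : (Bi * Biᴴ)ᵀ * Mw w Q S P = 1 := by
      have := congrArg Matrix.transpose (mul_Mi h1 h2 hM)
      rw [Matrix.transpose_mul, a3, Matrix.transpose_one] at this
      exact this
    calc (Bi * Biᴴ)ᵀ = (Bi * Biᴴ)ᵀ * (Mw w Q S P * (Bi * Biᴴ)) := by rw [mul_Mi h1 h2 hM, mul_one]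
      _ = Bi * Biᴴ := by rw [← mul_assoc, e1, one_mul]
  refine ⟨?_, ?_, ?_, ?_⟩
  · intro x y
    rw [tau_apply, tau_apply, tau_apply, cj_mul h2, ← cj_mul h1, Matrix.transpose_mul]
    congr 1
    calc Qi * ((cj Bi B y)ᵀ * (cj Bi B x)ᵀ) * toC Q
        = Qi * (cj Bi B y)ᵀ * (toC Q * Qi) * (cj Bi B x)ᵀ * toC Q := by rw [h3, mul_one, ← mul_assoc Qi]
      _ = Qi * (cj Bi B y)ᵀ * toC Q * (Qi * (cj Bi B x)ᵀ * toC Q) := by simp only [mul_assoc]
  · intro x
    rw [tau_apply, tau_apply, cj_cj h2, Matrix.transpose_mul, Matrix.transpose_mul, Matrix.transpose_transpose, hQit,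
      H.Q_symm]
    have e1 : Qi * (((-1 : ℂ) ^ w) • toC Q * (cj Bi B x * ((-1 : ℂ) ^ w) • Qi)) * toC Q = cj Bi B x := by
      rw [mul_smul_comm, smul_mul_smul_comm, sgn_mul, one_smul]
      calc Qi * (toC Q * (cj Bi B x * Qi)) * toC Q = (Qi * toC Q) * cj Bi B x * (Qi * toC Q) := by
            simp only [mul_assoc]
        _ = cj Bi B x := by rw [h4, one_mul, mul_one]
    rw [e1, cj_cj h1]
  · intro x
    have b2 : ∀ y, cj Bi B yᴴ = (Bi * Biᴴ) * (cj Bi B y)ᴴ * Mw w Q S P := fun y => cj_herm h1 hM y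
    have b1 : ∀ X, (cj B Bi X)ᴴ = cj B Bi ((Bi * Biᴴ) * Xᴴ * Mw w Q S P) := by
      intro X
      have e1 := b2 (cj B Bi X)
      rw [cj_cj h2] at e1
      rw [← e1, cj_cj h1]
    rw [tau_apply, tau_apply, b1, b2]
    congr 1
    clear b1 b2
    generalize Mw w Q S P = Mm at a1 a3 ⊢
    generalize Bi * Biᴴ = Mi at a2 a4 ⊢
    rw [Matrix.transpose_mul, Matrix.transpose_mul, a3, a4, Matrix.conjTranspose_mul, Matrix.conjTranspose_mul, H.Q_herm,
      hQih]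
    have e2 : ((cj Bi B x)ᴴ)ᵀ = ((cj Bi B x)ᵀ)ᴴ := rfl
    rw [e2]
    calc Qi * (Mm * (((cj Bi B x)ᵀ)ᴴ * Mi)) * toC Q
        = (Qi * Mm) * ((cj Bi B x)ᵀ)ᴴ * (Mi * toC Q) := by simp only [mul_assoc]
      _ = C0 S P * ((cj Bi B x)ᵀ)ᴴ * C0 S P := by
          rw [a1, a2, smul_mul_assoc, smul_mul_smul_comm, mul_inv_cancel₀ (I_zpow_ne w), one_smul]
      _ = (Mi * toC Q) * ((cj Bi B x)ᵀ)ᴴ * (Qi * Mm) := by
          rw [a1, a2, smul_mul_assoc, smul_mul_smul_comm, inv_mul_cancel₀ (I_zpow_ne w), one_smul]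
      _ = Mi * (((-1 : ℂ) ^ w) • toC Q * (((cj Bi B x)ᵀ)ᴴ * ((-1 : ℂ) ^ w) • Qi)) * Mm := by
          rw [mul_smul_comm, smul_mul_smul_comm, sgn_mul, one_smul]
          simp only [mul_assoc]
  · intro x
    rw [tau_apply]
    unfold cj
    rw [Matrix.trace_mul_comm, ← mul_assoc, h2, one_mul, mul_assoc, Matrix.trace_mul_comm, mul_assoc, h3, mul_one,
      Matrix.trace_transpose, Matrix.trace_mul_comm, ← mul_assoc, h1, one_mul]

include h3 h4 in
/-- all the data except irreducibility -/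
theorem preW : Pre (tau B Bi (toC Q) Qi) (LB Q S P B Bi) (cj B Bi (hw w S P)) (EW w S P B Bi) (LamW w S) where
  inv := H.invW h1 h2 h3 h4 hM
  spec := H.specW h1 h2 hM
  sk := by
    intro x hx
    have e1 : (cj Bi B x)ᵀ * toC Q = -(toC Q * cj Bi B x) := eq_neg_of_add_eq_zero_left (mem_LB.1 hx).1
    rw [tau_apply, mul_assoc, e1, mul_neg, ← mul_assoc, h4, one_mul, cj_neg, cj_cj h1]
  br := fun x hx y hy => H.LB_br h1 h2 hx hy
  st := fun x hx => H.LB_star h1 h2 hM hx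
  mem := H.LB_h h2

end basis

end IsHW

end MH
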