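import Pool.Agent.Helper14.GH.HW2
import Pool.Agent.Helper54.TR.EC

/-!
Project GH (MP_b8862a_ag): the complex span `EC` of the endomorphisms of a Hodge structure of any weight is the
commutant of `LH` and of the conjugates of `hw`; Galois descent for tensors; tensors of types (1,1) and (0,2).
-/

set_option linter.unusedSectionVars false

open Matrix

namespace MH

section slotsW

variable {R n : Type*} [CommRing R] [Fintype n] [DecidableEq n]

/-- the tensor of type (1, 1) of a matrix -/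
def t11 (A : Matrix n n R) : (Fin 1 ⊕ Fin 1 → n) → R := fun i => A (i (Sum.inl 0)) (i (Sum.inr 0))

/-- pairs as functions -/
def pr11 : n × n ≃ (Fin 1 ⊕ Fin 1 → n) where
  toFun p := Sum.elim (fun _ => p.1) (fun _ => p.2)
  invFun j := (j (Sum.inl 0), j (Sum.inr 0))
  left_inv p := rfl
  right_inv j := by
    funext k
    rcases k with k | k
    · rw [Subsingleton.elim k 0]
      rfl
    · rw [Subsingleton.elim k 0]
      rfl

theorem actF_t11 (g h : Matrix n n R) (A : Matrix n n R) :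
    actF (Sum.elim (fun _ : Fin 1 => g) (fun _ : Fin 1 => h)) (t11 A) = t11 (g * A * hᵀ) := by
  funext i
  unfold actF
  rw [← (pr11 (n := n)).sum_comp, Fintype.sum_prod_type]
  have e1 : ∀ x y : n, (∏ k, (Sum.elim (fun _ : Fin 1 => g) (fun _ : Fin 1 => h) : Fin 1 ⊕ Fin 1 → Matrix n n R) k
      (i k) (pr11 (x, y) k)) * t11 A (pr11 (x, y)) = g (i (Sum.inl 0)) x * A x y * h (i (Sum.inr 0)) y := by
    intro x y
    rw [Fintype.prod_sum_type]
    simp only [Finset.univ_unique, Finset.prod_singleton, Sum.elim_inl, Sum.elim_inr, Fin.default_eq_zero]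
    have h1 : (pr11 (x, y)) (Sum.inl 0) = x := rfl
    have h2 : (pr11 (x, y)) (Sum.inr 0) = y := rfl
    have h3 : t11 A (pr11 (x, y)) = A x y := rfl
    rw [h1, h2, h3]
    ring
  simp only [e1]
  unfold t11
  rw [Matrix.mul_apply, Finset.sum_comm]
  refine Finset.sum_congr rfl fun y _ => ?_
  rw [Matrix.mul_apply, Finset.sum_mul]
  rfl

omit [Fintype n] [DecidableEq n] in
theorem t11_inj {A B : Matrix n n R} (h : t11 A = t11 B) : A = B := by
  ext x y
  exact congrFun h (Sum.elim (fun _ => x) (fun _ => y))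

/-- every tensor of type (1,1) is the tensor of a matrix -/
theorem t11_surj (t : (Fin 1 ⊕ Fin 1 → n) → R) : ∃ A : Matrix n n R, t = t11 A := by
  refine ⟨Matrix.of fun x y => t (Sum.elim (fun _ => x) (fun _ => y)), ?_⟩
  funext i
  unfold t11
  rw [Matrix.of_apply]
  congr 1
  funext k
  rcases k with k | k
  · rw [Subsingleton.elim k 0]
    rfl
  · rw [Subsingleton.elim k 0]
    rfl

theorem dL_t11 (A X : Matrix n n R) : dL 1 1 (t11 A) X = t11 (X * A - A * X) := by
  rw [dL_apply]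
  unfold dact
  rw [Fintype.sum_sum_type]
  simp only [Finset.univ_unique, Finset.sum_singleton, Fin.default_eq_zero]
  have e1 : Function.update (fun _ => (1 : Matrix n n R)) (Sum.inl 0 : Fin 1 ⊕ Fin 1) (lslot 1 1 X (Sum.inl 0)) =
      Sum.elim (fun _ : Fin 1 => X) (fun _ : Fin 1 => 1) := by
    funext k
    rcases k with k | k
    · rw [Subsingleton.elim k 0, Function.update_self]
      rfl
    · rw [Function.update_of_ne (by simp)]
      rfl
  have e2 : Function.update (fun _ => (1 : Matrix n n R)) (Sum.inr 0 : Fin 1 ⊕ Fin 1) (lslot 1 1 X (Sum.inr 0)) =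
      Sum.elim (fun _ : Fin 1 => 1) (fun _ : Fin 1 => -Xᵀ) := by
    funext k
    rcases k with k | k
    · rw [Function.update_of_ne (by simp)]
      rfl
    · rw [Subsingleton.elim k 0, Function.update_self]
      rfl
  rw [e1, e2, actF_t11, actF_t11, Matrix.transpose_one, mul_one, one_mul, Matrix.transpose_neg,
    Matrix.transpose_transpose, mul_neg]
  funext i
  simp only [t11, Pi.add_apply, Matrix.sub_apply, Matrix.neg_apply, sub_eq_add_neg]

/-- the scalars act on tensors of type `(a, b)` by `a - b`; here `a = b` -/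
theorem dL_one_self (a : ℕ) (t : (Fin a ⊕ Fin a → n) → R) : dL a a t (1 : Matrix n n R) = 0 := by
  rw [dL_apply]
  unfold dact
  rw [Fintype.sum_sum_type]
  have e1 : ∀ k : Fin a, actF (Function.update (fun _ => (1 : Matrix n n R)) (Sum.inl k : Fin a ⊕ Fin a)
      (lslot a a (1 : Matrix n n R) (Sum.inl k))) t = t := by
    intro k
    have : Function.update (fun _ => (1 : Matrix n n R)) (Sum.inl k : Fin a ⊕ Fin a)
        (lslot a a (1 : Matrix n n R) (Sum.inl k)) = fun _ => 1 := by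
      have h1 : lslot a a (1 : Matrix n n R) (Sum.inl k) = 1 := rfl
      rw [h1]
      exact Function.update_eq_self _ _
    rw [this, actF_one]
  have e2 : ∀ k : Fin a, actF (Function.update (fun _ => (1 : Matrix n n R)) (Sum.inr k : Fin a ⊕ Fin a)
      (lslot a a (1 : Matrix n n R) (Sum.inr k))) t = -t := by
    intro k
    have h1 : lslot a a (1 : Matrix n n R) (Sum.inr k) = -1 := by
      simp only [lslot, Sum.elim_inr, Matrix.transpose_one]
    rw [h1]
    funext i
    unfold actF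
    have h2 : ∀ j : Fin a ⊕ Fin a → n, (∏ l, (Function.update (fun _ => (1 : Matrix n n R)) (Sum.inr k) (-1)) l (i l)
        (j l)) = -∏ l, (1 : Matrix n n R) (i l) (j l) := by
      intro j
      rw [← Finset.mul_prod_erase _ _ (Finset.mem_univ (Sum.inr k : Fin a ⊕ Fin a)),
        ← Finset.mul_prod_erase _ (fun l => (1 : Matrix n n R) (i l) (j l)) (Finset.mem_univ (Sum.inr k : Fin a ⊕ Fin a)),
        Function.update_self, Matrix.neg_apply, neg_mul]
      congr 2
      refine Finset.prod_congr rfl fun l hl => ?_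
      rw [Function.update_of_ne (Finset.ne_of_mem_erase hl)]
    simp only [h2, neg_mul, Finset.sum_neg_distrib]
    have h3 := congrFun (actF_one (R := R) (n := n) t) i
    unfold actF at h3
    rw [h3, Pi.neg_apply]
  rw [Finset.sum_congr rfl fun k _ => e1 k, Finset.sum_congr rfl fun k _ => e2 k, Finset.sum_neg_distrib, add_neg_cancel]

end slotsW

variable {n : Type*} [Fintype n] [DecidableEq n]
variable {w : ℤ} {Q : Matrix n n ℚ} {S : Finset ℤ} {P : ℤ → Matrix n n ℂ}

theorem tC_t11 (A : Matrix n n ℚ) : tC (t11 A) = t11 (toC A) := rfl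

theorem slot11 (g g' : Matrix n n ℂ) (A : Matrix n n ℂ) : actF (slot 1 1 g g') (t11 A) = t11 (g * A * g') := by
  have e1 : slot 1 1 g g' = Sum.elim (fun _ : Fin 1 => g) (fun _ : Fin 1 => g'ᵀ) := rfl
  rw [e1, actF_t11, Matrix.transpose_transpose]

theorem mem_EC {A : Matrix n n ℚ} (hA : ∀ p, toC A * P p = P p * toC A) : toC A ∈ EC P :=
  Submodule.subset_span ⟨A, hA, rfl⟩

namespace IsHW

variable (H : IsHW w Q S P)
include H

/-- the tensor of an endomorphism is a Hodge tensor -/
theorem hodge_t11 {A : Matrix n n ℚ} (hA : ∀ p, toC A * P p = P p * toC A) : IsHodgeTensor S P 1 1 (t11 A) := by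
  intro z hz
  rw [tC_t11, slot11]
  have e2 : cochar S P z * toC A = toC A * cochar S P z := by
    unfold cochar
    rw [Finset.sum_mul, Finset.mul_sum]
    refine Finset.sum_congr rfl fun p _ => ?_
    rw [smul_mul_assoc, mul_smul_comm, hA]
  have e3 : cochar S P z * cochar S P z⁻¹ = 1 := by
    unfold cochar
    rw [H.sum_mul_sum (fun p => z ^ p) (fun p => z⁻¹ ^ p), ← H.sum]
    refine Finset.sum_congr rfl fun p _ => ?_
    rw [← mul_zpow, mul_inv_cancel₀ hz, _root_.one_zpow, one_smul]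
  rw [e2, mul_assoc, e3, mul_one]

/-- an endomorphism of the Hodge structure is a Hodge tensor of type (1,1) -/
theorem LH_EC {X x : Matrix n n ℂ} (hX : X ∈ LH Q S P) (hx : x ∈ EC P) : X * x = x * X := by
  unfold EC at hx
  induction hx using Submodule.span_induction with
  | mem x hx =>
    obtain ⟨A, hA, rfl⟩ := hx
    have h1 := hX.2 1 1 (t11 A) (H.hodge_t11 hA)
    rw [tC_t11, dL_t11] at h1
    have h2 : t11 (X * toC A - toC A * X) = t11 (0 : Matrix n n ℂ) := h1
    exact sub_eq_zero.1 (t11_inj h2)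
  | zero => rw [zero_mul, mul_zero]
  | add x z _ _ h1 h2 => rw [add_mul, mul_add, h1, h2]
  | smul c x _ h1 => rw [smul_mul_assoc, mul_smul_comm, h1]

theorem MT_EC {g : GL n ℂ} (hg : g ∈ MT S P) {x : Matrix n n ℂ} (hx : x ∈ EC P) :
    (g : Matrix n n ℂ) * x = x * (g : Matrix n n ℂ) := by
  unfold EC at hx
  induction hx using Submodule.span_induction with
  | mem x hx =>
    obtain ⟨A, hA, rfl⟩ := hx
    have h1 := hg 1 1 (t11 A) (H.hodge_t11 hA)
    rw [tC_t11, slot11] at h1
    have h2 := t11_inj h1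
    have h3 : ((g⁻¹ : GL n ℂ) : Matrix n n ℂ) * (g : Matrix n n ℂ) = 1 := by
      rw [← Units.val_mul, inv_mul_cancel, Units.val_one]
    calc (g : Matrix n n ℂ) * toC A
        = (g : Matrix n n ℂ) * toC A * ((g⁻¹ : GL n ℂ) : Matrix n n ℂ) * (g : Matrix n n ℂ) := by
          rw [mul_assoc _ ((g⁻¹ : GL n ℂ) : Matrix n n ℂ), h3, mul_one]
      _ = toC A * (g : Matrix n n ℂ) := by rw [h2]
  | zero => rw [zero_mul, mul_zero]
  | add x z _ _ h1 h2 => rw [add_mul, mul_add, h1, h2]
  | smul c x _ h1 => rw [smul_mul_assoc, mul_smul_comm, h1]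

/-- commuting with a matrix with different eigenvalues on the pieces -/
theorem comm_P {c : ℤ → ℂ} (hc : Function.Injective c) {A : Matrix n n ℂ}
    (h3 : A * (∑ p ∈ S, c p • P p) = (∑ p ∈ S, c p • P p) * A) (p : ℤ) : A * P p = P p * A := by
  have hoff : ∀ p q, p ≠ q → P p * A * P q = 0 := by
    intro p q hpq
    have e1 : P p * (A * ∑ p ∈ S, c p • P p) * P q = c q • (P p * A * P q) := by
      rw [← mul_assoc, mul_assoc (P p * A), H.sum_mul_P, mul_smul_comm]
    have e2 : P p * ((∑ p ∈ S, c p • P p) * A) * P q = c p • (P p * A * P q) := by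
      rw [← mul_assoc, H.P_mul_sum, smul_mul_assoc, smul_mul_assoc]
    rw [h3, e2] at e1
    have e3 : (c p - c q) • (P p * A * P q) = 0 := by
      rw [sub_smul, e1, sub_self]
    rcases smul_eq_zero.1 e3 with e4 | e4
    · exact absurd (hc (sub_eq_zero.1 e4)) hpq
    · exact e4
  have l1 : A * P p = P p * A * P p := by
    have e1 : A * P p = (∑ q ∈ S, P q) * (A * P p) := by rw [H.sum, one_mul]
    rw [e1, Finset.sum_mul]
    by_cases hp : p ∈ S
    · rw [Finset.sum_eq_single p]
      · rw [mul_assoc]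
      · intro q _ hq
        rw [← mul_assoc, hoff q p hq]
      · intro h
        exact absurd hp h
    · rw [H.supp p hp]
      simp
  have l2 : P p * A = P p * A * P p := by
    have e1 : P p * A = P p * A * ∑ q ∈ S, P q := by rw [H.sum, mul_one]
    conv_lhs => rw [e1]
    rw [Finset.mul_sum]
    by_cases hp : p ∈ S
    · rw [Finset.sum_eq_single p]
      · intro q _ hq
        rw [hoff p q (Ne.symm hq)]
      · intro h
        exact absurd hp h
    · rw [H.supp p hp]
      simp
  exact l1.trans l2.symm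

omit H in
theorem coef_inj (w : ℤ) : Function.Injective fun p : ℤ => ((2 * p - w : ℤ) : ℂ) := by
  intro p q h
  have h0 : ((2 * p - w : ℤ) : ℂ) = ((2 * q - w : ℤ) : ℂ) := h
  have h1 : (2 * p - w : ℤ) = 2 * q - w := by exact_mod_cast h0
  omega

theorem comm_hw {A : Matrix n n ℂ} (h : A * hw w S P = hw w S P * A) (p : ℤ) : A * P p = P p * A :=
  H.comm_P (coef_inj w) h p

omit H in
theorem EC_hw {x : Matrix n n ℂ} (hx : x ∈ EC P) : x * hw w S P = hw w S P * x := by
  unfold hw
  rw [Finset.sum_mul, Finset.mul_sum]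
  refine Finset.sum_congr rfl fun p _ => ?_
  rw [smul_mul_assoc, mul_smul_comm, EC_P hx]

omit H in
theorem map_symm_map (σ : ℂ ≃+* ℂ) (x : Matrix n n ℂ) : (x.map σ.symm).map (σ : ℂ →+* ℂ) = x := by
  ext i j
  simp

omit H in
theorem EC_hwσ {x : Matrix n n ℂ} (hx : x ∈ EC P) (σ : ℂ ≃+* ℂ) :
    x * (hw w S P).map σ = (hw w S P).map σ * x := by
  have h1 := EC_hw (w := w) (S := S) (EC_aut σ.symm hx)
  have h2 := congrArg (fun Y : Matrix n n ℂ => Y.map (σ : ℂ →+* ℂ)) h1
  rw [Matrix.map_mul, Matrix.map_mul, map_symm_map] at h2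
  exact h2

end IsHW

/-! ### Galois descent for vectors -/

/-- a space of complex vectors stable under the automorphisms of the complex numbers is spanned by its rational
vectors. -/
theorem desc_vec {ι : Type*} [Fintype ι] (W : Submodule ℂ (ι → ℂ))
    (hW : ∀ σ : ℂ ≃+* ℂ, ∀ t ∈ W, (fun i => σ (t i)) ∈ W) : ∀ (k : ℕ) (t : ι → ℂ), t ∈ W →
      (Finset.univ.filter (fun i => t i ≠ 0)).card = k →
      t ∈ Submodule.span ℂ {x | ∃ s : ι → ℚ, x = tC s ∧ x ∈ W} := by
  classical
  intro k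
  induction k using Nat.strong_induction_on with
  | _ k ih =>
    intro t ht hk
    by_cases ht0 : t = 0
    · rw [ht0]
      exact Submodule.zero_mem _
    have hex : ∃ k' : ℕ, ∃ u ∈ W, u ≠ 0 ∧ (∀ i, t i = 0 → u i = 0) ∧
        (Finset.univ.filter (fun i => u i ≠ 0)).card = k' := ⟨_, t, ht, ht0, fun i h => h, rfl⟩
    obtain ⟨u, hu, hu0, hut, huk⟩ := Nat.find_spec hex
    have hmin : ∀ w ∈ W, (∀ i, t i = 0 → w i = 0) →
        (Finset.univ.filter (fun i => w i ≠ 0)).card < (Finset.univ.filter (fun i => u i ≠ 0)).card → w = 0 := by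
      intro w hw hwt hwk
      by_contra hw0
      rw [huk] at hwk
      exact Nat.find_min hex hwk ⟨w, hw, hw0, hwt, rfl⟩
    obtain ⟨i, hi⟩ : ∃ i, u i ≠ 0 := by
      by_contra h
      push Not at h
      exact hu0 (funext h)
    have hti : t i ≠ 0 := fun h => hi (hut i h)
    set u₁ : ι → ℂ := (u i)⁻¹ • u with hu₁
    have hu₁W : u₁ ∈ W := W.smul_mem _ hu
    have hu₁i : u₁ i = 1 := by
      rw [hu₁, Pi.smul_apply, smul_eq_mul, inv_mul_cancel₀ hi]
    have hu₁z : ∀ j, u j = 0 → u₁ j = 0 := by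
      intro j hj
      rw [hu₁, Pi.smul_apply, hj, smul_zero]
    have hfix : ∀ σ : ℂ ≃+* ℂ, u₁ - (fun j => σ (u₁ j)) = 0 := by
      intro σ
      apply hmin _ (W.sub_mem hu₁W (hW σ u₁ hu₁W))
      · intro j hj
        have h1 := hu₁z j (hut j hj)
        rw [Pi.sub_apply, h1, map_zero, sub_zero]
      · apply Finset.card_lt_card
        rw [Finset.ssubset_iff_of_subset]
        · refine ⟨i, ?_, ?_⟩
          · simpa using hi
          · simp [hu₁i]
        · intro j hj
          rw [Finset.mem_filter] at hj ⊢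
          refine ⟨Finset.mem_univ _, fun h => hj.2 ?_⟩
          rw [Pi.sub_apply, hu₁z j h, map_zero, sub_zero]
    have hrat : ∀ j, ∃ r : ℚ, (r : ℂ) = u₁ j := by
      intro j
      by_contra h
      push Not at h
      obtain ⟨σ, hσ⟩ := exists_aut_ne h
      apply hσ
      have h2 := congrFun (hfix σ) j
      rw [Pi.sub_apply, Pi.zero_apply, sub_eq_zero] at h2
      exact h2.symm
    choose s hs using hrat
    have hus : u₁ = tC s := by
      funext j
      rw [← hs j]
      simp [tC]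
    have h1 : u₁ ∈ Submodule.span ℂ {x | ∃ s : ι → ℚ, x = tC s ∧ x ∈ W} :=
      Submodule.subset_span ⟨s, hus, hu₁W⟩
    have h2 : t - t i • u₁ ∈ Submodule.span ℂ {x | ∃ s : ι → ℚ, x = tC s ∧ x ∈ W} := by
      refine ih (Finset.univ.filter (fun j => (t - t i • u₁) j ≠ 0)).card ?_ _
        (W.sub_mem ht (W.smul_mem _ hu₁W)) rfl
      rw [← hk]
      apply Finset.card_lt_card
      rw [Finset.ssubset_iff_of_subset]
      · refine ⟨i, ?_, ?_⟩
        · simpa using hti
        · simp [hu₁i]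
      · intro j hj
        rw [Finset.mem_filter] at hj ⊢
        refine ⟨Finset.mem_univ _, fun h => hj.2 ?_⟩
        rw [Pi.sub_apply, Pi.smul_apply, h, hu₁z j (hut j h), smul_zero, sub_zero]
    have h3 := Submodule.add_mem _ h2 (Submodule.smul_mem _ (t i) h1)
    rwa [sub_add_cancel] at h3

theorem dact_add_right {R κ : Type*} [CommRing R] [Fintype κ] [DecidableEq κ] (X : κ → Matrix n n R)
    (t u : (κ → n) → R) : dact X (t + u) = dact X t + dact X u := by
  unfold dact
  rw [← Finset.sum_add_distrib]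
  exact Finset.sum_congr rfl fun k _ => actF_add _ _ _

theorem dact_smul_right {R κ : Type*} [CommRing R] [Fintype κ] [DecidableEq κ] (X : κ → Matrix n n R)
    (c : R) (t : (κ → n) → R) : dact X (c • t) = c • dact X t := by
  unfold dact
  rw [Finset.smul_sum]
  exact Finset.sum_congr rfl fun k _ => actF_smul _ _ _

theorem dL_σ {a b : ℕ} (σ : ℂ ≃+* ℂ) (X : Matrix n n ℂ) (t : (Fin a ⊕ Fin b → n) → ℂ) :
    dL a b (fun i => σ (t i)) (X.map σ) = fun i => σ (dL a b t X i) := by
  rw [dL_apply, dL_apply]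
  funext i
  have h2 := dact_map (σ : ℂ →+* ℂ) (lslot a b X) t i
  have e2 : (fun k => (lslot a b X k).map (σ : ℂ →+* ℂ)) = lslot a b (X.map σ) := by
    funext k
    rcases k with k | k
    · rfl
    · simp only [lslot, Sum.elim_inr]
      ext x y
      simp
  rw [e2] at h2
  exact h2

namespace IsHW

variable (H : IsHW w Q S P)
include H

/-- a complex tensor killed by all the conjugates of `∑ p P p` is a combination of Hodge tensors -/
theorem span_of_kill {a b : ℕ} {t : (Fin a ⊕ Fin b → n) → ℂ}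
    (ht : ∀ σ : ℂ ≃+* ℂ, dL a b t ((∑ p ∈ S, (p : ℂ) • P p).map σ) = 0) :
    t ∈ Submodule.span ℂ {x | ∃ s : (Fin a ⊕ Fin b → n) → ℚ, x = tC s ∧ IsHodgeTensor S P a b s} := by
  classical
  set h₀ : Matrix n n ℂ := ∑ p ∈ S, (p : ℂ) • P p with hh₀
  let W : Submodule ℂ ((Fin a ⊕ Fin b → n) → ℂ) :=
    { carrier := {t | ∀ σ : ℂ ≃+* ℂ, dL a b t (h₀.map σ) = 0}
      add_mem' := by
        intro x y hx hy σ
        rw [dL_apply, dact_add_right, ← dL_apply, ← dL_apply, hx σ, hy σ, add_zero]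
      zero_mem' := by
        intro σ
        rw [dL_apply, dact_zero]
      smul_mem' := by
        intro c x hx σ
        rw [dL_apply, dact_smul_right, ← dL_apply, hx σ, smul_zero] }
  have hW : ∀ σ : ℂ ≃+* ℂ, ∀ x ∈ W, (fun i => σ (x i)) ∈ W := by
    intro σ x hx ρ
    have h1 := hx (ρ.trans σ.symm)
    have h2 := dL_σ σ (h₀.map (ρ.trans σ.symm)) x
    have h3 : (h₀.map (ρ.trans σ.symm)).map σ = h₀.map ρ := by
      ext i j
      simp
    rw [h3, h1] at h2
    rw [h2]
    funext i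
    simp
  have hspan := desc_vec W hW _ t ht rfl
  refine Submodule.span_mono ?_ hspan
  rintro _ ⟨s, rfl, hs⟩
  refine ⟨s, rfl, ?_⟩
  have h1 := hs (RingEquiv.refl ℂ)
  have h2 : h₀.map (RingEquiv.refl ℂ) = h₀ := by
    ext i j
    rfl
  rw [h2] at h1
  exact (H.idm.inv_iff a b (tC s)).2 h1

/-- a complex tensor killed by all the conjugates of `∑ p P p` is fixed by `MT` -/
theorem MT_of_kill {a b : ℕ} {t : (Fin a ⊕ Fin b → n) → ℂ}
    (ht : ∀ σ : ℂ ≃+* ℂ, dL a b t ((∑ p ∈ S, (p : ℂ) • P p).map σ) = 0) {g : GL n ℂ} (hg : g ∈ MT S P) :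
    actF (slot a b (g : Matrix n n ℂ) ((g⁻¹ : GL n ℂ) : Matrix n n ℂ)) t = t := by
  have h1 := H.span_of_kill ht
  clear ht
  induction h1 using Submodule.span_induction with
  | mem x hx =>
    obtain ⟨s, rfl, hs⟩ := hx
    exact hg a b s hs
  | zero => exact actF_zero _
  | add x y _ _ hx hy => rw [actF_add, hx, hy]
  | smul c x _ hx => rw [actF_smul, hx]

/-- a complex tensor killed by all the conjugates of `∑ p P p` is killed by `LH` -/
theorem LH_of_kill {a b : ℕ} {t : (Fin a ⊕ Fin b → n) → ℂ}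
    (ht : ∀ σ : ℂ ≃+* ℂ, dL a b t ((∑ p ∈ S, (p : ℂ) • P p).map σ) = 0) {X : Matrix n n ℂ} (hX : X ∈ LH Q S P) :
    dL a b t X = 0 := by
  have h1 := H.span_of_kill ht
  clear ht
  induction h1 using Submodule.span_induction with
  | mem x hx =>
    obtain ⟨s, rfl, hs⟩ := hx
    exact hX.2 a b s hs
  | zero => rw [dL_apply, dact_zero]
  | add x y _ _ hx hy => rw [dL_apply, dact_add_right, ← dL_apply, ← dL_apply, hx, hy, add_zero]
  | smul c x _ hx => rw [dL_apply, dact_smul_right, ← dL_apply, hx, smul_zero]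

/-- the conjugates of `hw` -/
theorem hwσ (σ : ℂ ≃+* ℂ) : (hw w S P).map σ =
    (2 : ℂ) • ((∑ p ∈ S, (p : ℂ) • P p).map σ) - (w : ℂ) • (1 : Matrix n n ℂ) := by
  rw [H.hw_eq]
  ext i j
  simp only [Matrix.map_apply, Matrix.sub_apply, Matrix.smul_apply, smul_eq_mul, map_sub, map_mul, map_intCast,
    map_ofNat, Matrix.one_apply]
  split_ifs <;> simp

/-- the same for balanced tensors killed by the conjugates of `hw` -/
theorem kill_p_of_hw {a : ℕ} {t : (Fin a ⊕ Fin a → n) → ℂ} (ht : ∀ σ : ℂ ≃+* ℂ, dL a a t ((hw w S P).map σ) = 0)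
    (σ : ℂ ≃+* ℂ) : dL a a t ((∑ p ∈ S, (p : ℂ) • P p).map σ) = 0 := by
  have h1 := ht σ
  rw [H.hwσ, map_sub, map_smul, map_smul, dL_one_self, smul_zero,
    sub_zero] at h1
  exact (smul_eq_zero.1 h1).resolve_left two_ne_zero

omit H in
theorem coefp_inj : Function.Injective fun p : ℤ => (p : ℂ) := fun p q h => by
  have h0 : (p : ℂ) = (q : ℂ) := h
  exact_mod_cast h0

/-- Galois descent: the commutant of the conjugates of `hw` -/
theorem descent {T : Matrix n n ℂ} (hT : ∀ σ : ℂ ≃+* ℂ, T * (hw w S P).map σ = (hw w S P).map σ * T) : T ∈ EC P := by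
  have h1 : ∀ σ : ℂ ≃+* ℂ, dL 1 1 (t11 T) ((hw w S P).map σ) = 0 := by
    intro σ
    rw [dL_t11, hT, sub_self]
    rfl
  have h2 := H.span_of_kill (H.kill_p_of_hw h1)
  have key : ∀ t ∈ Submodule.span ℂ {x | ∃ s : (Fin 1 ⊕ Fin 1 → n) → ℚ, x = tC s ∧ IsHodgeTensor S P 1 1 s},
      ∃ A ∈ EC P, t = t11 A := by
    intro t ht
    induction ht using Submodule.span_induction with
    | mem x hx =>
      obtain ⟨s, rfl, hs⟩ := hx
      obtain ⟨A, rfl⟩ := t11_surj s
      refine ⟨toC A, mem_EC fun p => ?_, rfl⟩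
      have h3 := H.kill_p hs
      rw [tC_t11, dL_t11] at h3
      have h4 : t11 ((∑ p ∈ S, (p : ℂ) • P p) * toC A - toC A * ∑ p ∈ S, (p : ℂ) • P p) =
        t11 (0 : Matrix n n ℂ) := h3
      exact H.comm_P coefp_inj (sub_eq_zero.1 (t11_inj h4)).symm p
    | zero => exact ⟨0, (EC P).zero_mem, rfl⟩
    | add x y _ _ hx hy =>
      obtain ⟨A, hA, rfl⟩ := hx
      obtain ⟨A', hA', rfl⟩ := hy
      exact ⟨A + A', (EC P).add_mem hA hA', rfl⟩
    | smul c x _ hx =>
      obtain ⟨A, hA, rfl⟩ := hx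
      exact ⟨c • A, (EC P).smul_mem c hA, rfl⟩
  obtain ⟨A, hA, h3⟩ := key _ h2
  rw [t11_inj h3]
  exact hA

/-- the commutant of `LH` -/
theorem EC_of_LH {T : Matrix n n ℂ} (hT : ∀ X ∈ LH Q S P, T * X = X * T) : T ∈ EC P :=
  H.descent fun σ => hT _ (LH_aut σ H.hw_mem)

section basis

variable {Qi : Matrix n n ℂ} (h3 : toC Q * Qi = 1) (h4 : Qi * toC Q = 1)
include h3 h4

/-- the adjoint for `Q` of an endomorphism -/
theorem EC_adj {x : Matrix n n ℂ} (hx : x ∈ EC P) : Qi * xᵀ * toC Q ∈ EC P := by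
  refine H.EC_of_LH fun X hX => ?_
  have e1 : Xᵀ * toC Q = -(toC Q * X) := eq_neg_of_add_eq_zero_left hX.1
  have e2 : Qi * Xᵀ = -(X * Qi) := by
    calc Qi * Xᵀ = Qi * (Xᵀ * toC Q) * Qi := by rw [mul_assoc, mul_assoc, h3, mul_one]
      _ = -((Qi * toC Q) * X * Qi) := by
        rw [e1]
        noncomm_ring
      _ = -(X * Qi) := by rw [h4, one_mul]
  have e3 : xᵀ * Xᵀ = Xᵀ * xᵀ := by
    rw [← Matrix.transpose_mul, ← Matrix.transpose_mul, H.LH_EC hX hx]
  have e4 : toC Q * X = -(Xᵀ * toC Q) := by rw [e1, neg_neg]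
  calc Qi * xᵀ * toC Q * X = Qi * xᵀ * (toC Q * X) := by rw [mul_assoc (Qi * xᵀ)]
    _ = -(Qi * (xᵀ * Xᵀ) * toC Q) := by
      rw [e4]
      noncomm_ring
    _ = -((Qi * Xᵀ) * xᵀ * toC Q) := by
      rw [e3]
      noncomm_ring
    _ = X * (Qi * xᵀ * toC Q) := by
      rw [e2]
      noncomm_ring

end basis

end IsHW

end MH
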