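import Pool.Agent.Helper14.GH.HW3

/-!
Project GH (MP_b8862a_ag): semi-invariants of type (1,1) for the conjugates of the Hodge cocharacter, for `LH` and
for the Mumford-Tate group.
-/

set_option linter.unusedSectionVars false

open Matrix

namespace MH

section slots22

variable {R n : Type*} [CommRing R] [Fintype n] [DecidableEq n]

/-- the tensor `A ⊗ B` of type (2, 2) -/
def t22 (A B : Matrix n n R) : (Fin 2 ⊕ Fin 2 → n) → R :=
  fun i => A (i (Sum.inl 0)) (i (Sum.inr 0)) * B (i (Sum.inl 1)) (i (Sum.inr 1))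

/-- quadruples as functions -/
def pr22 : (n × n) × (n × n) ≃ (Fin 2 ⊕ Fin 2 → n) where
  toFun p := Sum.elim ![p.1.1, p.2.1] ![p.1.2, p.2.2]
  invFun j := ((j (Sum.inl 0), j (Sum.inr 0)), (j (Sum.inl 1), j (Sum.inr 1)))
  left_inv p := rfl
  right_inv j := by
    funext k
    rcases k with k | k <;> fin_cases k <;> rfl

theorem actF_t22 (X : Fin 2 ⊕ Fin 2 → Matrix n n R) (A B : Matrix n n R) :
    actF X (t22 A B) = t22 (X (Sum.inl 0) * A * (X (Sum.inr 0))ᵀ) (X (Sum.inl 1) * B * (X (Sum.inr 1))ᵀ) := by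
  funext i
  unfold actF
  rw [← (pr22 (n := n)).sum_comp, Fintype.sum_prod_type, Fintype.sum_prod_type]
  simp_rw [Fintype.sum_prod_type]
  have e1 : ∀ x y u v : n, (∏ k, X k (i k) (pr22 ((x, y), (u, v)) k)) * t22 A B (pr22 ((x, y), (u, v))) =
      (X (Sum.inl 0) (i (Sum.inl 0)) x * A x y * X (Sum.inr 0) (i (Sum.inr 0)) y) *
        (X (Sum.inl 1) (i (Sum.inl 1)) u * B u v * X (Sum.inr 1) (i (Sum.inr 1)) v) := by
    intro x y u v
    rw [Fintype.prod_sum_type, Fin.prod_univ_two, Fin.prod_univ_two]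
    have h1 : (pr22 ((x, y), (u, v))) (Sum.inl 0) = x := rfl
    have h2 : (pr22 ((x, y), (u, v))) (Sum.inr 0) = y := rfl
    have h3 : (pr22 ((x, y), (u, v))) (Sum.inl 1) = u := rfl
    have h4 : (pr22 ((x, y), (u, v))) (Sum.inr 1) = v := rfl
    have h5 : t22 A B (pr22 ((x, y), (u, v))) = A x y * B u v := rfl
    rw [h1, h2, h3, h4, h5]
    ring
  simp only [e1]
  unfold t22
  have e2 : ∀ (C D M : Matrix n n R) (a b : n), (C * M * Dᵀ) a b = ∑ x, ∑ y, C a x * M x y * D b y := by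
    intro C D M a b
    rw [Matrix.mul_apply, Finset.sum_comm]
    refine Finset.sum_congr rfl fun y _ => ?_
    rw [Matrix.mul_apply, Finset.sum_mul]
    rfl
  rw [e2, e2, Finset.sum_mul_sum]
  refine Finset.sum_congr rfl fun x _ => ?_
  rw [Finset.sum_comm]
  refine Finset.sum_congr rfl fun u _ => ?_
  rw [Finset.sum_mul_sum]

theorem slot22 (g g' A B : Matrix n n R) : actF (slot 2 2 g g') (t22 A B) = t22 (g * A * g') (g * B * g') := by
  rw [actF_t22]
  simp only [slot, Sum.elim_inl, Sum.elim_inr, Matrix.transpose_transpose]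

omit [Fintype n] [DecidableEq n] in
theorem t22_add_left (A A' B : Matrix n n R) : t22 (A + A') B = t22 A B + t22 A' B := by
  funext i
  simp only [t22, Matrix.add_apply, Pi.add_apply, add_mul]

omit [Fintype n] [DecidableEq n] in
theorem t22_add_right (A B B' : Matrix n n R) : t22 A (B + B') = t22 A B + t22 A B' := by
  funext i
  simp only [t22, Matrix.add_apply, Pi.add_apply, mul_add]

theorem dL_t22 (A B X : Matrix n n R) :
    dL 2 2 (t22 A B) X = t22 (X * A - A * X) B + t22 A (X * B - B * X) := by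
  rw [dL_apply]
  unfold dact
  rw [Fintype.sum_sum_type, Fin.sum_univ_two, Fin.sum_univ_two]
  rw [actF_t22, actF_t22, actF_t22, actF_t22]
  have n1 : (Sum.inl 1 : Fin 2 ⊕ Fin 2) ≠ Sum.inl 0 := by simp
  have n2 : (Sum.inr 0 : Fin 2 ⊕ Fin 2) ≠ Sum.inl 0 := by simp
  have n3 : (Sum.inr 1 : Fin 2 ⊕ Fin 2) ≠ Sum.inl 0 := by simp
  have n4 : (Sum.inr 0 : Fin 2 ⊕ Fin 2) ≠ Sum.inl 1 := by simp
  have n5 : (Sum.inr 1 : Fin 2 ⊕ Fin 2) ≠ Sum.inl 1 := by simp
  have n6 : (Sum.inr 1 : Fin 2 ⊕ Fin 2) ≠ Sum.inr 0 := by simp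
  simp only [Function.update_self, Function.update_of_ne n1, Function.update_of_ne n1.symm, Function.update_of_ne n2,
    Function.update_of_ne n2.symm, Function.update_of_ne n3, Function.update_of_ne n3.symm, Function.update_of_ne n4,
    Function.update_of_ne n4.symm, Function.update_of_ne n5, Function.update_of_ne n5.symm, Function.update_of_ne n6,
    Function.update_of_ne n6.symm, lslot, Sum.elim_inl, Sum.elim_inr, Matrix.transpose_neg,
    Matrix.transpose_transpose, Matrix.transpose_one, mul_one, one_mul, mul_neg]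
  rw [sub_eq_add_neg, sub_eq_add_neg, t22_add_left, t22_add_right]
  abel

omit [Fintype n] [DecidableEq n] in
/-- a common scalar from an identity of decomposable tensors -/
theorem t22_cancel {F : Type*} [Field F] {A A' B B' : Matrix n n F} (h : t22 A B = t22 A' B') (hB : B ≠ 0) :
    ∃ c : F, A = c • A' := by
  obtain ⟨k, l, hkl⟩ : ∃ k l, B k l ≠ 0 := by
    by_contra hcon
    push Not at hcon
    exact hB (by ext i j; exact hcon i j)
  refine ⟨B' k l / B k l, ?_⟩
  ext i j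
  have h1 := congrFun h (Sum.elim ![i, k] ![j, l])
  have h2 : A i j * B k l = A' i j * B' k l := h1
  rw [Matrix.smul_apply, smul_eq_mul]
  field_simp
  linear_combination h2

end slots22

variable {n : Type*} [Fintype n] [DecidableEq n]
variable {w : ℤ} {Q : Matrix n n ℚ} {S : Finset ℤ} {P : ℤ → Matrix n n ℂ}

/-- `T` spans a line stable under the Mumford-Tate group -/
def SI (S : Finset ℤ) (P : ℤ → Matrix n n ℂ) (T : Matrix n n ℂ) : Prop :=
  ∀ g ∈ MT S P, ∃ c : ℂ, (g : Matrix n n ℂ) * T = c • (T * (g : Matrix n n ℂ))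

/-- `T` spans a line stable under all the conjugates of `hw` -/
def SIh (w : ℤ) (S : Finset ℤ) (P : ℤ → Matrix n n ℂ) (T : Matrix n n ℂ) : Prop :=
  ∀ σ : ℂ ≃+* ℂ, ∃ c : ℂ, (hw w S P).map σ * T - T * (hw w S P).map σ = c • T

namespace IsHW

variable (H : IsHW w Q S P)
include H

omit H in
/-- the complex conjugation as an automorphism -/
theorem exists_cc : ∃ κ : ℂ ≃+* ℂ, ∀ z, κ z = starRingEnd ℂ z :=
  ⟨starRingAut (R := ℂ), fun z => rfl⟩

/-- a semi-invariant for the conjugates of `hw` is one for the complex conjugates of the conjugates -/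
theorem SIh_conj {T : Matrix n n ℂ} (hT : SIh w S P T) (σ : ℂ ≃+* ℂ) :
    ∃ c : ℂ, ((hw w S P).map σ).map (starRingEnd ℂ) * T - T * ((hw w S P).map σ).map (starRingEnd ℂ) = c • T := by
  obtain ⟨κ, hκ⟩ := exists_cc
  obtain ⟨c, hc⟩ := hT (σ.trans κ)
  refine ⟨c, ?_⟩
  have e1 : (hw w S P).map (σ.trans κ) = ((hw w S P).map σ).map (starRingEnd ℂ) := by
    ext i j
    simp [hκ]
  rwa [e1] at hc

/-- a semi-invariant for `hw` is one for the Weil operator -/
theorem C0_semi {T : Matrix n n ℂ} {c : ℂ} (hT : hw w S P * T - T * hw w S P = c • T) :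
    ∃ d : ℂ, C0 S P * T * C0 S P = d • T := by
  by_cases hT0 : T = 0
  · exact ⟨0, by rw [hT0]; simp⟩
  -- a nonzero piece
  have hsum : T = ∑ p ∈ S, ∑ q ∈ S, P p * T * P q := by
    have h1 : T = (∑ p ∈ S, P p) * T * ∑ q ∈ S, P q := by rw [H.sum, one_mul, mul_one]
    conv_lhs => rw [h1]
    rw [Finset.sum_mul, Finset.sum_mul]
    exact Finset.sum_congr rfl fun p _ => by rw [Finset.mul_sum]
  have key : ∀ p q, P p * T * P q ≠ 0 → ((2 * (p - q) : ℤ) : ℂ) = c := by
    intro p q hpq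
    have e1 : P p * (hw w S P * T - T * hw w S P) * P q = ((2 * (p - q) : ℤ) : ℂ) • (P p * T * P q) := by
      rw [mul_sub, sub_mul, ← mul_assoc, ← mul_assoc]
      have a1 : P p * hw w S P = ((2 * p - w : ℤ) : ℂ) • P p := H.P_mul_sum (fun p => ((2 * p - w : ℤ) : ℂ)) p
      have a2 : hw w S P * P q = ((2 * q - w : ℤ) : ℂ) • P q := H.sum_mul_P (fun p => ((2 * p - w : ℤ) : ℂ)) q
      rw [a1, mul_assoc (P p * T), a2, smul_mul_assoc, smul_mul_assoc, mul_smul_comm, ← sub_smul]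
      congr 1
      push_cast
      ring
    rw [hT, mul_smul_comm, smul_mul_assoc] at e1
    have e2 : (((2 * (p - q) : ℤ) : ℂ) - c) • (P p * T * P q) = 0 := by rw [sub_smul, e1, sub_self]
    exact sub_eq_zero.1 ((smul_eq_zero.1 e2).resolve_right hpq)
  have hex : ∃ p q, P p * T * P q ≠ 0 := by
    by_contra hcon
    push Not at hcon
    apply hT0
    rw [hsum]
    exact Finset.sum_eq_zero fun p _ => Finset.sum_eq_zero fun q _ => hcon p q
  obtain ⟨p0, q0, h0⟩ := hex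
  refine ⟨(-1) ^ (p0 - q0), ?_⟩
  have e3 : C0 S P * T * C0 S P = ∑ p ∈ S, ∑ q ∈ S, ((-1 : ℂ) ^ p * (-1) ^ q) • (P p * T * P q) := by
    unfold C0
    rw [Finset.sum_mul, Finset.sum_mul]
    refine Finset.sum_congr rfl fun p _ => ?_
    rw [Finset.mul_sum]
    refine Finset.sum_congr rfl fun q _ => ?_
    rw [smul_mul_assoc, smul_mul_smul_comm]
  rw [e3]
  conv_rhs => rw [hsum, Finset.smul_sum]
  refine Finset.sum_congr rfl fun p _ => ?_
  rw [Finset.smul_sum]
  refine Finset.sum_congr rfl fun q _ => ?_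
  by_cases hpq : P p * T * P q = 0
  · rw [hpq, smul_zero, smul_zero]
  · congr 1
    have e4 : ((2 * (p - q) : ℤ) : ℂ) = ((2 * (p0 - q0) : ℤ) : ℂ) := by rw [key p q hpq, key p0 q0 h0]
    have e5 : 2 * (p - q) = 2 * (p0 - q0) := by exact_mod_cast e4
    have e6 : p0 - q0 = p - q := by omega
    rw [e6, sub_eq_add_neg, zpow_add₀ (by norm_num), sgn_neg]

section basis

variable {B Bi : Matrix n n ℂ} (h1 : B * Bi = 1) (h2 : Bi * B = 1) (hM : Mw w Q S P = Bᴴ * B)
include h1 h2 hM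

omit H in
/-- the adjoint for the Hodge-Riemann form is an anti-automorphism -/
theorem st_mul (x y : Matrix n n ℂ) : (Bi * Biᴴ) * (x * y)ᴴ * Mw w Q S P =
    ((Bi * Biᴴ) * yᴴ * Mw w Q S P) * ((Bi * Biᴴ) * xᴴ * Mw w Q S P) := by
  have e1 := mul_Mi h1 h2 hM
  rw [Matrix.conjTranspose_mul]
  calc (Bi * Biᴴ) * (yᴴ * xᴴ) * Mw w Q S P = (Bi * Biᴴ) * yᴴ * 1 * xᴴ * Mw w Q S P := by
        simp only [mul_assoc, one_mul]
    _ = _ := by
        rw [← e1]
        simp only [mul_assoc]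

/-- the adjoint of an element of `LH` -/
theorem st_LH {x : Matrix n n ℂ} (hx : x ∈ LH Q S P) : (Bi * Biᴴ) * xᴴ * Mw w Q S P =
    -(C0 S P * x.map (starRingEnd ℂ) * C0 S P) := by
  have hXc : x.map (starRingEnd ℂ) ∈ LH Q S P := LH_conj hx
  have hXt : xᴴ = (x.map (starRingEnd ℂ))ᵀ := rfl
  rw [hXt]
  generalize x.map (starRingEnd ℂ) = Y at hXc
  have e3 : Yᵀ * toC Q = -(toC Q * Y) := eq_neg_of_add_eq_zero_left hXc.1
  unfold Mw
  rw [mul_smul_comm]
  calc Complex.I ^ w • (Bi * Biᴴ * Yᵀ * (toC Q * C0 S P))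
      = Complex.I ^ w • ((Bi * Biᴴ) * (Yᵀ * toC Q) * C0 S P) := by simp only [mul_assoc]
    _ = Complex.I ^ w • -(((Bi * Biᴴ) * toC Q) * Y * C0 S P) := by
        rw [e3, mul_neg, neg_mul]
        simp only [mul_assoc]
    _ = _ := by
        rw [H.Mi_Q h1 h2 hM, smul_mul_assoc, smul_mul_assoc, ← smul_neg, smul_smul, mul_inv_cancel₀ (I_zpow_ne w),
          one_smul]

open scoped ComplexOrder in
omit H in
/-- positivity of the trace form -/
theorem st_pos {T : Matrix n n ℂ} (hT : T ≠ 0) : (T * ((Bi * Biᴴ) * Tᴴ * Mw w Q S P)).trace ≠ 0 := by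
  set X := cj B Bi T with hX
  have e1 : (T * ((Bi * Biᴴ) * Tᴴ * Mw w Q S P)).trace = (X * Xᴴ).trace := by
    rw [hM, hX]
    unfold cj
    rw [Matrix.conjTranspose_mul, Matrix.conjTranspose_mul]
    calc (T * (Bi * Biᴴ * Tᴴ * (Bᴴ * B))).trace = ((T * Bi * Biᴴ * Tᴴ * Bᴴ) * B).trace := by
          simp only [mul_assoc]
      _ = (B * (T * Bi * Biᴴ * Tᴴ * Bᴴ)).trace := Matrix.trace_mul_comm _ _
      _ = _ := by simp only [mul_assoc]
  rw [e1]
  intro h0
  have h3 := Matrix.trace_mul_conjTranspose_self_eq_zero_iff.1 h0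
  apply hT
  have h4 : T = cj Bi B X := by rw [hX, cj_cj h2]
  rw [h4, h3, cj_zero]

/-- the adjoint of a semi-invariant is a semi-invariant with the opposite character -/
theorem SIh_adj {T : Matrix n n ℂ} (hT : SIh w S P T) (σ : ℂ ≃+* ℂ) {c : ℂ}
    (hc : (hw w S P).map σ * T - T * (hw w S P).map σ = c • T) :
    (hw w S P).map σ * ((Bi * Biᴴ) * Tᴴ * Mw w Q S P) - ((Bi * Biᴴ) * Tᴴ * Mw w Q S P) * (hw w S P).map σ =
      -(c • ((Bi * Biᴴ) * Tᴴ * Mw w Q S P)) := by
  by_cases hT0 : T = 0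
  · rw [hT0]
    simp
  set x := (hw w S P).map σ with hx
  have hxL : x ∈ LH Q S P := LH_aut σ H.hw_mem
  set xs := (Bi * Biᴴ) * xᴴ * Mw w Q S P with hxs
  set Ts := (Bi * Biᴴ) * Tᴴ * Mw w Q S P with hTs
  have e0 : xs = -(C0 S P * x.map (starRingEnd ℂ) * C0 S P) := H.st_LH h1 h2 hM hxL
  obtain ⟨c1, hc1⟩ := H.SIh_conj hT σ
  have hid : ∃ c : ℂ, hw w S P * T - T * hw w S P = c • T := by
    obtain ⟨c, hc⟩ := hT (RingEquiv.refl ℂ)
    have e : (hw w S P).map (RingEquiv.refl ℂ) = hw w S P := by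
      ext i j
      rfl
    rw [e] at hc
    exact ⟨c, hc⟩
  obtain ⟨c2, hc2⟩ := hid
  obtain ⟨d, hd⟩ := H.C0_semi hc2
  have hCC := H.C0_mul
  -- `T` is a semi-invariant for `xs`
  have hCT : C0 S P * T = d • (T * C0 S P) := by
    calc C0 S P * T = C0 S P * T * (C0 S P * C0 S P) := by rw [hCC, mul_one]
      _ = (C0 S P * T * C0 S P) * C0 S P := by simp only [mul_assoc]
      _ = _ := by rw [hd, smul_mul_assoc]
  have hTC : T * C0 S P = d • (C0 S P * T) := by
    calc T * C0 S P = (C0 S P * C0 S P) * T * C0 S P := by rw [hCC, one_mul]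
      _ = C0 S P * (C0 S P * T * C0 S P) := by simp only [mul_assoc]
      _ = _ := by rw [hd, mul_smul_comm]
  have hdd : d * d = 1 := by
    have e1 : (d * d) • T = T := by
      have e2 : C0 S P * (C0 S P * T * C0 S P) * C0 S P = (C0 S P * C0 S P) * T * (C0 S P * C0 S P) := by
        simp only [mul_assoc]
      rw [hCC, one_mul, mul_one, hd, mul_smul_comm, smul_mul_assoc, hd, smul_smul] at e2
      exact e2
    have e3 : (d * d - 1) • T = 0 := by rw [sub_smul, e1, one_smul, sub_self]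
    exact sub_eq_zero.1 ((smul_eq_zero.1 e3).resolve_right hT0)
  set xb := x.map (starRingEnd ℂ) with hxb
  have hs1 : xs * T - T * xs = (-c1) • T := by
    have e1 : C0 S P * xb * C0 S P * T = d • (C0 S P * (xb * T) * C0 S P) := by
      rw [mul_assoc _ (C0 S P) T, hCT, mul_smul_comm]
      simp only [mul_assoc]
    have e2 : T * (C0 S P * xb * C0 S P) = d • (C0 S P * (T * xb) * C0 S P) := by
      rw [← mul_assoc, ← mul_assoc, hTC, smul_mul_assoc, smul_mul_assoc]
      simp only [mul_assoc]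
    rw [e0, neg_mul, mul_neg, sub_neg_eq_add, neg_add_eq_sub, e1, e2, ← smul_sub]
    have e3 : C0 S P * (T * xb) * C0 S P - C0 S P * (xb * T) * C0 S P = -(C0 S P * (xb * T - T * xb) * C0 S P) := by
      noncomm_ring
    rw [e3, hc1, mul_smul_comm, smul_mul_assoc, hd, smul_smul, smul_neg, smul_smul, neg_smul]
    congr 2
    linear_combination c1 * hdd
  -- the bracket with the adjoint
  have hs2 : x * Ts - Ts * x = (starRingEnd ℂ) c1 • Ts := by
    have a1 : (Bi * Biᴴ) * xsᴴ * Mw w Q S P = x := by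
      have b1 : xsᴴ = Mw w Q S P * x * (Bi * Biᴴ) := by
        rw [hxs, Matrix.conjTranspose_mul, Matrix.conjTranspose_mul, Matrix.conjTranspose_conjTranspose, H.M_herm,
          Matrix.conjTranspose_mul, Matrix.conjTranspose_conjTranspose]
        simp only [mul_assoc]
      rw [b1]
      calc Bi * Biᴴ * (Mw w Q S P * x * (Bi * Biᴴ)) * Mw w Q S P
          = ((Bi * Biᴴ) * Mw w Q S P) * x * ((Bi * Biᴴ) * Mw w Q S P) := by simp only [mul_assoc]
        _ = x := by rw [Mi_mul h1 h2 hM, one_mul, mul_one]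
    have a2 := congrArg (fun Y : Matrix n n ℂ => (Bi * Biᴴ) * Yᴴ * Mw w Q S P) hs1
    simp only [Matrix.conjTranspose_sub, Matrix.conjTranspose_smul, mul_sub, sub_mul, mul_smul_comm,
      smul_mul_assoc] at a2
    rw [st_mul h1 h2 hM xs T, st_mul h1 h2 hM T xs, a1, ← hTs] at a2
    have a3 : x * Ts - Ts * x = -(Ts * x - x * Ts) := by abel
    rw [a3, a2, ← neg_smul]
    congr 1
    simp
  -- the trace
  have hs3 : c = -(starRingEnd ℂ) c1 := by
    have b1 : ((x * T - T * x) * Ts).trace = c * (T * Ts).trace := by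
      rw [hc, smul_mul_assoc, Matrix.trace_smul, smul_eq_mul]
    have b2 : ((x * T - T * x) * Ts).trace = -(T * (x * Ts - Ts * x)).trace := by
      rw [sub_mul, mul_sub, Matrix.trace_sub, Matrix.trace_sub, mul_assoc x, Matrix.trace_mul_comm x (T * Ts),
        mul_assoc T x Ts, mul_assoc T Ts x]
      ring
    rw [b2, hs2, mul_smul_comm, Matrix.trace_smul, smul_eq_mul] at b1
    have b3 := st_pos h1 h2 hM hT0
    rw [← hTs] at b3
    have b4 : (c + (starRingEnd ℂ) c1) * (T * Ts).trace = 0 := by linear_combination -b1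
    have b5 := (mul_eq_zero.1 b4).resolve_right b3
    linear_combination b5
  rw [hs2, hs3, neg_smul, neg_neg]

/-- the tensor `T ⊗ T*` is killed by all the conjugates -/
theorem SIh_kill {T : Matrix n n ℂ} (hT : SIh w S P T) (σ : ℂ ≃+* ℂ) :
    dL 2 2 (t22 T ((Bi * Biᴴ) * Tᴴ * Mw w Q S P)) ((hw w S P).map σ) = 0 := by
  obtain ⟨c, hc⟩ := hT σ
  rw [dL_t22, hc, H.SIh_adj h1 h2 hM hT σ hc]
  funext i
  simp only [t22, Pi.add_apply, Pi.zero_apply, Matrix.smul_apply, Matrix.neg_apply, smul_eq_mul]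
  ring

end basis

/-- a semi-invariant for the conjugates of `hw` is one for `LH` -/
theorem SIh_LH {T : Matrix n n ℂ} (hT : SIh w S P T) {X : Matrix n n ℂ} (hX : X ∈ LH Q S P) :
    ∃ c : ℂ, X * T - T * X = c • T := by
  by_cases hT0 : T = 0
  · exact ⟨0, by rw [hT0]; simp⟩
  obtain ⟨B, Bi, Qi, h1, h2, h3, h4, hM⟩ := H.exists_basis
  have hk := H.LH_of_kill (H.kill_p_of_hw (H.SIh_kill h1 h2 hM hT)) hX
  rw [dL_t22] at hk
  set Ts := (Bi * Biᴴ) * Tᴴ * Mw w Q S P with hTs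
  have hTs0 : Ts ≠ 0 := by
    intro h0
    apply st_pos h1 h2 hM hT0
    rw [← hTs, h0, mul_zero, Matrix.trace_zero]
  have e1 : t22 (X * T - T * X) Ts = t22 T (-(X * Ts - Ts * X)) := by
    funext i
    have h5 := congrFun hk i
    simp only [t22, Pi.add_apply, Pi.zero_apply, Matrix.neg_apply] at h5 ⊢
    linear_combination h5
  exact t22_cancel e1 hTs0

/-- a semi-invariant for the conjugates of `hw` is one for `MT` -/
theorem SIh_MT {T : Matrix n n ℂ} (hT : SIh w S P T) : SI S P T := by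
  intro g hg
  by_cases hT0 : T = 0
  · exact ⟨0, by rw [hT0]; simp⟩
  obtain ⟨B, Bi, Qi, h1, h2, h3, h4, hM⟩ := H.exists_basis
  have hk := H.MT_of_kill (H.kill_p_of_hw (H.SIh_kill h1 h2 hM hT)) hg
  rw [slot22] at hk
  set Ts := (Bi * Biᴴ) * Tᴴ * Mw w Q S P with hTs
  have hTs0 : Ts ≠ 0 := by
    intro h0
    apply st_pos h1 h2 hM hT0
    rw [← hTs, h0, mul_zero, Matrix.trace_zero]
  have hg1 : ((g⁻¹ : GL n ℂ) : Matrix n n ℂ) * (g : Matrix n n ℂ) = 1 := by
    rw [← Units.val_mul, inv_mul_cancel, Units.val_one]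
  have hg2 : (g : Matrix n n ℂ) * ((g⁻¹ : GL n ℂ) : Matrix n n ℂ) = 1 := by
    rw [← Units.val_mul, mul_inv_cancel, Units.val_one]
  have hgT : (g : Matrix n n ℂ) * Ts * ((g⁻¹ : GL n ℂ) : Matrix n n ℂ) ≠ 0 := by
    intro h0
    apply hTs0
    calc Ts = (((g⁻¹ : GL n ℂ) : Matrix n n ℂ) * (g : Matrix n n ℂ)) * Ts *
          (((g⁻¹ : GL n ℂ) : Matrix n n ℂ) * (g : Matrix n n ℂ)) := by rw [hg1, one_mul, mul_one]
      _ = ((g⁻¹ : GL n ℂ) : Matrix n n ℂ) * ((g : Matrix n n ℂ) * Ts * ((g⁻¹ : GL n ℂ) : Matrix n n ℂ)) *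
          (g : Matrix n n ℂ) := by simp only [mul_assoc]
      _ = 0 := by rw [h0]; simp
  obtain ⟨c, hc⟩ := t22_cancel hk hgT
  refine ⟨c, ?_⟩
  calc (g : Matrix n n ℂ) * T = (g : Matrix n n ℂ) * T *
        (((g⁻¹ : GL n ℂ) : Matrix n n ℂ) * (g : Matrix n n ℂ)) := by rw [hg1, mul_one]
    _ = ((g : Matrix n n ℂ) * T * ((g⁻¹ : GL n ℂ) : Matrix n n ℂ)) * (g : Matrix n n ℂ) := by
        simp only [mul_assoc]
    _ = _ := by rw [hc, smul_mul_assoc]

/-- semi-invariants for `LH` are semi-invariants for the conjugates of `hw` -/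
theorem SIh_of_LH {T : Matrix n n ℂ} (hT : ∀ X ∈ LH Q S P, ∃ c : ℂ, X * T - T * X = c • T) : SIh w S P T :=
  fun σ => hT _ (LH_aut σ H.hw_mem)

end IsHW

end MH
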