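import Pool.Agent.Helper14.GH.HW4

/-!
Project GH (MP_b8862a_ag): the Mumford-Tate group is stable under the automorphisms of the complex numbers and
contains the conjugates of the Hodge cocharacter; the three notions of semi-invariants agree.
-/

set_option linter.unusedSectionVars false

open Matrix

namespace MH

variable {n : Type*} [Fintype n] [DecidableEq n]
variable {w : ℤ} {Q : Matrix n n ℚ} {S : Finset ℤ} {P : ℤ → Matrix n n ℂ}

/-- the group is defined over the rational numbers -/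
theorem MT_aut {g g' : GL n ℂ} (σ : ℂ ≃+* ℂ) (h : (g' : Matrix n n ℂ) = (g : Matrix n n ℂ).map σ)
    (hg : g ∈ MT S P) : g' ∈ MT S P := by
  intro a b t ht
  have h1 := hg a b t ht
  have hinv : ((g'⁻¹ : GL n ℂ) : Matrix n n ℂ) = ((g⁻¹ : GL n ℂ) : Matrix n n ℂ).map σ := by
    have e1 : (g' : Matrix n n ℂ) * (((g⁻¹ : GL n ℂ) : Matrix n n ℂ).map σ) = 1 := by
      rw [h]
      have e2 := Matrix.map_mul (f := (σ : ℂ →+* ℂ)) (L := (g : Matrix n n ℂ)) (M := ((g⁻¹ : GL n ℂ) : Matrix n n ℂ))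
      rw [← Units.val_mul, mul_inv_cancel, Units.val_one, Matrix.map_one _ (map_zero _) (map_one _)] at e2
      exact e2.symm
    calc ((g'⁻¹ : GL n ℂ) : Matrix n n ℂ)
        = ((g'⁻¹ : GL n ℂ) : Matrix n n ℂ) * ((g' : Matrix n n ℂ) * (((g⁻¹ : GL n ℂ) : Matrix n n ℂ).map σ)) := by
          rw [e1, mul_one]
      _ = _ := by rw [← mul_assoc, ← Units.val_mul, inv_mul_cancel, Units.val_one, one_mul]
  have e3 : slot a b (g' : Matrix n n ℂ) ((g'⁻¹ : GL n ℂ) : Matrix n n ℂ) =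
      fun k => (slot a b (g : Matrix n n ℂ) ((g⁻¹ : GL n ℂ) : Matrix n n ℂ) k).map (σ : ℂ →+* ℂ) := by
    funext k
    rcases k with k | k
    · exact h
    · simp only [slot, Sum.elim_inr]
      rw [hinv]
      rfl
  have e4 : tC t = fun i => (σ : ℂ →+* ℂ) (tC t i) := by
    funext i
    simp [tC]
  rw [e3]
  funext i
  have e5 := actF_map (σ : ℂ →+* ℂ) (slot a b (g : Matrix n n ℂ) ((g⁻¹ : GL n ℂ) : Matrix n n ℂ)) (tC t) i
  rw [← e4, h1] at e5
  exact e5.trans (congrFun e4 i).symm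

namespace IsHW

variable (H : IsHW w Q S P)
include H

theorem cochar_mul (z : ℂ) (hz : z ≠ 0) : cochar S P z * cochar S P z⁻¹ = 1 := by
  unfold cochar
  rw [H.sum_mul_sum (fun p => z ^ p) (fun p => z⁻¹ ^ p), ← H.sum]
  refine Finset.sum_congr rfl fun p _ => ?_
  rw [← mul_zpow, mul_inv_cancel₀ hz, _root_.one_zpow, one_smul]

/-- the elements of the Hodge torus -/
noncomputable def coch (z : ℂ) (hz : z ≠ 0) : GL n ℂ :=
  ⟨cochar S P z, cochar S P z⁻¹, H.cochar_mul z hz, by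
    have h1 := H.cochar_mul z⁻¹ (inv_ne_zero hz)
    rwa [inv_inv] at h1⟩

theorem coch_mem (z : ℂ) (hz : z ≠ 0) : H.coch z hz ∈ MT S P := by
  intro a b t ht
  exact ht z hz

/-- semi-invariants of the Mumford-Tate group are semi-invariants for the conjugates of `hw` -/
theorem SIh_of_SI {T : Matrix n n ℂ} (hT : SI S P T) : SIh w S P T := by
  intro σ
  -- transport by the inverse of `σ`
  set T' := T.map σ.symm with hT'
  have hTT' : T = T'.map σ := by
    ext i j
    simp [hT']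
  have h20 : (2 : ℂ) ≠ 0 := two_ne_zero
  have hc : ∃ c : ℂ, cochar S P 2 * T' = c • (T' * cochar S P 2) := by
    have h1 : ∃ g' : GL n ℂ, (g' : Matrix n n ℂ) = (cochar S P 2).map σ ∧ g' ∈ MT S P := by
      have e1 : ((cochar S P 2).map σ) * ((cochar S P 2⁻¹).map σ) = 1 := by
        have e2 := Matrix.map_mul (f := (σ : ℂ →+* ℂ)) (L := cochar S P 2) (M := cochar S P 2⁻¹)
        rw [H.cochar_mul 2 h20, Matrix.map_one _ (map_zero _) (map_one _)] at e2
        exact e2.symm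
      have e3 : ((cochar S P 2⁻¹).map σ) * ((cochar S P 2).map σ) = 1 := mul_eq_one_comm.1 e1
      exact ⟨⟨_, _, e1, e3⟩, rfl, MT_aut (g := H.coch 2 h20) σ rfl (H.coch_mem 2 h20)⟩
    obtain ⟨g', hg', hg'M⟩ := h1
    obtain ⟨c, hc⟩ := hT g' hg'M
    refine ⟨σ.symm c, ?_⟩
    rw [hg'] at hc
    have e4 := congrArg (fun Y : Matrix n n ℂ => Y.map (σ.symm : ℂ →+* ℂ)) hc
    rw [Matrix.map_mul] at e4
    have e5 : ((cochar S P 2).map σ).map (σ.symm : ℂ →+* ℂ) = cochar S P 2 := by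
      ext i j
      simp
    have e6 : (c • (T * (cochar S P 2).map σ)).map (σ.symm : ℂ →+* ℂ) =
        σ.symm c • ((T * (cochar S P 2).map σ).map (σ.symm : ℂ →+* ℂ)) := by
      ext i j
      exact map_mul σ.symm c _
    rw [e5, e6, Matrix.map_mul, e5] at e4
    exact e4
  obtain ⟨c, hc⟩ := hc
  by_cases hT0 : T' = 0
  · refine ⟨0, ?_⟩
    rw [hTT', hT0, Matrix.map_zero _ (map_zero _)]
    simp
  have hsum : T' = ∑ p ∈ S, ∑ q ∈ S, P p * T' * P q := by
    have h1 : T' = (∑ p ∈ S, P p) * T' * ∑ q ∈ S, P q := by rw [H.sum, one_mul, mul_one]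
    conv_lhs => rw [h1]
    rw [Finset.sum_mul, Finset.sum_mul]
    exact Finset.sum_congr rfl fun p _ => by rw [Finset.mul_sum]
  have key : ∀ p q, P p * T' * P q ≠ 0 → (2 : ℂ) ^ (p - q) = c := by
    intro p q hpq
    have a1 : P p * cochar S P 2 = (2 : ℂ) ^ p • P p := H.P_mul_sum (fun p => (2 : ℂ) ^ p) p
    have a2 : cochar S P 2 * P q = (2 : ℂ) ^ q • P q := H.sum_mul_P (fun p => (2 : ℂ) ^ p) q
    have b1 : P p * (cochar S P 2 * T') * P q = (2 : ℂ) ^ p • (P p * T' * P q) := by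
      rw [← mul_assoc, a1, smul_mul_assoc, smul_mul_assoc]
    have b2 : P p * (c • (T' * cochar S P 2)) * P q = (c * 2 ^ q) • (P p * T' * P q) := by
      rw [mul_smul_comm, smul_mul_assoc, ← mul_assoc (P p), mul_assoc (P p * T'), a2, mul_smul_comm, smul_smul]
    have e1 : (2 : ℂ) ^ p • (P p * T' * P q) = (c * 2 ^ q) • (P p * T' * P q) := by rw [← b1, ← b2, hc]
    have e2 : ((2 : ℂ) ^ p - c * 2 ^ q) • (P p * T' * P q) = 0 := by
      rw [sub_smul, e1, sub_self]
    have e3 := (smul_eq_zero.1 e2).resolve_right hpq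
    rw [zpow_sub₀ h20, div_eq_iff (zpow_ne_zero _ h20)]
    linear_combination e3
  have hex : ∃ p q, P p * T' * P q ≠ 0 := by
    by_contra hcon
    push Not at hcon
    apply hT0
    rw [hsum]
    exact Finset.sum_eq_zero fun p _ => Finset.sum_eq_zero fun q _ => hcon p q
  obtain ⟨p0, q0, h0⟩ := hex
  have hinj : ∀ a b : ℤ, (2 : ℂ) ^ a = 2 ^ b → a = b := by
    intro a b hab
    have h1 := congrArg (fun z : ℂ => ‖z‖) hab
    simp only [norm_zpow, Complex.norm_ofNat] at h1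
    exact zpow_right_injective₀ (by norm_num) (by norm_num) h1
  have hh : hw w S P * T' - T' * hw w S P = ((2 * (p0 - q0) : ℤ) : ℂ) • T' := by
    have e1 : hw w S P * T' - T' * hw w S P =
        ∑ p ∈ S, ∑ q ∈ S, ((2 * (p - q) : ℤ) : ℂ) • (P p * T' * P q) := by
      have e2 : hw w S P * T' = ∑ p ∈ S, ∑ q ∈ S, ((2 * p - w : ℤ) : ℂ) • (P p * T' * P q) := by
        have e3 : hw w S P * T' = hw w S P * T' * ∑ q ∈ S, P q := by rw [H.sum, mul_one]
        rw [e3]
        unfold hw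
        rw [Finset.sum_mul, Finset.sum_mul]
        refine Finset.sum_congr rfl fun p _ => ?_
        rw [Finset.mul_sum]
        refine Finset.sum_congr rfl fun q _ => ?_
        rw [smul_mul_assoc, smul_mul_assoc]
      have e4 : T' * hw w S P = ∑ p ∈ S, ∑ q ∈ S, ((2 * q - w : ℤ) : ℂ) • (P p * T' * P q) := by
        have e3 : T' * hw w S P = (∑ q ∈ S, P q) * (T' * hw w S P) := by rw [H.sum, one_mul]
        rw [e3]
        unfold hw
        rw [Finset.sum_mul]
        refine Finset.sum_congr rfl fun p _ => ?_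
        rw [Finset.mul_sum, Finset.mul_sum]
        refine Finset.sum_congr rfl fun q _ => ?_
        rw [mul_smul_comm, mul_smul_comm, mul_assoc]
      rw [e2, e4, ← Finset.sum_sub_distrib]
      refine Finset.sum_congr rfl fun p _ => ?_
      rw [← Finset.sum_sub_distrib]
      refine Finset.sum_congr rfl fun q _ => ?_
      rw [← sub_smul]
      congr 1
      push_cast
      ring
    rw [e1]
    conv_rhs => rw [hsum, Finset.smul_sum]
    refine Finset.sum_congr rfl fun p _ => ?_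
    rw [Finset.smul_sum]
    refine Finset.sum_congr rfl fun q _ => ?_
    by_cases hpq : P p * T' * P q = 0
    · rw [hpq, smul_zero, smul_zero]
    · congr 2
      rw [hinj _ _ ((key p q hpq).trans (key p0 q0 h0).symm)]
  refine ⟨σ ((2 * (p0 - q0) : ℤ) : ℂ), ?_⟩
  have e7 := congrArg (fun Y : Matrix n n ℂ => Y.map (σ : ℂ →+* ℂ)) hh
  rw [Matrix.map_sub _ (map_sub _), Matrix.map_mul, Matrix.map_mul] at e7
  have e8 : (((2 * (p0 - q0) : ℤ) : ℂ) • T').map (σ : ℂ →+* ℂ) = σ ((2 * (p0 - q0) : ℤ) : ℂ) • T'.map σ := by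
    ext i j
    simp
  rw [e8] at e7
  rw [hTT']
  exact e7

/-- the three notions of semi-invariants agree -/
theorem SI_iff {T : Matrix n n ℂ} : SI S P T ↔ SIh w S P T := ⟨H.SIh_of_SI, H.SIh_MT⟩

theorem SI_iff_LH {T : Matrix n n ℂ} : SI S P T ↔ ∀ X ∈ LH Q S P, ∃ c : ℂ, X * T - T * X = c • T :=
  ⟨fun h _ hX => H.SIh_LH (H.SIh_of_SI h) hX, fun h => H.SIh_MT (H.SIh_of_LH h)⟩

end IsHW

end MH
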