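import Pool.Agent.Helper14.GH.HW5
import Pool.Agent.Helper14.GH.DefsW
import Pool.Agent.Helper14.GH.Cp
import Pool.Agent.Helper21.MH.Hodge2

/-!
Project GH (MP_b8862a_ag): the blocks of a Hodge structure of any weight.
-/

set_option linter.unusedSectionVars false

open Matrix GH

namespace MH

variable {n : Type*} [Fintype n] [DecidableEq n]
variable {w : ℤ} {Q : Matrix n n ℚ} {S : Finset ℤ} {P : ℤ → Matrix n n ℂ}

theorem map_mulσ (σ : ℂ ≃+* ℂ) (x y : Matrix n n ℂ) : (x * y).map σ = x.map σ * y.map σ := by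
  have := Matrix.map_mul (L := x) (M := y) (f := (σ : ℂ →+* ℂ))
  exact this

theorem map_smulσ (σ : ℂ ≃+* ℂ) (c : ℂ) (x : Matrix n n ℂ) : (c • x).map σ = σ c • x.map σ := by
  ext i j
  exact map_mul σ c _

theorem map_symmσ (σ : ℂ ≃+* ℂ) (x : Matrix n n ℂ) : (x.map σ.symm).map σ = x := by
  ext i j
  simp

theorem map_symmσ' (σ : ℂ ≃+* ℂ) (x : Matrix n n ℂ) : (x.map σ).map σ.symm = x := by
  ext i j
  simp

theorem IsBlk.aut (σ : ℂ ≃+* ℂ) {e : Matrix n n ℂ} (he : IsBlk P e) : IsBlk P (e.map σ) := by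
  refine ⟨EC_aut σ he.mem, ?_, ?_, ?_⟩
  · rw [← map_mulσ, he.idem]
  · intro h
    apply he.ne
    rw [← map_symmσ' σ e, h]
    ext i j
    simp
  · intro x hx
    obtain ⟨c, hc⟩ := he.min _ (EC_aut σ.symm hx)
    refine ⟨σ c, ?_⟩
    rw [← map_smulσ, ← hc, map_mulσ, map_mulσ, map_symmσ]

/-- an idempotent of rank one has scalar corners, and conversely -/
theorem rank_one_of_corner {e : Matrix n n ℂ} (he : e * e = e) (hne : e ≠ 0)
    (h : ∀ x : Matrix n n ℂ, ∃ c : ℂ, e * x * e = c • e) : e.rank = 1 := by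
  classical
  have hu : ∃ u : n → ℂ, e *ᵥ u = u ∧ u ≠ 0 := by
    by_contra hcon
    push Not at hcon
    apply hne
    apply Matrix.toLin'.injective
    apply LinearMap.ext
    intro v
    rw [map_zero, LinearMap.zero_apply, Matrix.toLin'_apply]
    exact hcon (e *ᵥ v) (by rw [Matrix.mulVec_mulVec, he])
  obtain ⟨u, hu, hu0⟩ := hu
  obtain ⟨i, hi⟩ := Function.ne_iff.1 hu0
  rw [Pi.zero_apply] at hi
  have h1 : e.rank ≤ 1 := by
    obtain ⟨c, hc⟩ := h (vecMulVec u (Pi.single i 1))
    have e1 : e * vecMulVec u (Pi.single i 1) * e = vecMulVec u ((Pi.single i (1 : ℂ)) ᵥ* e) := by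
      rw [Matrix.mul_vecMulVec, hu, Matrix.vecMulVec_mul]
    by_cases hc0 : c = 0
    · exfalso
      rw [hc0, zero_smul, e1] at hc
      have h2 := congrArg (fun M : Matrix n n ℂ => M *ᵥ u) hc
      simp only [Matrix.vecMulVec_mulVec, Matrix.zero_mulVec] at h2
      rw [← Matrix.dotProduct_mulVec, hu] at h2
      have h3 : (Pi.single i (1 : ℂ)) ⬝ᵥ u = u i := by simp
      rw [h3] at h2
      have h4 := congrFun h2 i
      simp only [Pi.smul_apply, Pi.zero_apply, MulOpposite.smul_eq_mul_unop, MulOpposite.unop_op] at h4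
      exact hi (by simpa using h4)
    · have e2 : e = c⁻¹ • (e * vecMulVec u (Pi.single i 1) * e) := by
        rw [hc, smul_smul, inv_mul_cancel₀ hc0, one_smul]
      rw [e2, e1, ← Matrix.smul_vecMulVec]
      exact Matrix.rank_vecMulVec_le _ _
  have h2 : e.rank ≠ 0 := by
    intro h0
    apply hne
    rw [Matrix.rank, Submodule.finrank_eq_zero, LinearMap.range_eq_bot] at h0
    apply Matrix.toLin'.injective
    rw [map_zero]
    exact h0
  omega

namespace IsHW

variable (H : IsHW w Q S P)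
include H

/-- if all the conjugates of `hw` are scalar on a block, then it has rank one -/
theorem exists_nonscalar {e : Matrix n n ℂ} (he : IsBlk P e) (hr : e.rank ≠ 1) :
    ∃ σ : ℂ ≃+* ℂ, ∀ c : ℂ, hw w S P * e.map σ ≠ c • e.map σ := by
  by_contra hcon
  push Not at hcon
  apply hr
  refine rank_one_of_corner he.idem he.ne fun x => ?_
  have h1 : e * x * e ∈ EC P := by
    refine H.descent fun σ => ?_
    obtain ⟨c, hc⟩ := hcon σ.symm
    have h2 : (hw w S P).map σ * e = σ c • e := by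
      have h3 := congrArg (fun Y : Matrix n n ℂ => Y.map σ) hc
      simp only [map_mulσ, map_smulσ, map_symmσ] at h3
      exact h3
    have h4 : e * (hw w S P).map σ = σ c • e := by rw [EC_hwσ he.mem, h2]
    calc e * x * e * (hw w S P).map σ = e * x * (e * (hw w S P).map σ) := by simp only [mul_assoc]
      _ = σ c • (e * x * e) := by rw [h4, mul_smul_comm]
      _ = ((hw w S P).map σ * e) * x * e := by
        rw [h2]
        simp only [smul_mul_assoc]
      _ = (hw w S P).map σ * (e * x * e) := by simp only [mul_assoc]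
  obtain ⟨c, hc⟩ := he.min _ h1
  refine ⟨c, ?_⟩
  calc e * x * e = e * (e * x * e) * e := by
        rw [← mul_assoc, ← mul_assoc, he.idem, mul_assoc (e * x), he.idem]
    _ = c • e := hc

section basis

variable {B Bi : Matrix n n ℂ} (h1 : B * Bi = 1) (h2 : Bi * B = 1) (hM : Mw w Q S P = Bᴴ * B)
include h1 h2 hM

theorem grW : Gr (LB Q S P B Bi) (cj B Bi (hw w S P)) (EW w S P B Bi) (LamW w S) where
  spec := H.specW h1 h2 hM
  br := fun x hx y hy => H.LB_br h1 h2 hx hy
  st := fun x hx => H.LB_star h1 h2 hM hx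
  mem := H.LB_h h2

end basis

end IsHW

end MH
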