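import Pool.Agent.Helper14.GH.HW6
import Pool.Agent.Helper21.GH.Gst

/-!
Project GH (MP_b8862a_ag): the blocks of a Hodge structure of any weight with a large Hodge number.
-/

set_option linter.unusedSectionVars false

open Matrix GH

namespace MH

variable {n : Type*} [Fintype n] [DecidableEq n]
variable {w : ℤ} {Q : Matrix n n ℚ} {S : Finset ℤ} {P : ℤ → Matrix n n ℂ}

namespace IsHW

variable (H : IsHW w Q S P)
include H

section basis

variable {B Bi : Matrix n n ℂ} (h1 : B * Bi = 1) (h2 : Bi * B = 1) (hM : Mw w Q S P = Bᴴ * B)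
include h1 h2 hM

/-- the block lemma -/
theorem good_block {e : Matrix n n ℂ} (he : IsBlk P e) (hdom : ∀ σ : ℂ ≃+* ℂ, DomG P (e.map σ))
    (hes : (cj B Bi e)ᴴ = cj B Bi e) (h3 : 3 ≤ e.rank) (hns : ∀ c : ℂ, hw w S P * e ≠ c • e)
    {k : Type*} [Fintype k] [DecidableEq k] {u : Matrix n k ℂ} (hu : uᴴ * u = 1) (huu : u * uᴴ = cj B Bi e) :
    ∃ c : ℝ, Good (cpL u uᴴ (L1 (LB Q S P B Bi))) (uᴴ * (cj B Bi (hw w S P) - (c : ℂ) • (1 : Matrix n n ℂ)) * u)
      (fun μ => uᴴ * EW w S P B Bi (μ + c) * u) ((LamW w S).image (fun μ => μ - c)) := by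
  classical
  have hdome : DomG P e := by
    have h0 := hdom (RingEquiv.refl ℂ)
    have h00 : e.map (RingEquiv.refl ℂ) = e := by
      ext i j
      simp
    rwa [h00] at h0
  set e' := cj B Bi e with he'
  have hee' : e' * e' = e' := by rw [he', cj_mul h2, he.idem]
  have hrk' : e'.rank = e.rank := rank_cj h1 h2 he.idem
  have hcard : Fintype.card k = e.rank := by rw [← hrk']; exact cp_card hu huu hee'
  have hcL : ∀ x ∈ LB Q S P B Bi, x * e' = e' * x := by
    intro x hx
    have h5 := H.LH_EC (mem_LB.1 hx) he.mem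
    have h6 := congrArg (cj B Bi) h5
    rwa [← cj_mul h2, ← cj_mul h2, cj_cj h1] at h6
  have hcL1 : ∀ x ∈ L1 (LB Q S P B Bi), x * e' = e' * x := by
    intro x hx
    obtain ⟨y, hy, c, rfl⟩ := mem_L1.1 hx
    rw [add_mul, mul_add, hcL y hy, smul_mul_assoc, mul_smul_comm, one_mul, mul_one]
  -- idempotents that commute with the block
  have hF : ∀ F : Matrix n n ℂ, F * F = F → F * e = e * F →
      (uᴴ * cj B Bi F * u) * (uᴴ * cj B Bi F * u) = uᴴ * cj B Bi F * u ∧
        (uᴴ * cj B Bi F * u).rank = (e * F).rank := by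
    intro F hF hFe
    have a1 : cj B Bi F * cj B Bi F = cj B Bi F := by rw [cj_mul h2, hF]
    have a2 : cj B Bi F * e' = e' * cj B Bi F := by rw [he', cj_mul h2, cj_mul h2, hFe]
    refine ⟨cp_idem hu huu a1 a2, ?_⟩
    rw [cp_rank hu huu a1 a2, he', cj_mul h2]
    refine rank_cj h1 h2 ?_
    calc (e * F) * (e * F) = e * (F * e) * F := by simp only [mul_assoc]
      _ = (e * e) * (F * F) := by rw [hFe]; simp only [mul_assoc]
      _ = e * F := by rw [he.idem, hF]
  obtain ⟨p, hp⟩ := hdome
  have hPP : ∀ p, P p * P p = P p := fun p => by rw [H.mul, if_pos rfl]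
  refine ⟨((2 * p - w : ℤ) : ℝ), ?_⟩
  set c : ℝ := ((2 * p - w : ℤ) : ℝ) with hc
  have G0 := ((H.grW h1 h2 hM).addOne.shift one_L1 c).compress hu huu hcL1
  have hE0 : uᴴ * EW w S P B Bi (0 + c) * u = uᴴ * cj B Bi (P p) * u := by
    rw [zero_add, hc, H.EW_int]
  have hPe := EC_P he.mem p
  obtain ⟨i0, r0⟩ := hF (P p) (hPP p) hPe.symm
  have hcomp := rank_compl i0
  rw [r0, hcard] at hcomp
  refine gst G0 ⟨1, one_L1, by rw [Matrix.mul_one, hu]⟩ ?_ ?_ ?_ ?_
  · -- `h` is not scalar
    intro hE
    rw [hE0] at hE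
    apply hns ((2 * p - w : ℤ) : ℂ)
    have a1 : e' * cj B Bi (P p) = e' := by
      calc e' * cj B Bi (P p) = e' * (cj B Bi (P p) * e') := by
            rw [he', cj_mul h2, cj_mul h2, cj_mul h2, ← hPe, ← mul_assoc, he.idem]
        _ = u * (uᴴ * cj B Bi (P p) * u) * uᴴ := by rw [← huu]; simp only [Matrix.mul_assoc]
        _ = e' := by rw [hE, Matrix.mul_one, huu]
    have a2 : e * P p = e := by
      have a3 := congrArg (cj Bi B) a1
      rwa [← cj_mul h1, he', cj_cj h2, cj_cj h2] at a3
    have a4 : hw w S P * P p = ((2 * p - w : ℤ) : ℂ) • P p :=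
      H.sum_mul_P (fun p => ((2 * p - w : ℤ) : ℂ)) p
    calc hw w S P * e = hw w S P * (P p * e) := by rw [← hPe, a2]
      _ = ((2 * p - w : ℤ) : ℂ) • (P p * e) := by rw [← mul_assoc, a4, smul_mul_assoc]
      _ = _ := by rw [← hPe, a2]
  · -- the numbers
    rw [hE0, hcard]
    rcases hp with hp | hp
    · left
      omega
    · right
      have : (1 - uᴴ * cj B Bi (P p) * u).rank = e.rank - (e * P p).rank := by omega
      rw [this]
      exact hp
  · rw [hcard]
    exact h3
  · -- the conjugates
    intro T hT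
    set T' := cj Bi B (u * T * uᴴ) with hT'
    have hec : T' ∈ EC P := by
      refine H.descent fun σ => ?_
      -- the block of the conjugate
      have hf := he.aut σ.symm
      have hfr : (e.map σ.symm).rank = e.rank := rank_aut σ.symm he.idem
      obtain ⟨q, hq⟩ : ∃ q, (e.rank ≤ (e.map σ.symm * P q).rank + 1 ∨
          (e.rank - (e.map σ.symm * P q).rank + 1) ^ 2 ≤ e.rank) := by
        obtain ⟨q, hq⟩ := hdom σ.symm
        rw [hfr] at hq
        exact ⟨q, hq⟩
      have hσP : ∀ p, e * (P p).map σ = (e.map σ.symm * P p).map σ := by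
        intro p
        rw [map_mulσ, map_symmσ]
      have hσc : ∀ p, (P p).map σ * e = e * (P p).map σ := by
        intro p
        have h5 := EC_P hf.mem p
        rw [hσP, h5, map_mulσ, map_symmσ]
      have hσid : ∀ p, (P p).map σ * (P p).map σ = (P p).map σ := by
        intro p
        rw [← map_mulσ, hPP]
      have hfP : ∀ p, (e.map σ.symm * P p) * (e.map σ.symm * P p) = e.map σ.symm * P p := by
        intro p
        have h5 := EC_P hf.mem p
        calc (e.map σ.symm * P p) * (e.map σ.symm * P p) = e.map σ.symm * (P p * e.map σ.symm) * P p := by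
              simp only [mul_assoc]
          _ = (e.map σ.symm * e.map σ.symm) * (P p * P p) := by rw [← h5]; simp only [mul_assoc]
          _ = _ := by rw [hf.idem, hPP]
      have rσ : ∀ p, (e * (P p).map σ).rank = (e.map σ.symm * P p).rank := by
        intro p
        rw [hσP, rank_aut σ (hfP p)]
      set F : ℤ → Matrix k k ℂ := fun p => uᴴ * cj B Bi ((P p).map σ) * u with hFdef
      have hFm : ∀ i j, F i * F j = if i = j then F i else 0 := by
        intro i j
        rw [hFdef]
        simp only
        rw [cp_mul hu huu (by rw [he', cj_mul h2, cj_mul h2, hσc]), cj_mul h2, ← map_mulσ, H.mul]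
        split_ifs with hij
        · rfl
        · rw [Matrix.map_zero _ (map_zero _), cj_zero, Matrix.mul_zero, Matrix.zero_mul]
      have hFs : ∑ i ∈ S, F i = 1 := by
        rw [hFdef]
        simp only
        rw [← Matrix.sum_mul, ← Matrix.mul_sum, ← cj_sum]
        have a1 : ∑ i ∈ S, (P i).map σ = 1 := by
          have a2 := congrArg (fun Y : Matrix n n ℂ => Y.map σ) H.sum
          simp only [Matrix.map_one _ (map_zero _) (map_one _)] at a2
          rw [← a2]
          ext i j
          simp [Matrix.sum_apply, map_sum]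
        rw [a1, cj_one h1, Matrix.mul_one, hu]
      have hseq : uᴴ * cj B Bi ((hw w S P).map σ) * u = ∑ i ∈ S, ((2 * i - w : ℤ) : ℂ) • F i := by
        have a1 : (hw w S P).map σ = ∑ i ∈ S, ((2 * i - w : ℤ) : ℂ) • (P i).map σ := by
          unfold hw
          ext i j
          simp only [Matrix.map_apply, Matrix.sum_apply, Matrix.smul_apply, smul_eq_mul, map_sum, map_mul,
            map_intCast]
        rw [a1, cj_sum, Matrix.mul_sum, Matrix.sum_mul]
        refine Finset.sum_congr rfl fun i _ => ?_
        rw [cj_smul, Matrix.mul_smul, Matrix.smul_mul]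
      have hsL : uᴴ * cj B Bi ((hw w S P).map σ) * u ∈ cpL u uᴴ (L1 (LB Q S P B Bi)) := by
        refine ⟨cj B Bi ((hw w S P).map σ), le_L1 ?_, rfl⟩
        rw [mem_LB, cj_cj h2]
        exact LH_aut σ H.hw_mem
      have hcomm := hT _ hsL (by
          rw [hseq]
          exact dg_of (fun i _ j _ hij => coef_inj w hij) hFm hFs) (by
          refine ⟨((2 * q - w : ℤ) : ℂ), ?_⟩
          by_cases hqS : q ∈ S
          · have a1 := rank_shift_le (c := fun i : ℤ => ((2 * i - w : ℤ) : ℂ)) hFm hFs hqS
            rw [← hseq, hcard] at a1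
            have a2 : (F q).rank = (e.map σ.symm * P q).rank := by
              rw [← rσ]
              exact (hF _ (hσid q) (hσc q)).2
            rw [a2] at a1
            rcases hq with hq | hq
            · left
              omega
            · right
              rw [hcard]
              refine le_trans (Nat.pow_le_pow_left ?_ 2) hq
              omega
          · have a3 : (e.map σ.symm * P q).rank = 0 := by rw [H.supp q hqS, mul_zero, Matrix.rank_zero]
            have a4 := Matrix.rank_le_card_height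
              (uᴴ * cj B Bi ((hw w S P).map σ) * u - (((2 * q - w : ℤ) : ℂ)) • (1 : Matrix k k ℂ))
            rw [a3] at hq
            rw [hcard] at a4
            rcases hq with hq | hq
            · omega
            · right
              rw [hcard]
              refine le_trans (Nat.pow_le_pow_left ?_ 2) hq
              omega)
      have a5 := cp_comm hu huu (hcL _ (by rw [mem_LB, cj_cj h2]; exact LH_aut σ H.hw_mem)) hcomm
      have a6 := congrArg (cj Bi B) a5
      rw [← cj_mul h1, ← cj_mul h1, cj_cj h2] at a6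
      exact a6
    obtain ⟨c', hc'⟩ := he.min _ hec
    refine ⟨c', ?_⟩
    apply cp_scalar hu huu
    have a7 := congrArg (cj B Bi) hc'
    rw [← cj_mul h2, ← cj_mul h2, hT', cj_cj h1, cj_smul] at a7
    rw [← a7, ← he', cp_lift_left hu huu, cp_lift_right hu huu]

end basis

end IsHW

end MH
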