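import Pool.Agent.Helper14.GH.Cp
import Pool.Agent.Helper14.TR.Sk
import Pool.Agent.Helper34.TR.Asm
import Pool.Agent.Helper21.MH.Mul3

/-!
Project GH (MP_b8862a_ag): an irreducible Lie algebra that consists of all skew matrices of a symmetric form, with a
Hermitian element whose kernel is large compared with its positive part, satisfies `Good`.
-/

set_option linter.unusedSectionVars false

open Matrix Module MH

namespace GH

variable {n : Type*} [Fintype n] [DecidableEq n] {L : Submodule ℂ (Matrix n n ℂ)} {h : Matrix n n ℂ}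
  {E : ℝ → Matrix n n ℂ} {Λ : Finset ℝ} {τ : Matrix n n ℂ →ₗ[ℂ] Matrix n n ℂ}

theorem finrank_sk (m : Type*) [Fintype m] [DecidableEq m] :
    2 * finrank ℂ (TR.sk m) + Fintype.card m = Fintype.card m ^ 2 := by
  have h1 := TR.trace_sk (n := m) (LinearMap.id) (TR.lr 1 1) (by intro y; simp)
  rw [LinearMap.trace_id, TR.trace_lr, TR.trace_lr_tp, Matrix.trace_one, Matrix.transpose_one, mul_one,
    Matrix.trace_one] at h1
  have h2 : 2 * (finrank ℂ (TR.sk m) : ℂ) + (Fintype.card m : ℂ) = (Fintype.card m : ℂ) ^ 2 := by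
    rw [h1]
    ring
  exact_mod_cast h2

/-- two matrices with proportional products -/
theorem cross {A A' C C' : Matrix n n ℂ} (h : ∀ y : Matrix n n ℂ, A * y * C = A' * y * C') (hA' : A' ≠ 0)
    (hC : C ≠ 0) : ∃ c : ℂ, A = c • A' ∧ C' = c • C := by
  have key : ∀ i a b j, A i a * C b j = A' i a * C' b j := by
    intro i a b j
    have h1 := congrFun (congrFun (h (Matrix.single a b 1)) i) j
    have h2 : ∀ M N : Matrix n n ℂ, (M * Matrix.single a b (1 : ℂ) * N) i j = M i a * N b j := by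
      intro M N
      rw [Matrix.mul_apply, Finset.sum_eq_single b]
      · rw [Matrix.mul_single_apply_same, mul_one]
      · intro c _ hc
        rw [Matrix.mul_single_apply_of_ne _ _ _ _ _ hc, zero_mul]
      · intro h0
        exact absurd (Finset.mem_univ b) h0
    rw [h2, h2] at h1
    exact h1
  obtain ⟨b, j, hbj⟩ : ∃ b j, C b j ≠ 0 := by
    by_contra hcon
    push Not at hcon
    exact hC (by ext i j; exact hcon i j)
  obtain ⟨i, a, hia⟩ : ∃ i a, A' i a ≠ 0 := by
    by_contra hcon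
    push Not at hcon
    exact hA' (by ext i j; exact hcon i j)
  refine ⟨C' b j / C b j, ?_, ?_⟩
  · ext x y
    rw [Matrix.smul_apply, smul_eq_mul]
    have := key x y b j
    field_simp
    linear_combination this
  · ext x y
    rw [Matrix.smul_apply, smul_eq_mul]
    have h1 := key i a x y
    have h2 := key i a b j
    have h3 : A' i a * (C' x y * C b j - C' b j * C x y) = 0 := by
      linear_combination (C b j) * (-h1) + (C x y) * h2
    have h4 := (mul_eq_zero.1 h3).resolve_left hia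
    field_simp
    linear_combination h4

theorem orth_aux1 {m : Type*} [Fintype m] [DecidableEq m] {W : Matrix n m ℂ} {e G : Matrix n n ℂ}
    (h1 : Wᵀ * G * W = 1) (h2 : W * (Wᵀ * G) = e) : e * W = W := by
  rw [← h2, Matrix.mul_assoc, h1, Matrix.mul_one]

theorem orth_aux2 {m : Type*} [Fintype m] [DecidableEq m] {W : Matrix n m ℂ} {e G : Matrix n n ℂ}
    (h1 : Wᵀ * G * W = 1) (h2 : W * (Wᵀ * G) = e) : Wᵀ * G * e = Wᵀ * G := by
  rw [← h2, ← Matrix.mul_assoc, h1, Matrix.one_mul]

theorem orth_sum_sq {ι : Type*} (S : Finset ι) (f : ι → ℕ) : ∑ i ∈ S, f i ^ 2 ≤ (∑ i ∈ S, f i) ^ 2 := by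
  classical
  induction S using Finset.induction_on with
  | empty => simp
  | insert a S ha ih =>
    rw [Finset.sum_insert ha, Finset.sum_insert ha]
    nlinarith [Nat.zero_le (f a * ∑ i ∈ S, f i)]

theorem good_of_skew (D : Dat τ L h E Λ) {G Gi : Matrix n n ℂ} (hG1 : Gi * G = 1) (hGs : Gᵀ = G)
    (hτ : ∀ x, τ x = Gi * xᵀ * G) (hfull : ∀ x, τ x = -x → x ∈ L) (hs : 1 ≤ (Pp E Λ).rank)
    (hb : (Pp E Λ).rank ^ 2 < (E 0).rank) (h4 : 4 ≤ (E 0).rank) : Good (L1 L) h E Λ := by
  classical
  have hG2 : G * Gi = 1 := mul_eq_one_comm.1 hG1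
  have hGd : G.det ≠ 0 := by
    intro h0
    have h1 := congrArg Matrix.det hG2
    rw [Matrix.det_mul, h0, zero_mul, Matrix.det_one] at h1
    exact zero_ne_one h1
  have hGu : IsUnit G := ⟨⟨G, Gi, hG2, hG1⟩, rfl⟩
  have hEE : ∀ μ, E μ * E μ = E μ := fun μ => by rw [D.spec.mul, if_pos rfl]
  have hskew : ∀ x, xᵀ * G + G * x = 0 ↔ τ x = -x := by
    intro x
    rw [hτ]
    constructor
    · intro h1
      rw [mul_assoc, eq_neg_of_add_eq_zero_left h1, mul_neg, ← mul_assoc, hG1, one_mul]
    · intro h1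
      have h2 := congrArg (fun y => G * y) h1
      simp only [mul_neg] at h2
      rw [← mul_assoc, ← mul_assoc, hG2, one_mul] at h2
      rw [h2, neg_add_cancel]
  -- the elements of nonzero degree
  have hdeg : ∀ (μ : ℝ) (y : Matrix n n ℂ), E μ * y * E 0 - τ (E μ * y * E 0) ∈ Ld L h μ := by
    intro μ y
    have e1 : τ (E μ * y * E 0) = E 0 * τ y * E (-μ) := by
      rw [D.inv.mul, D.inv.mul, D.tauE0, D.tauE, mul_assoc]
    refine ⟨hfull _ ?_, ?_⟩
    · rw [map_sub, D.inv.inv]
      abel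
    · have a1 : h * E μ = (μ : ℂ) • E μ := D.spec.h_mul μ
      have a2 : h * E 0 = 0 := by
        have := D.spec.h_mul 0
        rwa [Complex.ofReal_zero, zero_smul] at this
      have a3 : E 0 * h = 0 := by
        have := D.spec.mul_h 0
        rwa [Complex.ofReal_zero, zero_smul] at this
      have a4 : E (-μ) * h = ((-μ : ℝ) : ℂ) • E (-μ) := D.spec.mul_h (-μ)
      rw [e1, mul_sub, sub_mul]
      have b1 : h * (E μ * y * E 0) = (μ : ℂ) • (E μ * y * E 0) := by
        rw [← mul_assoc, ← mul_assoc, a1, smul_mul_assoc, smul_mul_assoc]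
      have b2 : E μ * y * E 0 * h = 0 := by rw [mul_assoc, a3, mul_zero]
      have b3 : h * (E 0 * τ y * E (-μ)) = 0 := by
        rw [← mul_assoc, ← mul_assoc, a2, zero_mul, zero_mul]
      have b4 : E 0 * τ y * E (-μ) * h = (-(μ : ℂ)) • (E 0 * τ y * E (-μ)) := by
        rw [mul_assoc, a4, mul_smul_comm]
        push_cast
        rfl
      rw [b1, b2, b3, b4, smul_sub, neg_smul]
      abel
  have hne : E 0 ≠ 1 := by
    intro h0
    have h1 : Pp E Λ * E 0 = 0 := by
      unfold Pp
      rw [Finset.sum_mul]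
      refine Finset.sum_eq_zero fun μ hμ => ?_
      rw [D.spec.mul, if_neg (ne_of_gt (Finset.mem_filter.1 hμ).2)]
    rw [h0, mul_one] at h1
    rw [h1, Matrix.rank_zero] at hs
    omega
  have hE00 : E 0 ≠ 0 := by
    intro h0
    rw [h0, Matrix.rank_zero] at h4
    omega
  have G0 : Gr L h E Λ := ⟨D.spec, D.br, D.st, D.mem⟩
  refine ⟨G0.addOne, one_L1, ?_, ?_, hne, Or.inr (by have := D.card_eq; omega), ?_⟩
  · -- the type
    refine Or.inr ⟨G, Or.inl hGs, hGu, ?_, ?_⟩
    · intro x hx
      exact le_L1 (hfull x ((hskew x).1 hx))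
    · intro x hx
      obtain ⟨y, hy, c, rfl⟩ := mem_L1.1 hx
      refine ⟨2 * c, ?_⟩
      have h1 := (hskew y).2 (D.sk y hy)
      rw [Matrix.transpose_add, Matrix.transpose_smul, Matrix.transpose_one, add_mul, mul_add, smul_mul_assoc,
        one_mul, mul_smul_comm, mul_one]
      calc yᵀ * G + c • G + (G * y + c • G) = (yᵀ * G + G * y) + (c • G + c • G) := by abel
        _ = (2 * c) • G := by rw [h1, zero_add, two_mul, add_smul]
  · -- the commutant of the nonzero degrees
    intro T hTh hT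
    have hTE : ∀ μ, T * E μ = E μ * T := spec_comm D.spec hTh
    have key : ∀ μ : ℝ, μ ≠ 0 → E μ ≠ 0 → ∃ c : ℂ, T * E μ = c • E μ ∧ T * E 0 = c • E 0 := by
      intro μ hμ hEμ
      have h1 : ∀ y : Matrix n n ℂ, (T * E μ) * y * E 0 = E μ * y * (E 0 * T) := by
        intro y
        have h2 := hT μ hμ _ (show _ ∈ Ld (L1 L) h μ from ⟨le_L1 (hdeg μ y).1, (hdeg μ y).2⟩)
        have e1 : τ (E μ * y * E 0) * E 0 = 0 := by
          have : τ (E μ * y * E 0) = E 0 * τ y * E (-μ) := by
            rw [D.inv.mul, D.inv.mul, D.tauE0, D.tauE, mul_assoc]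
          rw [this, mul_assoc, D.spec.mul, if_neg (by simpa using hμ), mul_zero]
        have h3 := congrArg (fun z => z * E 0) h2
        simp only [mul_sub, sub_mul] at h3
        have e2 : T * τ (E μ * y * E 0) * E 0 = 0 := by rw [mul_assoc, e1, mul_zero]
        have e3 : τ (E μ * y * E 0) * T * E 0 = 0 := by rw [mul_assoc, hTE, ← mul_assoc, e1, zero_mul]
        rw [e2, e3, sub_zero, sub_zero] at h3
        calc T * E μ * y * E 0 = T * (E μ * y * E 0) * E 0 := by
              simp only [mul_assoc]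
              rw [hEE]
          _ = E μ * y * E 0 * T * E 0 := h3
          _ = E μ * y * (E 0 * T) := by
              rw [mul_assoc _ T, hTE, ← mul_assoc, mul_assoc _ (E 0) (E 0), hEE, mul_assoc]
      obtain ⟨c, hc1, hc2⟩ := cross h1 hEμ hE00
      exact ⟨c, hc1, by rw [hTE, hc2]⟩
    obtain ⟨μ0, hμ0, hEμ0⟩ : ∃ μ : ℝ, μ ≠ 0 ∧ E μ ≠ 0 := by
      by_contra hcon
      push Not at hcon
      apply hne
      rw [← D.spec.sum]
      by_cases h0 : (0 : ℝ) ∈ Λ
      · rw [Finset.sum_eq_single 0]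
        · intro μ _ hμ
          exact hcon μ hμ
        · intro h1
          exact absurd h0 h1
      · exact absurd (D.spec.supp 0 h0) hE00
    obtain ⟨c, _, hc0⟩ := key μ0 hμ0 hEμ0
    refine ⟨c, ?_⟩
    have hall : ∀ μ, T * E μ = c • E μ := by
      intro μ
      by_cases hμ : μ = 0
      · rw [hμ, hc0]
      · by_cases hEμ : E μ = 0
        · rw [hEμ, mul_zero, smul_zero]
        · obtain ⟨c', hc1, hc2⟩ := key μ hμ hEμ
          have h1 : (c' - c) • E 0 = 0 := by rw [sub_smul, ← hc2, hc0, sub_self]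
          have h2 := (smul_eq_zero.1 h1).resolve_right hE00
          rw [hc1, sub_eq_zero.1 h2]
    calc T = T * ∑ μ ∈ Λ, E μ := by rw [D.spec.sum, mul_one]
      _ = ∑ μ ∈ Λ, c • E μ := by rw [Finset.mul_sum]; exact Finset.sum_congr rfl fun μ _ => hall μ
      _ = c • (1 : Matrix n n ℂ) := by rw [← Finset.smul_sum, D.spec.sum]
  · -- the numbers
    set s := (Pp E Λ).rank with hsdef
    set b := (E 0).rank with hbdef
    -- lower bound for the kernel part
    have hK : finrank ℂ (TR.sk (Fin b)) ≤ finrank ℂ (KK L E) := by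
      have hadj : (E 0)ᵀ * G = G * E 0 := by
        have h1 := D.tauE0
        rw [hτ] at h1
        have h2 : G * (Gi * (E 0)ᵀ * G) = G * E 0 := congrArg (fun y => G * y) h1
        rwa [← mul_assoc, ← mul_assoc, hG2, one_mul] at h2
      obtain ⟨W, hW1, hW2, hW3, hW4⟩ : ∃ W : Matrix n (Fin b) ℂ, Wᵀ * G * W = 1 ∧ W * (Wᵀ * G) = E 0 ∧
          E 0 * W = W ∧ Wᵀ * G * E 0 = Wᵀ * G := by
        obtain ⟨W, hW1, hW2⟩ := MH.exists_orth hGs hGd (hEE 0) hadj
        exact ⟨W, hW1, hW2, orth_aux1 hW1 hW2, orth_aux2 hW1 hW2⟩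
      let φ : TR.sk (Fin b) →ₗ[ℂ] KK L E :=
        { toFun := fun z => ⟨W * z.1 * (Wᵀ * G), by
            refine ⟨hfull _ ((hskew _).1 ?_), ?_⟩
            · rw [Matrix.transpose_mul, Matrix.transpose_mul, Matrix.transpose_mul, Matrix.transpose_transpose, hGs,
                TR.mem_sk.1 z.2]
              simp only [Matrix.mul_assoc, Matrix.mul_neg, Matrix.neg_mul]
              exact neg_add_cancel _
            · calc E 0 * (W * z.1 * (Wᵀ * G)) * E 0 = (E 0 * W) * z.1 * (Wᵀ * G * E 0) := by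
                    simp only [Matrix.mul_assoc]
                _ = _ := by rw [hW3, hW4]⟩
          map_add' := fun x y => Subtype.ext (by
            show W * (x.1 + y.1) * (Wᵀ * G) = W * x.1 * (Wᵀ * G) + W * y.1 * (Wᵀ * G)
            rw [Matrix.mul_add, Matrix.add_mul])
          map_smul' := fun c x => Subtype.ext (by
            show W * (c • x.1) * (Wᵀ * G) = c • (W * x.1 * (Wᵀ * G))
            rw [Matrix.mul_smul, Matrix.smul_mul]) }
      refine LinearMap.finrank_le_finrank_of_injective (f := φ) ?_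
      intro x y hxy
      apply Subtype.ext
      have h1 : W * x.1 * (Wᵀ * G) = W * y.1 * (Wᵀ * G) := congrArg Subtype.val hxy
      have h2 : ∀ z : Matrix (Fin b) (Fin b) ℂ, (Wᵀ * G) * (W * z * (Wᵀ * G)) * W = z := by
        intro z
        calc (Wᵀ * G) * (W * z * (Wᵀ * G)) * W = (Wᵀ * G * W) * z * (Wᵀ * G * W) := by
              simp only [Matrix.mul_assoc]
          _ = z := by rw [hW1, Matrix.one_mul, Matrix.mul_one]
      rw [← h2 x.1, h1, h2]
    have hsk := finrank_sk (Fin b)
    rw [Fintype.card_fin] at hsk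
    have hK1 : finrank ℂ (KK L E) ≤ finrank ℂ (KK (L1 L) E) :=
      Submodule.finrank_mono fun x hx => ⟨le_L1 hx.1, hx.2⟩
    -- upper bound for degree zero
    have hz := D.finrank_ze3 ⊤
    rw [top_inf_eq] at hz
    have hz2 : ∑ μ ∈ Λ.filter (fun μ => 0 < μ), (E μ).rank ^ 2 ≤ s ^ 2 := by
      rw [hsdef, D.rank_Pp]
      exact orth_sum_sq _ _
    have hz3 : finrank ℂ (Ld (L1 L) h 0) ≤ finrank ℂ (Ld L h 0) + 1 := by
      have h1 : Ld (L1 L) h 0 ≤ Ld L h 0 ⊔ Submodule.span ℂ {1} := by
        rintro x ⟨hx, hx0⟩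
        obtain ⟨y, hy, c, rfl⟩ := mem_L1.1 hx
        refine Submodule.mem_sup.2 ⟨y, ⟨hy, ?_⟩, c • 1, Submodule.mem_span_singleton.2 ⟨c, rfl⟩, rfl⟩
        rw [Complex.ofReal_zero, zero_smul] at hx0 ⊢
        rw [mul_add, add_mul, mul_smul_comm, smul_mul_assoc, mul_one, one_mul, add_sub_add_right_eq_sub] at hx0
        exact hx0
      refine (Submodule.finrank_mono h1).trans ((Submodule.finrank_add_le_finrank_add_finrank _ _).trans ?_)
      have h2 : finrank ℂ (Submodule.span ℂ {(1 : Matrix n n ℂ)}) ≤ 1 := (finrank_span_le_card _).trans (by simp)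
      omega
    have hbs : s ^ 2 + 4 ≤ finrank ℂ (TR.sk (Fin b)) := by
      have h1 : (s ^ 2 + 1) ≤ b := hb
      by_contra hcon
      push Not at hcon
      have h2 : b * b ≤ b + 2 * (s ^ 2 + 3) := by
        have h3 : b ^ 2 = b * b := sq b
        omega
      have h3 : b ≤ 4 ∨ 5 ≤ b := by omega
      rcases h3 with h3 | h3
      · have hb4 : b = 4 := by omega
        rw [hb4] at h2 h1
        have h5 : s ≤ 1 := by
          by_contra h6
          push Not at h6
          nlinarith
        have h6 : s ^ 2 ≤ 1 := by nlinarith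
        omega
      · nlinarith
    omega

end GH
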