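import Pool.Agent.Helper14.GH.Cp
import Pool.Agent.Helper98.TR.Main4

/-!
Project GH (MP_b8862a_ag): spectral decompositions of skew elements, and the data `Dat` for a symmetric form.
-/

set_option linter.unusedSectionVars false

open Matrix Module
open scoped ComplexOrder

namespace MH

variable {n : Type*} [Fintype n] [DecidableEq n]

theorem sd_of {ι : Type*} [DecidableEq ι] {S : Finset ι} {F : ι → Matrix n n ℂ} {c : ι → ℝ}
    (hc : ∀ i ∈ S, ∀ j ∈ S, c i = c j → i = j)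
    (hm : ∀ i j, F i * F j = if i = j then F i else 0) (hs : ∑ i ∈ S, F i = 1) :
    ∃ F' : ℝ → Matrix n n ℂ, SD (∑ i ∈ S, (c i : ℂ) • F i) F' (S.image c) ∧ (∀ i ∈ S, F' (c i) = F i) ∧
      ∀ μ, μ ∉ S.image c → F' μ = 0 := by
  classical
  have key : ∀ i ∈ S, ∑ j ∈ S.filter (fun j => c j = c i), F j = F i := by
    intro i hi
    rw [Finset.sum_eq_single i]
    · intro j hj hji
      rw [Finset.mem_filter] at hj
      exact absurd (hc j hj.1 i hi hj.2) hji
    · intro h0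
      exfalso
      apply h0
      rw [Finset.mem_filter]
      exact ⟨hi, rfl⟩
  refine ⟨fun μ => ∑ j ∈ S.filter (fun j => c j = μ), F j, ⟨?_, ?_, ?_⟩, key, ?_⟩
  · intro μ ν
    by_cases hμ : ∃ i ∈ S, c i = μ
    · obtain ⟨i, hi, rfl⟩ := hμ
      simp only [key i hi]
      by_cases hν : ∃ j ∈ S, c j = ν
      · obtain ⟨j, hj, rfl⟩ := hν
        simp only [key j hj]
        rw [hm]
        by_cases hij : i = j
        · rw [if_pos hij, if_pos (by rw [hij])]
        · rw [if_neg hij, if_neg (fun h0 => hij (hc i hi j hj h0))]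
      · push Not at hν
        have e1 : S.filter (fun j => c j = ν) = ∅ := Finset.filter_false_of_mem hν
        rw [e1, Finset.sum_empty, mul_zero, if_neg (hν i hi)]
    · push Not at hμ
      have e1 : S.filter (fun j => c j = μ) = ∅ := Finset.filter_false_of_mem hμ
      simp only [e1, Finset.sum_empty, zero_mul]
      split_ifs <;> rfl
  · rw [Finset.sum_image hc, ← hs]
    exact Finset.sum_congr rfl fun i hi => key i hi
  · rw [Finset.sum_image hc]
    exact Finset.sum_congr rfl fun i hi => by simp only [key i hi]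
  · intro μ hμ
    have e1 : S.filter (fun j => c j = μ) = ∅ :=
      Finset.filter_false_of_mem fun j hj h0 => hμ (Finset.mem_image.2 ⟨j, hj, h0⟩)
    simp only [e1, Finset.sum_empty]

section sd

variable {τ : Matrix n n ℂ →ₗ[ℂ] Matrix n n ℂ} (I : Inv τ) {l : Matrix n n ℂ} {F : ℝ → Matrix n n ℂ} {Λ : Finset ℝ}
  (D : SD l F Λ) (hl : τ l = -l)
include I D hl

theorem sd_tau (μ : ℝ) : τ (F μ) = F (-μ) := by
  classical
  have a1 : ∀ μ, τ (F μ) * l = (-(μ : ℂ)) • τ (F μ) := by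
    intro μ
    have h1 := congrArg τ (D.l_mul μ)
    rw [I.mul, hl, mul_neg, map_smul] at h1
    rw [neg_smul, ← h1, neg_neg]
  have a2 : ∀ μ, l * τ (F μ) = (-(μ : ℂ)) • τ (F μ) := by
    intro μ
    have h1 := congrArg τ (D.mul_l μ)
    rw [I.mul, hl, neg_mul, map_smul] at h1
    rw [neg_smul, ← h1, neg_neg]
  have b1 : ∀ μ ν : ℝ, ν ≠ -μ → τ (F μ) * F ν = 0 := by
    intro μ ν hν
    have h1 : τ (F μ) * l * F ν = (ν : ℂ) • (τ (F μ) * F ν) := by rw [mul_assoc, D.l_mul, mul_smul_comm]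
    rw [a1, smul_mul_assoc] at h1
    have h2 : ((ν : ℂ) - (-(μ : ℂ))) • (τ (F μ) * F ν) = 0 := by rw [sub_smul, ← h1, sub_self]
    refine (smul_eq_zero.1 h2).resolve_left fun h3 => hν ?_
    have h4 := sub_eq_zero.1 h3
    exact_mod_cast h4
  have b2 : ∀ μ ν : ℝ, ν ≠ -μ → F ν * τ (F μ) = 0 := by
    intro μ ν hν
    have h1 : F ν * (l * τ (F μ)) = (ν : ℂ) • (F ν * τ (F μ)) := by rw [← mul_assoc, D.mul_l, smul_mul_assoc]
    rw [a2, mul_smul_comm] at h1
    have h2 : ((ν : ℂ) - (-(μ : ℂ))) • (F ν * τ (F μ)) = 0 := by rw [sub_smul, ← h1, sub_self]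
    refine (smul_eq_zero.1 h2).resolve_left fun h3 => hν ?_
    have h4 := sub_eq_zero.1 h3
    exact_mod_cast h4
  have c1 : ∀ μ, τ (F μ) * F (-μ) = τ (F μ) := by
    intro μ
    have h1 : τ (F μ) = τ (F μ) * ∑ ν ∈ Λ, F ν := by rw [D.sum, mul_one]
    conv_rhs => rw [h1]
    rw [Finset.mul_sum]
    by_cases h0 : (-μ) ∈ Λ
    · rw [Finset.sum_eq_single (-μ)]
      · intro ν _ hν
        exact b1 μ ν hν
      · intro h2
        exact absurd h0 h2
    · rw [D.supp h0, mul_zero]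
      symm
      refine Finset.sum_eq_zero fun ν hν => b1 μ ν ?_
      rintro rfl
      exact h0 hν
  have c2 : ∀ μ, F (-μ) * τ (F μ) = τ (F μ) := by
    intro μ
    have h1 : τ (F μ) = (∑ ν ∈ Λ, F ν) * τ (F μ) := by rw [D.sum, one_mul]
    conv_rhs => rw [h1]
    rw [Finset.sum_mul]
    by_cases h0 : (-μ) ∈ Λ
    · rw [Finset.sum_eq_single (-μ)]
      · intro ν _ hν
        exact b2 μ ν hν
      · intro h2
        exact absurd h0 h2
    · rw [D.supp h0, zero_mul]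
      symm
      refine Finset.sum_eq_zero fun ν hν => b2 μ ν ?_
      rintro rfl
      exact h0 hν
  have h3 := congrArg τ (c2 (-μ))
  rw [neg_neg, I.mul, I.inv] at h3
  -- h3 : F (-μ) * τ (F μ) = F (-μ)
  rw [← h3, c2]

theorem sd_rank_neg (μ : ℝ) : (F (-μ)).rank = (F μ).rank := by
  have h1 : ∀ μ, F μ * F μ = F μ := fun μ => by rw [D.mul, if_pos rfl]
  have h2 : (F (-μ)).trace = (F μ).trace := by rw [← sd_tau I D hl, I.tr]
  rw [trace_eq_rank (h1 _), trace_eq_rank (h1 _)] at h2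
  exact_mod_cast h2

theorem sd_neg_sum : ∑ μ ∈ Λ.filter (fun μ => μ < 0), (F μ).rank = ∑ μ ∈ Λ.filter (fun μ => 0 < μ), (F μ).rank := by
  classical
  have h0 : ∀ μ, μ ∉ Λ → (F μ).rank = 0 := fun μ hμ => by rw [D.supp hμ, Matrix.rank_zero]
  have e1 : ∀ (T : Finset ℝ), Λ ⊆ T → ∀ f : ℝ → Prop, ∀ _ : DecidablePred f,
      ∑ p ∈ Λ.filter f, (F p).rank = ∑ p ∈ T.filter f, (F p).rank := by
    intro T hT f _
    refine Finset.sum_subset (Finset.filter_subset_filter _ hT) ?_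
    intro p hp hp'
    apply h0
    intro hS
    exact hp' (Finset.mem_filter.2 ⟨hS, (Finset.mem_filter.1 hp).2⟩)
  set T := Λ ∪ Λ.image (fun μ => -μ) with hT
  have hTneg : ∀ μ ∈ T, -μ ∈ T := by
    intro μ hμ
    rcases Finset.mem_union.1 hμ with h | h
    · exact Finset.mem_union_right _ (Finset.mem_image_of_mem _ h)
    · obtain ⟨q, hq, rfl⟩ := Finset.mem_image.1 h
      exact Finset.mem_union_left _ (by rwa [neg_neg])
  rw [e1 T Finset.subset_union_left _ _, e1 T Finset.subset_union_left (fun μ => 0 < μ) _]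
  refine Finset.sum_nbij' (fun μ => -μ) (fun μ => -μ) ?_ ?_ ?_ ?_ ?_
  · intro μ hμ
    rw [Finset.mem_filter] at hμ ⊢
    exact ⟨hTneg μ hμ.1, by linarith [hμ.2]⟩
  · intro μ hμ
    rw [Finset.mem_filter] at hμ ⊢
    exact ⟨hTneg μ hμ.1, by linarith [hμ.2]⟩
  · intro μ _
    exact neg_neg μ
  · intro μ _
    exact neg_neg μ
  · intro μ _
    exact (sd_rank_neg I D hl μ).symm

theorem sd_card : Fintype.card n = (F 0).rank + 2 * ∑ μ ∈ Λ.filter (fun μ => 0 < μ), (F μ).rank := by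
  classical
  have h1 : ∀ μ, F μ * F μ = F μ := fun μ => by rw [D.mul, if_pos rfl]
  have h2 : Fintype.card n = ∑ μ ∈ Λ, (F μ).rank := by
    have h3 := congrArg Matrix.trace D.sum
    rw [Matrix.trace_sum, Matrix.trace_one, Finset.sum_congr rfl fun μ _ => trace_eq_rank (h1 μ)] at h3
    exact_mod_cast h3.symm
  have h4 : ∑ μ ∈ Λ, (F μ).rank = ∑ μ ∈ Λ.filter (fun μ => μ = 0), (F μ).rank +
      (∑ μ ∈ Λ.filter (fun μ => 0 < μ), (F μ).rank + ∑ μ ∈ Λ.filter (fun μ => μ < 0), (F μ).rank) := by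
    rw [Finset.sum_filter, Finset.sum_filter, Finset.sum_filter, ← Finset.sum_add_distrib, ← Finset.sum_add_distrib]
    refine Finset.sum_congr rfl fun p _ => ?_
    rcases lt_trichotomy p 0 with h | h | h
    · rw [if_neg (by linarith), if_neg (by linarith), if_pos h]
      omega
    · rw [if_pos h, if_neg (by linarith), if_neg (by linarith)]
      omega
    · rw [if_neg (by linarith), if_pos h, if_neg (by linarith)]
      omega
  have h3 : ∑ μ ∈ Λ.filter (fun μ => μ = 0), (F μ).rank = (F 0).rank := by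
    by_cases hm : (0 : ℝ) ∈ Λ
    · rw [Finset.filter_eq' Λ 0, if_pos hm, Finset.sum_singleton]
    · rw [Finset.filter_eq' Λ 0, if_neg hm, Finset.sum_empty, D.supp hm, Matrix.rank_zero]
  have h5 := sd_neg_sum I D hl
  omega

theorem sd_le {μ : ℝ} (hμ : μ ≠ 0) : (F μ).rank ≤ ∑ μ ∈ Λ.filter (fun μ => 0 < μ), (F μ).rank := by
  classical
  have key : ∀ μ : ℝ, 0 < μ → (F μ).rank ≤ ∑ μ ∈ Λ.filter (fun μ => 0 < μ), (F μ).rank := by
    intro μ hμ
    by_cases hS : μ ∈ Λ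
    · exact Finset.single_le_sum (f := fun μ => (F μ).rank) (fun _ _ => Nat.zero_le _)
        (Finset.mem_filter.2 ⟨hS, hμ⟩)
    · rw [D.supp hS, Matrix.rank_zero]
      exact Nat.zero_le _
  rcases lt_or_gt_of_ne hμ with h | h
  · rw [← sd_rank_neg I D hl μ]
    exact key _ (by linarith)
  · exact key μ h

theorem sd_big (h : (∑ μ ∈ Λ.filter (fun μ => 0 < μ), (F μ).rank) ^ 2 < (F 0).rank) :
    Big F (∑ μ ∈ Λ.filter (fun μ => 0 < μ), (F μ).rank) :=
  ⟨h, sd_card I D hl, fun _ hμ => sd_le I D hl hμ⟩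

end sd

end MH

namespace GH

open MH

variable {n : Type*} [Fintype n] [DecidableEq n] {L : Submodule ℂ (Matrix n n ℂ)} {h : Matrix n n ℂ}
  {E : ℝ → Matrix n n ℂ} {Λ : Finset ℝ}

theorem dat_of_form (G0 : Gr L h E Λ)
    (irr : ∀ T : Matrix n n ℂ, (∀ x ∈ L, T * x = x * T) → ∃ c : ℂ, T = c • (1 : Matrix n n ℂ))
    {F : Matrix n n ℂ} (hF0 : F ≠ 0) (hFs : Fᵀ = F) (hsk : ∀ x ∈ L, xᵀ * F + F * x = 0) :
    ∃ (Fi : Matrix n n ℂ) (τ : Matrix n n ℂ →ₗ[ℂ] Matrix n n ℂ), Fi * F = 1 ∧ (∀ x, τ x = Fi * xᵀ * F) ∧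
      Dat τ L h E Λ := by
  classical
  have e0 : ∀ x : Matrix n n ℂ, ((xᴴ)ᵀ)ᴴ = xᵀ := by
    intro x
    ext i j
    simp [Matrix.conjTranspose_apply, Matrix.transpose_apply]
  have e1 : ∀ x ∈ L, Fᴴ * xᵀ = -(x * Fᴴ) := by
    intro x hx
    have h1 := congrArg Matrix.conjTranspose (eq_neg_of_add_eq_zero_left (hsk _ (G0.st x hx)))
    rw [Matrix.conjTranspose_mul, e0, Matrix.conjTranspose_neg, Matrix.conjTranspose_mul,
      Matrix.conjTranspose_conjTranspose] at h1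
    exact h1
  obtain ⟨c, hc⟩ := irr (Fᴴ * F) fun x hx => by
    have h1 : F * x = -(xᵀ * F) := eq_neg_of_add_eq_zero_right (hsk x hx)
    calc Fᴴ * F * x = -(Fᴴ * xᵀ * F) := by rw [mul_assoc, h1, mul_neg, mul_assoc]
      _ = x * (Fᴴ * F) := by rw [e1 x hx, neg_mul, neg_neg, mul_assoc]
  have hc0 : c ≠ 0 := by
    rintro rfl
    rw [zero_smul, Matrix.conjTranspose_mul_self_eq_zero] at hc
    exact hF0 hc
  obtain ⟨i0, _⟩ : ∃ i : n, True := by
    by_contra hcon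
    push Not at hcon
    exact hF0 (by ext i; exact (hcon i).elim)
  have hcs : star c = c := by
    have h1 := congrArg Matrix.conjTranspose hc
    rw [Matrix.conjTranspose_mul, Matrix.conjTranspose_conjTranspose, hc, Matrix.conjTranspose_smul,
      Matrix.conjTranspose_one] at h1
    have h2 := congrFun (congrFun h1 i0) i0
    simpa using h2.symm
  have hFi : (c⁻¹ • Fᴴ) * F = 1 := by rw [smul_mul_assoc, hc, smul_smul, inv_mul_cancel₀ hc0, one_smul]
  have hFi2 : F * (c⁻¹ • Fᴴ) = 1 := mul_eq_one_comm.1 hFi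
  have hFis : (c⁻¹ • Fᴴ)ᵀ = c⁻¹ • Fᴴ := by
    have h1 : (c⁻¹ • Fᴴ)ᵀ * F = 1 := by
      have h2 := congrArg Matrix.transpose hFi2
      rwa [Matrix.transpose_mul, hFs, Matrix.transpose_one] at h2
    calc (c⁻¹ • Fᴴ)ᵀ = (c⁻¹ • Fᴴ)ᵀ * (F * (c⁻¹ • Fᴴ)) := by rw [hFi2, mul_one]
      _ = _ := by rw [← mul_assoc, h1, one_mul]
  let τ : Matrix n n ℂ →ₗ[ℂ] Matrix n n ℂ :=
    { toFun := fun x => (c⁻¹ • Fᴴ) * xᵀ * F
      map_add' := fun x y => by rw [Matrix.transpose_add, mul_add, add_mul]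
      map_smul' := fun a x => by
        rw [Matrix.transpose_smul, mul_smul_comm, smul_mul_assoc]
        rfl }
  have hτ : ∀ x, τ x = (c⁻¹ • Fᴴ) * xᵀ * F := fun x => rfl
  refine ⟨c⁻¹ • Fᴴ, τ, hFi, hτ, ⟨?_, ?_, ?_, ?_⟩, G0.spec, ?_, G0.br, G0.st, irr, G0.mem⟩
  · intro x y
    rw [hτ, hτ, hτ, Matrix.transpose_mul]
    calc (c⁻¹ • Fᴴ) * (yᵀ * xᵀ) * F = (c⁻¹ • Fᴴ) * yᵀ * 1 * xᵀ * F := by
          rw [mul_one]
          simp only [mul_assoc]
      _ = _ := by
        rw [← hFi2]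
        simp only [mul_assoc]
  · intro x
    rw [hτ, hτ, Matrix.transpose_mul, Matrix.transpose_mul, Matrix.transpose_transpose, hFs, hFis]
    calc (c⁻¹ • Fᴴ) * (F * (x * (c⁻¹ • Fᴴ))) * F = ((c⁻¹ • Fᴴ) * F) * x * ((c⁻¹ • Fᴴ) * F) := by
          simp only [mul_assoc]
      _ = x := by rw [hFi, one_mul, mul_one]
  · intro x
    rw [hτ, hτ, Matrix.conjTranspose_mul, Matrix.conjTranspose_mul, Matrix.conjTranspose_smul,
      Matrix.conjTranspose_conjTranspose]
    have e3 : (xᵀ)ᴴ = (xᴴ)ᵀ := by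
      ext i j
      simp [Matrix.conjTranspose_apply, Matrix.transpose_apply]
    have e4 : star c⁻¹ = c⁻¹ := by rw [star_inv₀, hcs]
    rw [e3, e4, smul_mul_assoc, smul_mul_assoc, mul_smul_comm, mul_smul_comm, mul_assoc]
  · intro x
    rw [hτ, Matrix.trace_mul_comm, ← mul_assoc, hFi2, one_mul, Matrix.trace_transpose]
  · intro x hx
    rw [hτ, mul_assoc, eq_neg_of_add_eq_zero_left (hsk x hx), mul_neg, ← mul_assoc, hFi, one_mul]

end GH
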