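import Pool.Agent.Helper14.GH.HW6
import Pool.Agent.Helper14.GH.Orth
import Pool.Agent.Helper14.GH.Sd
import Pool.Agent.Helper54.TR.EC
import Pool.Agent.Helper98.MH.Sml3
import Pool.Agent.Helper21.MH.Mul

/-!
Project GH (MP_b8862a_ag): the blocks with a symmetric form of a Hodge structure of even weight, with a dominating
middle number.
-/

set_option linter.unusedSectionVars false

open Matrix GH

namespace MH

variable {n : Type*} [Fintype n] [DecidableEq n]
variable {m w : ℤ} {Q : Matrix n n ℚ} {S : Finset ℤ} {P : ℤ → Matrix n n ℂ}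

/-- all skew matrices of the block come from the Lie algebra -/
def FullO (Q : Matrix n n ℚ) (S : Finset ℤ) (P : ℤ → Matrix n n ℂ) (e x : Matrix n n ℂ) : Prop :=
  ∀ X : Matrix n n ℂ, e * X * e = X → Xᵀ * (eᵀ * (toC Q * x) * e) + eᵀ * (toC Q * x) * e * X = 0 →
    ∃ Y ∈ LH Q S P, Y * e = X

/-- same range -/
theorem FullO.of_range {e e' x : Matrix n n ℂ} (hF : FullO Q S P e x) (h1 : e * e' = e') (h2 : e' * e = e) :
    FullO Q S P e' x := by
  intro X' hX' hs
  have hee : e * e = e := by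
    calc e * e = e * (e' * e) := by rw [h2]
      _ = e' * e := by rw [← mul_assoc, h1]
      _ = e := h2
  have hee' : e' * e' = e' := by
    calc e' * e' = e' * (e * e') := by rw [h1]
      _ = e * e' := by rw [← mul_assoc, h2]
      _ = e' := h1
  have l1 : e' * X' = X' := by
    rw [← hX', ← mul_assoc, ← mul_assoc, hee']
  have l2 : X' * e' = X' := by
    rw [← hX', mul_assoc, hee']
  have l3 : e * X' = X' := by rw [← l1, ← mul_assoc, h1]
  obtain ⟨Y, hY, hYX⟩ := hF (X' * e) (by rw [← mul_assoc, l3, mul_assoc, hee]) (by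
    have e1 : (X' * e)ᵀ * (eᵀ * (toC Q * x) * e) + eᵀ * (toC Q * x) * e * (X' * e) =
        eᵀ * (X'ᵀ * (toC Q * x) + (toC Q * x) * X') * e := by
      have a1 : (X' * e)ᵀ * eᵀ = eᵀ * X'ᵀ := by
        rw [Matrix.transpose_mul, mul_assoc, ← Matrix.transpose_mul, l3]
      calc (X' * e)ᵀ * (eᵀ * (toC Q * x) * e) + eᵀ * (toC Q * x) * e * (X' * e)
          = ((X' * e)ᵀ * eᵀ) * (toC Q * x) * e + eᵀ * (toC Q * x) * (e * X') * e := by simp only [mul_assoc]
        _ = _ := by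
          rw [a1, l3, mul_add, add_mul]
          simp only [mul_assoc]
    have e2 : eᵀ * (X'ᵀ * (toC Q * x) + (toC Q * x) * X') * e =
        eᵀ * (X'ᵀ * (e'ᵀ * (toC Q * x) * e') + e'ᵀ * (toC Q * x) * e' * X') * e := by
      have a1 : X'ᵀ * e'ᵀ = X'ᵀ := by rw [← Matrix.transpose_mul, l1]
      have a2 : eᵀ * e'ᵀ = eᵀ := by rw [← Matrix.transpose_mul, h2]
      rw [mul_add, add_mul, mul_add, add_mul]
      congr 1
      · calc eᵀ * (X'ᵀ * (toC Q * x)) * e = eᵀ * (X'ᵀ * (toC Q * x)) * (e' * e) := by rw [h2]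
          _ = eᵀ * ((X'ᵀ * e'ᵀ) * (toC Q * x)) * (e' * e) := by rw [a1]
          _ = _ := by simp only [mul_assoc]
      · calc eᵀ * ((toC Q * x) * X') * e = (eᵀ * e'ᵀ) * ((toC Q * x) * X') * e := by rw [a2]
          _ = (eᵀ * e'ᵀ) * ((toC Q * x) * (e' * X')) * e := by rw [l1]
          _ = _ := by simp only [mul_assoc]
    rw [e1, e2, hs, mul_zero, zero_mul])
  refine ⟨Y, hY, ?_⟩
  calc Y * e' = Y * (e * e') := by rw [h1]
    _ = X' * e * e' := by rw [← mul_assoc, hYX]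
    _ = X' := by rw [mul_assoc, h1, l2]

theorem FullO.aut (σ : ℂ ≃+* ℂ) {e x : Matrix n n ℂ} (hF : FullO Q S P e x) :
    FullO Q S P (e.map σ) (x.map σ) := by
  intro X hX hs
  have hQ : ∀ τ : ℂ ≃+* ℂ, (toC Q).map τ = toC Q := by
    intro τ
    ext i j
    simp [toC]
  have hQx : toC Q * x.map σ = (toC Q * x).map σ := by rw [map_mulσ, hQ]
  have ht : ∀ (τ : ℂ ≃+* ℂ) (y : Matrix n n ℂ), (y.map τ)ᵀ = yᵀ.map τ := fun τ y => rfl
  have hadd : ∀ (τ : ℂ ≃+* ℂ) (y z : Matrix n n ℂ), (y + z).map τ = y.map τ + z.map τ := by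
    intro τ y z
    ext i j
    simp
  have hz : ∀ (τ : ℂ ≃+* ℂ), (0 : Matrix n n ℂ).map τ = 0 := by
    intro τ
    ext i j
    simp
  obtain ⟨Y, hY, hYX⟩ := hF (X.map σ.symm) (by
      have h1 := congrArg (fun Z : Matrix n n ℂ => Z.map σ.symm) hX
      simp only [map_mulσ, map_symmσ'] at h1
      exact h1) (by
      have h1 := congrArg (fun Z : Matrix n n ℂ => Z.map σ.symm) hs
      rw [hQx] at h1
      simp only [map_mulσ, hadd, ht, map_symmσ', hz, hQ] at h1
      exact h1)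
  refine ⟨Y.map σ, LH_aut σ hY, ?_⟩
  rw [← map_mulσ, hYX, map_symmσ]

theorem OrthB.aut (σ : ℂ ≃+* ℂ) {e : Matrix n n ℂ} (h : OrthB Q P e) : OrthB Q P (e.map σ) := by
  obtain ⟨x, hx, hxs, hx0⟩ := h
  have hQ : (toC Q).map σ = toC Q := by
    ext i j
    simp [toC]
  have ht : ∀ (y : Matrix n n ℂ), (y.map σ)ᵀ = yᵀ.map σ := fun y => rfl
  refine ⟨x.map σ, EC_aut σ hx, ?_, ?_⟩
  · have h1 := congrArg (fun Z : Matrix n n ℂ => Z.map σ) hxs
    simp only [map_mulσ, hQ] at h1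
    exact h1
  · intro h0
    apply hx0
    have h1 : (eᵀ * (toC Q * x) * e).map σ = 0 := by
      simp only [map_mulσ, hQ]
      exact h0
    rw [← map_symmσ' σ (eᵀ * (toC Q * x) * e), h1]
    ext i j
    simp

namespace IsHW

variable (H : IsHW w Q S P)
include H

section basis

variable {B Bi : Matrix n n ℂ} (h1 : B * Bi = 1) (h2 : Bi * B = 1) (hM : Mw w Q S P = Bᴴ * B)
include h1 h2 hM

theorem LB_com {e : Matrix n n ℂ} (he : e ∈ EC P) : ∀ x ∈ LB Q S P B Bi, x * cj B Bi e = cj B Bi e * x := by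
  intro x hx
  have h5 := H.LH_EC (mem_LB.1 hx) he
  have h6 := congrArg (cj B Bi) h5
  rwa [← cj_mul h2, ← cj_mul h2, cj_cj h1] at h6

theorem blk_irr {e : Matrix n n ℂ} (he : IsBlk P e) {k : Type*} [Fintype k] [DecidableEq k]
    {u : Matrix n k ℂ} (hu : uᴴ * u = 1) (huu : u * uᴴ = cj B Bi e) (T : Matrix k k ℂ)
    (hT : ∀ x ∈ cpL u uᴴ (LB Q S P B Bi), T * x = x * T) : ∃ c : ℂ, T = c • (1 : Matrix k k ℂ) := by
  have hcL := H.LB_com h1 h2 hM he.mem
  have h5 : cj Bi B (u * T * uᴴ) ∈ EC P := by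
    refine H.EC_of_LH fun Y hY => ?_
    have hY' : cj B Bi Y ∈ LB Q S P B Bi := by rw [mem_LB, cj_cj h2]; exact hY
    have a5 := cp_comm hu huu (hcL _ hY') (hT _ ⟨_, hY', rfl⟩)
    have a6 := congrArg (cj Bi B) a5
    rw [← cj_mul h1, ← cj_mul h1, cj_cj h2] at a6
    exact a6
  obtain ⟨c', hc'⟩ := he.min _ h5
  refine ⟨c', ?_⟩
  apply cp_scalar hu huu
  have a7 := congrArg (cj B Bi) hc'
  rw [← cj_mul h2, ← cj_mul h2, cj_cj h1, cj_smul] at a7
  rw [← a7, cp_lift_left hu huu, cp_lift_right hu huu]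

/-- the invariant form in the coordinates of the block -/
theorem blk_form (hQs : (toC Q)ᵀ = toC Q) {e x : Matrix n n ℂ} (he : IsBlk P e) (hx : x ∈ EC P)
    (hxs : xᵀ * toC Q = toC Q * x) (hx0 : eᵀ * (toC Q * x) * e ≠ 0) {k : Type*} [Fintype k] [DecidableEq k]
    {u : Matrix n k ℂ} (hu : uᴴ * u = 1) (huu : u * uᴴ = cj B Bi e) :
    uᵀ * (Biᵀ * (toC Q * x) * Bi) * u ≠ 0 ∧
      (uᵀ * (Biᵀ * (toC Q * x) * Bi) * u)ᵀ = uᵀ * (Biᵀ * (toC Q * x) * Bi) * u ∧
      ∀ y ∈ cpL u uᴴ (LB Q S P B Bi), yᵀ * (uᵀ * (Biᵀ * (toC Q * x) * Bi) * u) +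
        uᵀ * (Biᵀ * (toC Q * x) * Bi) * u * y = 0 := by
  have hcL := H.LB_com h1 h2 hM he.mem
  have hB : Bi * cj B Bi e = e * Bi := by
    unfold cj
    calc Bi * (B * e * Bi) = (Bi * B) * e * Bi := by simp only [mul_assoc]
      _ = e * Bi := by rw [h2, one_mul]
  refine ⟨?_, ?_, ?_⟩
  · intro h0
    apply hx0
    have a1 : (uᴴ)ᵀ * (uᵀ * (Biᵀ * (toC Q * x) * Bi) * u) * uᴴ = Biᵀ * (eᵀ * (toC Q * x) * e) * Bi := by
      calc (uᴴ)ᵀ * (uᵀ * (Biᵀ * (toC Q * x) * Bi) * u) * uᴴ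
          = (Bi * (u * uᴴ))ᵀ * (toC Q * x) * (Bi * (u * uᴴ)) := by
            rw [Matrix.transpose_mul, Matrix.transpose_mul]
            simp only [Matrix.mul_assoc]
        _ = _ := by
          rw [huu, hB, Matrix.transpose_mul]
          simp only [Matrix.mul_assoc]
    rw [h0, Matrix.mul_zero, Matrix.zero_mul] at a1
    calc eᵀ * (toC Q * x) * e = (Bᵀ * Biᵀ) * (eᵀ * (toC Q * x) * e) * (Bi * B) := by
          rw [← Matrix.transpose_mul, h2, Matrix.transpose_one, one_mul, mul_one]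
      _ = Bᵀ * (Biᵀ * (eᵀ * (toC Q * x) * e) * Bi) * B := by simp only [mul_assoc]
      _ = 0 := by rw [← a1, mul_zero, zero_mul]
  · rw [Matrix.transpose_mul, Matrix.transpose_mul, Matrix.transpose_mul, Matrix.transpose_mul, Matrix.transpose_mul,
      Matrix.transpose_transpose, Matrix.transpose_transpose, hQs, hxs]
    simp only [Matrix.mul_assoc]
  · rintro _ ⟨z, hz, rfl⟩
    have hX : cj Bi B z ∈ LH Q S P := mem_LB.1 hz
    set X := cj Bi B z with hXdef
    have hzX : z = cj B Bi X := by rw [hXdef, cj_cj h1]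
    have a1 : u * (uᴴ * z * u) = z * u := by
      calc u * (uᴴ * z * u) = (u * uᴴ) * z * u := by simp only [Matrix.mul_assoc]
        _ = z * (cj B Bi e * u) := by rw [huu, ← hcL z hz, Matrix.mul_assoc]
        _ = z * u := by rw [cp_ew hu huu]
    have a2 : Bi * z = X * Bi := by
      rw [hzX]
      unfold cj
      calc Bi * (B * X * Bi) = (Bi * B) * X * Bi := by simp only [mul_assoc]
        _ = X * Bi := by rw [h2, one_mul]
    have a3 : (uᴴ * z * u)ᵀ * uᵀ = uᵀ * zᵀ := by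
      rw [← Matrix.transpose_mul, a1, Matrix.transpose_mul]
    have a4 : zᵀ * Biᵀ = Biᵀ * Xᵀ := by rw [← Matrix.transpose_mul, a2, Matrix.transpose_mul]
    have e1 : Xᵀ * toC Q = -(toC Q * X) := eq_neg_of_add_eq_zero_left hX.1
    have e2 : X * x = x * X := H.LH_EC hX hx
    calc (uᴴ * z * u)ᵀ * (uᵀ * (Biᵀ * (toC Q * x) * Bi) * u) + uᵀ * (Biᵀ * (toC Q * x) * Bi) * u * (uᴴ * z * u)
        = ((uᴴ * z * u)ᵀ * uᵀ) * (Biᵀ * (toC Q * x) * Bi) * u + uᵀ * (Biᵀ * (toC Q * x) * Bi) * (u * (uᴴ * z * u)) := by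
          simp only [Matrix.mul_assoc]
      _ = uᵀ * (zᵀ * Biᵀ) * (toC Q * x) * Bi * u + uᵀ * (Biᵀ * (toC Q * x)) * (Bi * z) * u := by
          rw [a3, a1]
          simp only [Matrix.mul_assoc]
      _ = uᵀ * Biᵀ * ((Xᵀ * toC Q) * x) * Bi * u + uᵀ * Biᵀ * (toC Q * (x * X)) * Bi * u := by
          rw [a2, a4]
          simp only [Matrix.mul_assoc]
      _ = 0 := by
        rw [e1, ← e2, ← Matrix.add_mul, ← Matrix.add_mul, ← Matrix.mul_add, neg_mul, mul_assoc, neg_add_cancel,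
          Matrix.mul_zero, Matrix.zero_mul, Matrix.zero_mul]

/-- the conjugates of `hw` on the block -/
theorem conj_sd {e : Matrix n n ℂ} (he : IsBlk P e) {k : Type*} [Fintype k] [DecidableEq k]
    {u : Matrix n k ℂ} (hu : uᴴ * u = 1) (huu : u * uᴴ = cj B Bi e) (σ : ℂ ≃+* ℂ) :
    ∃ F : ℝ → Matrix k k ℂ, SD (uᴴ * cj B Bi ((hw w S P).map σ) * u) F (LamW w S) ∧
      (∀ p : ℤ, (F ((2 * p - w : ℤ) : ℝ)).rank = (e.map σ.symm * P p).rank) ∧
      (∀ μ, μ ∉ LamW w S → F μ = 0) := by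
  classical
  set e' := cj B Bi e with he'
  have hPP : ∀ p, P p * P p = P p := fun p => by rw [H.mul, if_pos rfl]
  have hf := he.aut σ.symm
  have hσP : ∀ p, e * (P p).map σ = (e.map σ.symm * P p).map σ := by
    intro p
    rw [map_mulσ, map_symmσ]
  have hσc : ∀ p, (P p).map σ * e = e * (P p).map σ := by
    intro p
    have h5 := EC_P hf.mem p
    rw [hσP, h5, map_mulσ, map_symmσ]
  have hσid : ∀ p, (P p).map σ * (P p).map σ = (P p).map σ := by
    intro p
    rw [← map_mulσ, hPP]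
  have hfP : ∀ p, (e.map σ.symm * P p) * (e.map σ.symm * P p) = e.map σ.symm * P p := by
    intro p
    have h5 := EC_P hf.mem p
    calc (e.map σ.symm * P p) * (e.map σ.symm * P p) = e.map σ.symm * (P p * e.map σ.symm) * P p := by
          simp only [mul_assoc]
      _ = (e.map σ.symm * e.map σ.symm) * (P p * P p) := by rw [← h5]; simp only [mul_assoc]
      _ = _ := by rw [hf.idem, hPP]
  have rσ : ∀ p, (e * (P p).map σ).rank = (e.map σ.symm * P p).rank := by
    intro p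
    rw [hσP, rank_aut σ (hfP p)]
  have hF : ∀ F : Matrix n n ℂ, F * F = F → F * e = e * F → (uᴴ * cj B Bi F * u).rank = (e * F).rank := by
    intro F hF hFe
    have a1 : cj B Bi F * cj B Bi F = cj B Bi F := by rw [cj_mul h2, hF]
    have a2 : cj B Bi F * e' = e' * cj B Bi F := by rw [he', cj_mul h2, cj_mul h2, hFe]
    rw [cp_rank hu huu a1 a2, he', cj_mul h2]
    refine rank_cj h1 h2 ?_
    calc (e * F) * (e * F) = e * (F * e) * F := by simp only [mul_assoc]
      _ = (e * e) * (F * F) := by rw [hFe]; simp only [mul_assoc]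
      _ = e * F := by rw [he.idem, hF]
  set F : ℤ → Matrix k k ℂ := fun p => uᴴ * cj B Bi ((P p).map σ) * u with hFdef
  have hFm : ∀ i j, F i * F j = if i = j then F i else 0 := by
    intro i j
    rw [hFdef]
    simp only
    rw [cp_mul hu huu (by rw [he', cj_mul h2, cj_mul h2, hσc]), cj_mul h2, ← map_mulσ, H.mul]
    split_ifs with hij
    · rfl
    · rw [Matrix.map_zero _ (map_zero _), cj_zero, Matrix.mul_zero, Matrix.zero_mul]
  have hFs : ∑ i ∈ S, F i = 1 := by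
    rw [hFdef]
    simp only
    rw [← Matrix.sum_mul, ← Matrix.mul_sum, ← cj_sum]
    have a1 : ∑ i ∈ S, (P i).map σ = 1 := by
      have a2 := congrArg (fun Y : Matrix n n ℂ => Y.map σ) H.sum
      simp only [Matrix.map_one _ (map_zero _) (map_one _)] at a2
      rw [← a2]
      ext i j
      simp [Matrix.sum_apply, map_sum]
    rw [a1, cj_one h1, Matrix.mul_one, hu]
  have hseq : uᴴ * cj B Bi ((hw w S P).map σ) * u = ∑ i ∈ S, ((((2 * i - w : ℤ) : ℝ) : ℝ) : ℂ) • F i := by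
    have a1 : (hw w S P).map σ = ∑ i ∈ S, ((((2 * i - w : ℤ) : ℝ) : ℝ) : ℂ) • (P i).map σ := by
      unfold hw
      ext i j
      simp only [Matrix.map_apply, Matrix.sum_apply, Matrix.smul_apply, smul_eq_mul, map_sum, map_mul,
        map_intCast, Complex.ofReal_intCast]
    rw [a1, cj_sum, Matrix.mul_sum, Matrix.sum_mul]
    refine Finset.sum_congr rfl fun i _ => ?_
    rw [cj_smul, Matrix.mul_smul, Matrix.smul_mul]
  obtain ⟨F', hSD, hF1, hF0⟩ := sd_of (S := S) (F := F) (c := fun i : ℤ => ((2 * i - w : ℤ) : ℝ))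
    (fun i hi j hj h => castW_inj w i hi j hj h) hFm hFs
  refine ⟨F', ?_, ?_, hF0⟩
  · rw [hseq]
    exact hSD
  · intro p
    by_cases hp : p ∈ S
    · rw [hF1 p hp, ← rσ]
      exact hF _ (hσid p) (hσc p)
    · rw [H.supp p hp, mul_zero, Matrix.rank_zero, hF0, Matrix.rank_zero]
      intro h0
      obtain ⟨q, hq, hqp⟩ := Finset.mem_image.1 h0
      have h3 : (2 * q - w : ℤ) = 2 * p - w := by exact_mod_cast hqp
      exact hp (by rwa [show p = q by omega])

end basis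

end IsHW

end MH
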