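import Pool.Agent.Helper14.GH.HW7
import Pool.Agent.Helper67.TR.Cmp

/-!
Project GH (MP_b8862a_ag): the blocks with a symmetric form are full.
-/

set_option linter.unusedSectionVars false

open Matrix GH

namespace MH

variable {n : Type*} [Fintype n] [DecidableEq n]
variable {m w : ℤ} {Q : Matrix n n ℚ} {S : Finset ℤ} {P : ℤ → Matrix n n ℂ}

/-- numbers above the middle -/
theorem sum_LamW {k : Type*} [Fintype k] [DecidableEq k] {F : ℝ → Matrix k k ℂ} {r : ℤ → ℕ}
    (hF : ∀ p : ℤ, (F ((2 * p - w : ℤ) : ℝ)).rank = r p) (hw2 : w = 2 * m) :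
    ∑ μ ∈ (LamW w S).filter (fun μ => 0 < μ), (F μ).rank = ∑ p ∈ S.filter (fun p => m < p), r p := by
  classical
  unfold LamW
  rw [Finset.sum_filter, Finset.sum_image (castW_inj w), Finset.sum_filter]
  refine Finset.sum_congr rfl fun p _ => ?_
  have e4 : (0 : ℝ) < ((2 * p - w : ℤ) : ℝ) ↔ m < p := by
    rw [← Int.cast_zero, Int.cast_lt]
    omega
  simp only [e4, hF]

theorem map_reflσ (e : Matrix n n ℂ) : e.map (RingEquiv.refl ℂ) = e := by
  ext i j
  simp

namespace IsHW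

variable (H : IsHW w Q S P)
include H

theorem Q_symm_even (hw2 : w = 2 * m) : (toC Q)ᵀ = toC Q := by
  rw [H.Q_symm, hw2, Even.neg_one_zpow ⟨m, by ring⟩, one_smul]

section basis

variable {B Bi : Matrix n n ℂ} (h1 : B * Bi = 1) (h2 : Bi * B = 1) (hM : Mw w Q S P = Bᴴ * B)
include h1 h2 hM

theorem blk_rank {e : Matrix n n ℂ} (he : IsBlk P e) {k : Type*} [Fintype k] [DecidableEq k]
    {u : Matrix n k ℂ} (hu : uᴴ * u = 1) (huu : u * uᴴ = cj B Bi e) (p : ℤ) :
    (uᴴ * EW w S P B Bi ((2 * p - w : ℤ) : ℝ) * u).rank = (e * P p).rank := by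
  have hPP : P p * P p = P p := by rw [H.mul, if_pos rfl]
  have hPe := EC_P he.mem p
  rw [H.EW_int]
  have a1 : cj B Bi (P p) * cj B Bi (P p) = cj B Bi (P p) := by rw [cj_mul h2, hPP]
  have a2 : cj B Bi (P p) * cj B Bi e = cj B Bi e * cj B Bi (P p) := by rw [cj_mul h2, cj_mul h2, hPe]
  rw [cp_rank hu huu a1 a2, cj_mul h2]
  refine rank_cj h1 h2 ?_
  calc (e * P p) * (e * P p) = e * (P p * e) * P p := by simp only [mul_assoc]
    _ = (e * e) * (P p * P p) := by rw [← hPe]; simp only [mul_assoc]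
    _ = e * P p := by rw [he.idem, hPP]

theorem orth_full (hw2 : w = 2 * m) {e x : Matrix n n ℂ} (he : IsBlk P e) (hes : (cj B Bi e)ᴴ = cj B Bi e)
    (hx : x ∈ EC P) (hxs : xᵀ * toC Q = toC Q * x) (hx0 : eᵀ * (toC Q * x) * e ≠ 0) (hs : 2 ≤ sB m S P e)
    (hc : ∀ σ : ℂ ≃+* ℂ, e.map σ * P m = e.map σ ∨ sB m S P (e.map σ) ^ 2 < (e.map σ * P m).rank) :
    FullO Q S P e x := by
  classical
  have hPP : ∀ p, P p * P p = P p := fun p => by rw [H.mul, if_pos rfl]
  have hee' : cj B Bi e * cj B Bi e = cj B Bi e := by rw [cj_mul h2, he.idem]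
  obtain ⟨k, u, hu, huu⟩ : ∃ (k : ℕ) (u : Matrix n (Fin k) ℂ), uᴴ * u = 1 ∧ u * uᴴ = cj B Bi e :=
    ⟨_, exists_onbE hee' hes⟩
  obtain ⟨hF0, hFs, hsk⟩ := H.blk_form h1 h2 hM (H.Q_symm_even hw2) he hx hxs hx0 hu huu
  have hcL := H.LB_com h1 h2 hM he.mem
  obtain ⟨E', r1, G0⟩ : ∃ E' : ℝ → Matrix (Fin k) (Fin k) ℂ,
      (∀ p : ℤ, (E' ((2 * p - w : ℤ) : ℝ)).rank = (e * P p).rank) ∧
      Gr (cpL u uᴴ (LB Q S P B Bi)) (uᴴ * cj B Bi (hw w S P) * u) E' (LamW w S) :=
    ⟨fun μ => uᴴ * EW w S P B Bi μ * u, H.blk_rank h1 h2 hM he hu huu,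
      (H.grW h1 h2 hM).compress hu huu hcL⟩
  obtain ⟨Fi, τ, hFi, hτ, D⟩ := dat_of_form G0 (H.blk_irr h1 h2 hM he hu huu) hF0 hFs hsk
  have hzero : e * P m = e → ∀ p, p ≠ m → e * P p = 0 := by
    intro h0 p hp
    rw [← h0, mul_assoc, H.mul, if_neg (Ne.symm hp), mul_zero]
  have hPpr : (Pp E' (LamW w S)).rank = sB m S P e := by
    rw [D.rank_Pp]
    exact sum_LamW r1 hw2
  have hs1 : 2 ≤ (Pp E' (LamW w S)).rank := by
    rw [hPpr]
    exact hs
  have hb1 : (Pp E' (LamW w S)).rank ^ 2 < (E' 0).rank := by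
    rw [hPpr]
    have r0 := r1 m
    rw [show (2 * m - w : ℤ) = 0 by omega, Int.cast_zero] at r0
    rw [r0]
    rcases hc (RingEquiv.refl ℂ) with h0 | h0
    · exfalso
      rw [map_reflσ] at h0
      have h3 : sB m S P e = 0 := by
        unfold sB
        refine Finset.sum_eq_zero fun p hp => ?_
        rw [hzero h0 p (ne_of_gt (Finset.mem_filter.1 hp).2), Matrix.rank_zero]
      omega
    · rw [map_reflσ] at h0
      exact h0
  have hTP := D.units3 hFi hFs hτ (fun hK => D.bound3 hK hs1) hs1 hb1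
  intro X hX hXs
  set y := uᴴ * cj B Bi X * u with hy
  have hlift : u * y * uᴴ = cj B Bi X := by
    calc u * (uᴴ * cj B Bi X * u) * uᴴ = (u * uᴴ) * cj B Bi X * (u * uᴴ) := by simp only [Matrix.mul_assoc]
      _ = cj B Bi X := by rw [huu, cj_mul h2, cj_mul h2, hX]
  have hτy : τ y = -y := by
    have a0 : e * X = X := by rw [← hX, ← mul_assoc, ← mul_assoc, he.idem]
    have a0' : X * e = X := by rw [← hX, mul_assoc, he.idem]
    have a1 : u * y = cj B Bi X * u := by
      calc u * y = u * y * (uᴴ * u) := by rw [hu, Matrix.mul_one]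
        _ = (u * y * uᴴ) * u := by simp only [Matrix.mul_assoc]
        _ = _ := by rw [hlift]
    have a2 : yᵀ * uᵀ = uᵀ * (cj B Bi X)ᵀ := by rw [← Matrix.transpose_mul, a1, Matrix.transpose_mul]
    have a3 : Bi * cj B Bi X = X * Bi := by
      unfold cj
      calc Bi * (B * X * Bi) = (Bi * B) * X * Bi := by simp only [mul_assoc]
        _ = X * Bi := by rw [h2, one_mul]
    have a4 : (cj B Bi X)ᵀ * Biᵀ = Biᵀ * Xᵀ := by rw [← Matrix.transpose_mul, a3, Matrix.transpose_mul]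
    have a6 : cj B Bi e * u = u := cp_ew hu huu
    have a7 : e * (Bi * u) = Bi * u := by
      have a8 : Bi * cj B Bi e = e * Bi := by
        unfold cj
        calc Bi * (B * e * Bi) = (Bi * B) * e * Bi := by simp only [mul_assoc]
          _ = e * Bi := by rw [h2, one_mul]
      rw [← Matrix.mul_assoc, ← a8, Matrix.mul_assoc, a6]
    have a9 : uᵀ * Biᵀ * eᵀ = uᵀ * Biᵀ := by
      rw [← Matrix.transpose_mul, ← Matrix.transpose_mul, a7]
    have a5 : yᵀ * (uᵀ * (Biᵀ * (toC Q * x) * Bi) * u) + uᵀ * (Biᵀ * (toC Q * x) * Bi) * u * y = 0 := by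
      calc yᵀ * (uᵀ * (Biᵀ * (toC Q * x) * Bi) * u) + uᵀ * (Biᵀ * (toC Q * x) * Bi) * u * y
          = (yᵀ * uᵀ) * (Biᵀ * (toC Q * x) * Bi) * u + uᵀ * (Biᵀ * (toC Q * x) * Bi) * (u * y) := by
            simp only [Matrix.mul_assoc]
        _ = uᵀ * ((cj B Bi X)ᵀ * Biᵀ) * (toC Q * x) * Bi * u + uᵀ * Biᵀ * (toC Q * x) * (Bi * cj B Bi X) * u := by
            rw [a2, a1]
            simp only [Matrix.mul_assoc]
        _ = (uᵀ * Biᵀ) * (Xᵀ * (toC Q * x)) * (Bi * u) + (uᵀ * Biᵀ) * ((toC Q * x) * X) * (Bi * u) := by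
            rw [a4, a3]
            simp only [Matrix.mul_assoc]
        _ = (uᵀ * Biᵀ * eᵀ) * (Xᵀ * (toC Q * x)) * (e * (Bi * u)) +
            (uᵀ * Biᵀ * eᵀ) * ((toC Q * x) * X) * (e * (Bi * u)) := by rw [a9, a7]
        _ = (uᵀ * Biᵀ) * ((eᵀ * Xᵀ) * (toC Q * x) * e + eᵀ * (toC Q * x) * (X * e)) * (Bi * u) := by
            rw [Matrix.mul_add, Matrix.add_mul]
            simp only [Matrix.mul_assoc]
        _ = (uᵀ * Biᵀ) * (Xᵀ * (eᵀ * (toC Q * x) * e) + eᵀ * (toC Q * x) * e * X) * (Bi * u) := by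
            have b1 : eᵀ * Xᵀ = Xᵀ * eᵀ := by
              rw [← Matrix.transpose_mul, ← Matrix.transpose_mul, a0, a0']
            rw [b1, a0']
            congr 2
            have b2 : eᵀ * (toC Q * x) * e * X = eᵀ * (toC Q * x) * X := by rw [mul_assoc _ e X, a0]
            rw [b2]
            simp only [Matrix.mul_assoc]
        _ = 0 := by rw [hXs, Matrix.mul_zero, Matrix.zero_mul]
    rw [hτ, Matrix.mul_assoc, eq_neg_of_add_eq_zero_left a5, Matrix.mul_neg, ← Matrix.mul_assoc, hFi, Matrix.one_mul]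
  have hmem : y ∈ cpL u uᴴ (LB Q S P B Bi) := by
    refine D.main_core3 hs1 hb1 hTP ?_ hτy
    intro T hT
    have hec : cj Bi B (u * T * uᴴ) ∈ EC P := by
      refine H.descent fun σ => ?_
      obtain ⟨F, hSD, hFr, hF0'⟩ := H.conj_sd h1 h2 hM he hu huu σ
      have hLσ : cj B Bi ((hw w S P).map σ) ∈ LB Q S P B Bi := by
        rw [mem_LB, cj_cj h2]
        exact LH_aut σ H.hw_mem
      have hl : uᴴ * cj B Bi ((hw w S P).map σ) * u ∈ cpL u uᴴ (LB Q S P B Bi) := ⟨_, hLσ, rfl⟩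
      have hτl := D.sk _ hl
      have hsum := sum_LamW (S := S) hFr hw2
      have hF00 : (F 0).rank = (e.map σ.symm * P m).rank := by
        have r0 := hFr m
        rwa [show (2 * m - w : ℤ) = 0 by omega, Int.cast_zero] at r0
      have hcomm : T * (uᴴ * cj B Bi ((hw w S P).map σ) * u) = (uᴴ * cj B Bi ((hw w S P).map σ) * u) * T := by
        rcases hc σ.symm with h0 | h0
        · -- untouched
          have hl0 : uᴴ * cj B Bi ((hw w S P).map σ) * u = 0 := by
            rw [hSD.eq]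
            refine Finset.sum_eq_zero fun μ hμ => ?_
            obtain ⟨p, hp, rfl⟩ := Finset.mem_image.1 hμ
            by_cases hpm : p = m
            · rw [hpm, show (2 * m - w : ℤ) = 0 by omega, Int.cast_zero, Complex.ofReal_zero, zero_smul]
            · have h3 : e.map σ.symm * P p = 0 := by
                rw [← h0, mul_assoc, H.mul, if_neg (Ne.symm hpm), mul_zero]
              have h4 := hFr p
              rw [h3, Matrix.rank_zero] at h4
              have h5 : F ((2 * p - w : ℤ) : ℝ) = 0 := by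
                rw [Matrix.rank, Submodule.finrank_eq_zero, LinearMap.range_eq_bot] at h4
                exact (LinearEquiv.map_eq_zero_iff Matrix.toLin').1 h4
              rw [h5, smul_zero]
          rw [hl0, Matrix.mul_zero, Matrix.zero_mul]
        · refine hT _ hl F _ _ hSD (sd_big D.inv hSD hτl ?_)
          rw [hsum, hF00]
          exact h0
      have a5 := cp_comm hu huu (hcL _ hLσ) hcomm
      have a6 := congrArg (cj Bi B) a5
      rw [← cj_mul h1, ← cj_mul h1, cj_cj h2] at a6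
      exact a6
    obtain ⟨c', hc'⟩ := he.min _ hec
    refine ⟨c', ?_⟩
    apply cp_scalar hu huu
    have a7 := congrArg (cj B Bi) hc'
    rw [← cj_mul h2, ← cj_mul h2, cj_cj h1, cj_smul] at a7
    rw [← a7, cp_lift_left hu huu, cp_lift_right hu huu]
  obtain ⟨z, hz, hzy⟩ := hmem
  refine ⟨cj Bi B z, mem_LB.1 hz, ?_⟩
  have h9 : z * cj B Bi e = cj B Bi X := by
    calc z * cj B Bi e = cj B Bi e * z * cj B Bi e := by rw [← hcL z hz, mul_assoc, hee']
      _ = u * (uᴴ * z * u) * uᴴ := by rw [← huu]; simp only [Matrix.mul_assoc]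
      _ = u * y * uᴴ := by rw [← hzy]
      _ = cj B Bi X := hlift
  have h10 := congrArg (cj Bi B) h9
  rwa [← cj_mul h1, cj_cj h2, cj_cj h2] at h10

end basis

end IsHW

end MH
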