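import Pool.Agent.Helper43.GH.Defs2
import Pool.Agent.Helper14.GH.HW7

/-!
Project GH (MP_b8862a_ag): full type of a block, links, transport.
-/

set_option linter.unusedSectionVars false

open Matrix Module GH

namespace GH

open MH

theorem TyF.conj {k k' : Type*} [Fintype k] [DecidableEq k] [Fintype k'] [DecidableEq k']
    {L : Submodule ℂ (Matrix k k ℂ)} {a : Matrix k k' ℂ} {b : Matrix k' k ℂ} (hab : a * b = 1) (hba : b * a = 1)
    (h : TyF L) : TyF (cpL a b L) := by
  have hcard : Fintype.card k = Fintype.card k' := by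
    have h1 : (a * b).trace = (b * a).trace := Matrix.trace_mul_comm _ _
    rw [hab, hba, Matrix.trace_one, Matrix.trace_one] at h1
    exact_mod_cast h1
  have hback : ∀ x : Matrix k' k' ℂ, b * (a * x * b) * a = x := by
    intro x
    calc b * (a * x * b) * a = (b * a) * x * (b * a) := by simp only [Matrix.mul_assoc]
      _ = x := by rw [hba, Matrix.one_mul, Matrix.mul_one]
  have hmem : ∀ x : Matrix k' k' ℂ, a * x * b ∈ L → x ∈ cpL a b L := by
    intro x hx
    exact ⟨_, hx, (hback x).symm⟩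
  have hsl : (∀ x : Matrix k k ℂ, x.trace = 0 → x ∈ L) → ∀ x : Matrix k' k' ℂ, x.trace = 0 → x ∈ cpL a b L := by
    intro h1 x hx
    refine hmem x (h1 _ ?_)
    rw [Matrix.mul_assoc, Matrix.trace_mul_comm, Matrix.mul_assoc, hba, Matrix.mul_one, hx]
  refine ⟨?_, ?_⟩
  · rcases h.1 with h1 | ⟨G, hG1, hG2, hG3, hG4⟩
    · exact Or.inl (hsl h1)
    · refine Or.inr ⟨aᵀ * G * a, ?_, ?_, ?_, ?_⟩
      · rcases hG1 with h1 | h1
        · left
          rw [Matrix.transpose_mul, Matrix.transpose_mul, Matrix.transpose_transpose, h1, Matrix.mul_assoc]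
        · right
          rw [Matrix.transpose_mul, Matrix.transpose_mul, Matrix.transpose_transpose, h1, Matrix.neg_mul,
            Matrix.mul_neg, Matrix.mul_assoc]
      · obtain ⟨⟨G', Gi, h3, h4⟩, rfl⟩ := hG2
        have h5 : aᵀ * bᵀ = 1 := by rw [← Matrix.transpose_mul, hba, Matrix.transpose_one]
        refine ⟨⟨aᵀ * G' * a, b * Gi * bᵀ, ?_, ?_⟩, rfl⟩
        · calc aᵀ * G' * a * (b * Gi * bᵀ) = aᵀ * (G' * ((a * b) * Gi)) * bᵀ := by simp only [Matrix.mul_assoc]
            _ = 1 := by rw [hab, Matrix.one_mul, h3, Matrix.mul_one, h5]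
        · have h6 : bᵀ * aᵀ = 1 := by rw [← Matrix.transpose_mul, hab, Matrix.transpose_one]
          calc b * Gi * bᵀ * (aᵀ * G' * a) = b * (Gi * ((bᵀ * aᵀ) * G')) * a := by simp only [Matrix.mul_assoc]
            _ = 1 := by rw [h6, Matrix.one_mul, h4, Matrix.mul_one, hba]
      · intro x hx
        refine hmem x (hG3 _ ?_)
        have h6 : bᵀ * aᵀ = 1 := by rw [← Matrix.transpose_mul, hab, Matrix.transpose_one]
        calc (a * x * b)ᵀ * G + G * (a * x * b)
            = bᵀ * xᵀ * aᵀ * G * (a * b) + (bᵀ * aᵀ) * G * (a * x * b) := by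
              rw [hab, h6, Matrix.mul_one, Matrix.one_mul, Matrix.transpose_mul, Matrix.transpose_mul]
              simp only [Matrix.mul_assoc]
          _ = bᵀ * (xᵀ * (aᵀ * G * a) + aᵀ * G * a * x) * b := by
              rw [Matrix.mul_add, Matrix.add_mul]
              simp only [Matrix.mul_assoc]
          _ = 0 := by rw [hx, Matrix.mul_zero, Matrix.zero_mul]
      · rintro _ ⟨y, hy, rfl⟩
        obtain ⟨c, hc⟩ := hG4 y hy
        refine ⟨c, ?_⟩
        have h6 : aᵀ * bᵀ = 1 := by rw [← Matrix.transpose_mul, hba, Matrix.transpose_one]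
        calc (b * y * a)ᵀ * (aᵀ * G * a) + aᵀ * G * a * (b * y * a)
            = aᵀ * yᵀ * (bᵀ * aᵀ) * G * a + aᵀ * G * (a * b) * y * a := by
              rw [Matrix.transpose_mul, Matrix.transpose_mul]
              simp only [Matrix.mul_assoc]
          _ = aᵀ * (yᵀ * G + G * y) * a := by
              have h7 : bᵀ * aᵀ = 1 := by rw [← Matrix.transpose_mul, hab, Matrix.transpose_one]
              rw [h7, hab, Matrix.mul_one, Matrix.mul_one, Matrix.mul_add, Matrix.add_mul]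
              simp only [Matrix.mul_assoc]
          _ = c • (aᵀ * G * a) := by rw [hc, Matrix.mul_smul, Matrix.smul_mul]
  · rcases h.2 with h1 | h1
    · exact Or.inl (hsl h1)
    · right
      rw [← hcard]
      exact h1

theorem TyF.aut {k : Type*} [Fintype k] [DecidableEq k] {A A' : Submodule ℂ (Matrix k k ℂ)} (σ : ℂ ≃+* ℂ)
    (h1 : ∀ y ∈ A, y.map σ ∈ A') (h2 : ∀ y ∈ A', y.map σ.symm ∈ A) (h : TyF A) : TyF A' := by
  have hadd : ∀ (τ : ℂ ≃+* ℂ) (y z : Matrix k k ℂ), (y + z).map τ = y.map τ + z.map τ := by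
    intro τ y z
    ext i j
    simp
  have hz : ∀ (τ : ℂ ≃+* ℂ), (0 : Matrix k k ℂ).map τ = 0 := by
    intro τ
    ext i j
    simp
  have hneg : ∀ (τ : ℂ ≃+* ℂ) (y : Matrix k k ℂ), (-y).map τ = -y.map τ := by
    intro τ y
    ext i j
    simp
  have ht : ∀ (τ : ℂ ≃+* ℂ) (y : Matrix k k ℂ), (y.map τ)ᵀ = yᵀ.map τ := fun τ y => rfl
  have hback : ∀ y : Matrix k k ℂ, (y.map σ.symm).map σ = y := map_symmσ σ
  have hback' : ∀ y : Matrix k k ℂ, (y.map σ).map σ.symm = y := map_symmσ' σ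
  have hsl : (∀ x : Matrix k k ℂ, x.trace = 0 → x ∈ A) → ∀ x : Matrix k k ℂ, x.trace = 0 → x ∈ A' := by
    intro h3 x hx
    rw [← hback x]
    refine h1 _ (h3 _ ?_)
    have h4 : (x.map σ.symm).trace = σ.symm x.trace := by
      simp [Matrix.trace, map_sum]
    rw [h4, hx, map_zero]
  refine ⟨?_, ?_⟩
  · rcases h.1 with h3 | ⟨G, hG1, hG2, hG3, hG4⟩
    · exact Or.inl (hsl h3)
    · refine Or.inr ⟨G.map σ, ?_, ?_, ?_, ?_⟩
      · rcases hG1 with h4 | h4
        · left
          rw [ht, h4]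
        · right
          rw [ht, h4, hneg]
      · obtain ⟨⟨G', Gi, h5, h6⟩, rfl⟩ := hG2
        refine ⟨⟨G'.map σ, Gi.map σ, ?_, ?_⟩, rfl⟩
        · rw [← map_mulσ, h5, Matrix.map_one _ (map_zero _) (map_one _)]
        · rw [← map_mulσ, h6, Matrix.map_one _ (map_zero _) (map_one _)]
      · intro x hx
        rw [← hback x]
        refine h1 _ (hG3 _ ?_)
        have h4 := congrArg (fun Z : Matrix k k ℂ => Z.map σ.symm) hx
        simp only [hadd, map_mulσ, hback', hz] at h4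
        exact h4
      · intro x hx
        obtain ⟨c, hc⟩ := hG4 _ (h2 x hx)
        refine ⟨σ c, ?_⟩
        have h4 := congrArg (fun Z : Matrix k k ℂ => Z.map σ) hc
        simp only [hadd, map_mulσ, map_smulσ, ht, hback] at h4
        exact h4
  · rcases h.2 with h3 | h3
    · exact Or.inl (hsl h3)
    · exact Or.inr h3

end GH

namespace MH

variable {n : Type*} [Fintype n] [DecidableEq n]
variable {m w : ℤ} {Q : Matrix n n ℚ} {S : Finset ℤ} {P : ℤ → Matrix n n ℂ}

/-- The block is of full type. -/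
def TyB (Q : Matrix n n ℚ) (S : Finset ℤ) (P : ℤ → Matrix n n ℂ) (e : Matrix n n ℂ) : Prop :=
  ∃ (k : ℕ) (w : Matrix n (Fin k) ℂ) (v : Matrix (Fin k) n ℂ), v * w = 1 ∧ w * v = e ∧
    TyF (cpL w v (L1 (LH Q S P)))

theorem TyB.any {e : Matrix n n ℂ} (h : TyB Q S P e) {r : Type*} [Fintype r] [DecidableEq r]
    {w' : Matrix n r ℂ} {v' : Matrix r n ℂ} (h1 : v' * w' = 1) (h2 : w' * v' = e) :
    TyF (cpL w' v' (L1 (LH Q S P))) := by
  obtain ⟨k, w, v, h3, h4, h5⟩ := h
  have ew' : e * w' = w' := by rw [← h2, Matrix.mul_assoc, h1, Matrix.mul_one]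
  have ve' : v' * e = v' := by rw [← h2, ← Matrix.mul_assoc, h1, Matrix.one_mul]
  have ew : e * w = w := by rw [← h4, Matrix.mul_assoc, h3, Matrix.mul_one]
  have ve : v * e = v := by rw [← h4, ← Matrix.mul_assoc, h3, Matrix.one_mul]
  have hab : (v * w') * (v' * w) = 1 := by
    calc (v * w') * (v' * w) = v * ((w' * v') * w) := by simp only [Matrix.mul_assoc]
      _ = 1 := by rw [h2, ew, h3]
  have hba : (v' * w) * (v * w') = 1 := by
    calc (v' * w) * (v * w') = v' * ((w * v) * w') := by simp only [Matrix.mul_assoc]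
      _ = 1 := by rw [h4, ew', h1]
  have h6 := h5.conj hab hba
  have h7 : cpL (v * w') (v' * w) (cpL w v (L1 (LH Q S P))) = cpL w' v' (L1 (LH Q S P)) := by
    have key : ∀ x : Matrix n n ℂ, (v' * w) * (v * x * w) * (v * w') = v' * x * w' := by
      intro x
      calc (v' * w) * (v * x * w) * (v * w') = v' * (w * v) * x * (w * v) * w' := by simp only [Matrix.mul_assoc]
        _ = v' * e * x * (e * w') := by rw [h4]; simp only [Matrix.mul_assoc]
        _ = v' * x * w' := by rw [ve', ew']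
    ext y
    constructor
    · rintro ⟨_, ⟨x, hx, rfl⟩, rfl⟩
      exact ⟨x, hx, key x⟩
    · rintro ⟨x, hx, rfl⟩
      exact ⟨_, ⟨x, hx, rfl⟩, (key x).symm⟩
  rw [h7] at h6
  exact h6

theorem L1_aut (σ : ℂ ≃+* ℂ) {x : Matrix n n ℂ} (hx : x ∈ L1 (LH Q S P)) : x.map σ ∈ L1 (LH Q S P) := by
  obtain ⟨y, hy, c, rfl⟩ := mem_L1.1 hx
  refine mem_L1.2 ⟨y.map σ, LH_aut σ hy, σ c, ?_⟩
  ext i j
  by_cases hij : i = j
  · subst hij
    simp
  · simp [hij]

theorem map_mulσ' {a b c : Type*} [Fintype b] (σ : ℂ ≃+* ℂ) (x : Matrix a b ℂ) (y : Matrix b c ℂ) :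
    (x * y).map σ = x.map σ * y.map σ := by
  have := Matrix.map_mul (L := x) (M := y) (f := (σ : ℂ →+* ℂ))
  exact this

theorem TyB.aut (σ : ℂ ≃+* ℂ) {e : Matrix n n ℂ} (h : TyB Q S P e) : TyB Q S P (e.map σ) := by
  obtain ⟨k, w, v, h3, h4, h5⟩ := h
  refine ⟨k, w.map σ, v.map σ, ?_, ?_, ?_⟩
  · rw [← map_mulσ', h3, Matrix.map_one _ (map_zero _) (map_one _)]
  · rw [← map_mulσ', h4]
  · refine h5.aut σ ?_ ?_
    · rintro _ ⟨x, hx, rfl⟩
      exact ⟨x.map σ, L1_aut σ hx, by rw [map_mulσ', map_mulσ']⟩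
    · rintro _ ⟨x, hx, rfl⟩
      refine ⟨x.map σ.symm, L1_aut σ.symm hx, ?_⟩
      have e2 : (v.map σ).map σ.symm = v := by
        ext i j
        simp
      have e3 : (w.map σ).map σ.symm = w := by
        ext i j
        simp
      rw [map_mulσ', map_mulσ', e2, e3]

theorem TyB.of_range {e e' : Matrix n n ℂ} (h : TyB Q S P e) (h1 : e * e' = e') (h2 : e' * e = e)
    (hc : ∀ x ∈ LH Q S P, x * e' = e' * x) : TyB Q S P e' := by
  obtain ⟨k, w, v, h3, h4, h5⟩ := h
  have ew : e * w = w := by rw [← h4, Matrix.mul_assoc, h3, Matrix.mul_one]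
  have ew' : e' * w = w := by
    calc e' * w = e' * (e * w) := by rw [ew]
      _ = w := by rw [← Matrix.mul_assoc, h2, ew]
  refine ⟨k, w, v * e', ?_, ?_, ?_⟩
  · rw [Matrix.mul_assoc, ew', h3]
  · rw [← Matrix.mul_assoc, h4, h1]
  · have h7 : cpL w (v * e') (L1 (LH Q S P)) = cpL w v (L1 (LH Q S P)) := by
      have hc' : ∀ x ∈ L1 (LH Q S P), x * e' = e' * x := by
        intro x hx
        obtain ⟨y, hy, c, rfl⟩ := mem_L1.1 hx
        rw [add_mul, mul_add, hc y hy, smul_mul_assoc, mul_smul_comm, one_mul, mul_one]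
      have key : ∀ x ∈ L1 (LH Q S P), v * e' * x * w = v * x * w := by
        intro x hx
        calc v * e' * x * w = v * (e' * x) * w := by simp only [Matrix.mul_assoc]
          _ = v * x * (e' * w) := by rw [← hc' x hx]; simp only [Matrix.mul_assoc]
          _ = v * x * w := by rw [ew']
      ext y
      constructor
      · rintro ⟨x, hx, rfl⟩
        exact ⟨x, hx, key x hx⟩
      · rintro ⟨x, hx, rfl⟩
        exact ⟨x, hx, (key x hx).symm⟩
    rw [h7]
    exact h5

/-! ### links -/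

section links

variable {L : Submodule ℂ (Matrix n n ℂ)}

theorem prd_of_range {e e' f f' : Matrix n n ℂ} (h1 : e * e' = e') (h2 : e' * e = e) (h3 : f * f' = f')
    (_h4 : f' * f = f) (h : Prd L e f) : Prd L e' f' := by
  obtain ⟨x, hx, hxe, c, hxf⟩ := h
  refine ⟨x, hx, ?_, c, ?_⟩
  · rintro ⟨d, hd⟩
    apply hxe
    refine ⟨d, ?_⟩
    calc x * e = x * e' * e := by rw [mul_assoc, h2]
      _ = d • e := by rw [hd, smul_mul_assoc, h2]
  · calc x * f' = x * f * f' := by rw [mul_assoc, h3]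
      _ = c • f' := by rw [hxf, smul_mul_assoc, h3]

theorem lnk_of_range {e e' f f' : Matrix n n ℂ} (h1 : e * e' = e') (h2 : e' * e = e) (h3 : f * f' = f')
    (h4 : f' * f = f) (hce : ∀ x ∈ L, x * e' = e' * x) (hcf : ∀ x ∈ L, x * f' = f' * x) (h : Lnk L e f) :
    Lnk L e' f' := by
  have he' : e' * e' = e' := by
    calc e' * e' = e' * (e * e') := by rw [h1]
      _ = e' := by rw [← mul_assoc, h2, h1]
  have hf' : f' * f' = f' := by
    calc f' * f' = f' * (f * f') := by rw [h3]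
      _ = f' := by rw [← mul_assoc, h4, h3]
  rcases h with ⟨T, hT0, hT1, hT2, hT3⟩ | ⟨F, hF0, hF1, hF2, hF3⟩
  · left
    refine ⟨T * e', ?_, ?_, ?_, ?_⟩
    · intro h0
      apply hT0
      calc T = T * (e' * e) := by rw [h2, hT2]
        _ = 0 := by rw [← mul_assoc, h0, zero_mul]
    · have : f' * T = T := by
        calc f' * T = f' * (f * T) := by rw [hT1]
          _ = T := by rw [← mul_assoc, h4, hT1]
      rw [← mul_assoc, this]
    · rw [mul_assoc, he']
    · intro x hx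
      obtain ⟨c, hc⟩ := hT3 x hx
      refine ⟨c, ?_⟩
      calc x * (T * e') - T * e' * x = (x * T - T * x) * e' := by
            rw [sub_mul, mul_assoc T e' x, ← hce x hx]
            simp only [mul_assoc]
        _ = c • (T * e') := by rw [hc, smul_mul_assoc]
  · right
    have hft : ∀ x ∈ L, xᵀ * f'ᵀ = f'ᵀ * xᵀ := by
      intro x hx
      rw [← Matrix.transpose_mul, ← Matrix.transpose_mul, hcf x hx]
    refine ⟨f'ᵀ * F * e', ?_, ?_, ?_, ?_⟩
    · intro h0
      apply hF0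
      calc F = (f' * f)ᵀ * F * (e' * e) := by rw [h4, h2, hF1, hF2]
        _ = fᵀ * (f'ᵀ * F * e') * e := by
          rw [Matrix.transpose_mul]
          simp only [mul_assoc]
        _ = 0 := by rw [h0, mul_zero, zero_mul]
    · rw [← mul_assoc, ← mul_assoc, ← Matrix.transpose_mul, hf']
    · rw [mul_assoc, he']
    · intro x hx
      obtain ⟨c, hc⟩ := hF3 x hx
      refine ⟨c, ?_⟩
      calc xᵀ * (f'ᵀ * F * e') + f'ᵀ * F * e' * x = f'ᵀ * (xᵀ * F + F * x) * e' := by
            rw [mul_add, add_mul, mul_assoc (f'ᵀ * F) e' x, ← hce x hx, ← mul_assoc xᵀ, ← mul_assoc xᵀ, hft x hx]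
            simp only [mul_assoc]
        _ = c • (f'ᵀ * F * e') := by rw [hc, mul_smul_comm, smul_mul_assoc]

theorem lnk_of_range' {e e' f f' : Matrix n n ℂ} (h1 : e * e' = e') (h2 : e' * e = e) (h3 : f * f' = f')
    (h4 : f' * f = f) (hce : ∀ x ∈ L, x * e' = e' * x) (hcf : ∀ x ∈ L, x * f' = f' * x)
    (h : Prd L e f ∨ Prd L f e ∨ Lnk L e f) : Prd L e' f' ∨ Prd L f' e' ∨ Lnk L e' f' := by
  rcases h with h | h | h
  · exact Or.inl (prd_of_range h1 h2 h3 h4 h)
  · exact Or.inr (Or.inl (prd_of_range h3 h4 h1 h2 h))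
  · exact Or.inr (Or.inr (lnk_of_range h1 h2 h3 h4 hce hcf h))

theorem prd_aut (σ : ℂ ≃+* ℂ) {e f : Matrix n n ℂ} (h : Prd (LH Q S P) e f) :
    Prd (LH Q S P) (e.map σ) (f.map σ) := by
  obtain ⟨x, hx, hxe, c, hxf⟩ := h
  refine ⟨x.map σ, LH_aut σ hx, ?_, σ c, ?_⟩
  · rintro ⟨d, hd⟩
    apply hxe
    refine ⟨σ.symm d, ?_⟩
    have h1 := congrArg (fun Z : Matrix n n ℂ => Z.map σ.symm) hd
    simp only [map_mulσ, map_smulσ, map_symmσ'] at h1
    exact h1
  · rw [← map_mulσ, hxf, map_smulσ]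

theorem lnk_aut (σ : ℂ ≃+* ℂ) {e f : Matrix n n ℂ} (h : Lnk (LH Q S P) e f) :
    Lnk (LH Q S P) (e.map σ) (f.map σ) := by
  have hne : ∀ T : Matrix n n ℂ, T ≠ 0 → T.map σ ≠ 0 := by
    intro T hT h0
    apply hT
    rw [← map_symmσ' σ T, h0]
    ext i j
    simp
  have hadd : ∀ (y z : Matrix n n ℂ), (y + z).map σ = y.map σ + z.map σ := by
    intro y z
    ext i j
    simp
  have hsub : ∀ (y z : Matrix n n ℂ), (y - z).map σ = y.map σ - z.map σ := by
    intro y z
    ext i j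
    simp
  have ht : ∀ (y : Matrix n n ℂ), (y.map σ)ᵀ = yᵀ.map σ := fun y => rfl
  rcases h with ⟨T, hT0, hT1, hT2, hT3⟩ | ⟨F, hF0, hF1, hF2, hF3⟩
  · left
    refine ⟨T.map σ, hne T hT0, ?_, ?_, ?_⟩
    · rw [← map_mulσ, hT1]
    · rw [← map_mulσ, hT2]
    · intro x hx
      obtain ⟨c, hc⟩ := hT3 _ (LH_aut σ.symm hx)
      refine ⟨σ c, ?_⟩
      have h1 := congrArg (fun Z : Matrix n n ℂ => Z.map σ) hc
      simp only [hsub, map_mulσ, map_smulσ, map_symmσ] at h1
      exact h1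
  · right
    refine ⟨F.map σ, hne F hF0, ?_, ?_, ?_⟩
    · rw [ht, ← map_mulσ, hF1]
    · rw [← map_mulσ, hF2]
    · intro x hx
      obtain ⟨c, hc⟩ := hF3 _ (LH_aut σ.symm hx)
      refine ⟨σ c, ?_⟩
      have h1 := congrArg (fun Z : Matrix n n ℂ => Z.map σ) hc
      simp only [hadd, map_mulσ, map_smulσ, map_symmσ] at h1
      have h2 : ((x.map σ.symm)ᵀ).map σ = xᵀ := map_symmσ σ xᵀ
      rw [h2] at h1
      exact h1

end links

end MH
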