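import Pool.Agent.Helper14.GH.HW8
import Pool.Agent.Helper14.GH.HW6g
import Pool.Agent.Helper14.GH.TyB
import Pool.Agent.Helper98.GH.One

/-!
Project GH (MP_b8862a_ag): every block of rank at least two is of full type.
-/

set_option linter.unusedSectionVars false

open Matrix Module GH

namespace MH

variable {n : Type*} [Fintype n] [DecidableEq n]
variable {m w : ℤ} {Q : Matrix n n ℚ} {S : Finset ℤ} {P : ℤ → Matrix n n ℂ}

/-- idempotents with the same range have the same trace against a matrix that commutes with them -/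
theorem rank_of_range {e e' F : Matrix n n ℂ} (h1 : e * e' = e') (h2 : e' * e = e) (hF : F * F = F)
    (he : e * F = F * e) (he' : e' * F = F * e') : (e' * F).rank = (e * F).rank := by
  have hee : e * e = e := by
    calc e * e = e * (e' * e) := by rw [h2]
      _ = e' * e := by rw [← mul_assoc, h1]
      _ = e := h2
  have hee' : e' * e' = e' := by
    calc e' * e' = e' * (e * e') := by rw [h1]
      _ = e * e' := by rw [← mul_assoc, h2]
      _ = e' := h1
  have a1 : (e * F) * (e * F) = e * F := by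
    calc (e * F) * (e * F) = e * (F * e) * F := by simp only [mul_assoc]
      _ = (e * e) * (F * F) := by rw [← he]; simp only [mul_assoc]
      _ = e * F := by rw [hee, hF]
  have a2 : (e' * F) * (e' * F) = e' * F := by
    calc (e' * F) * (e' * F) = e' * (F * e') * F := by simp only [mul_assoc]
      _ = (e' * e') * (F * F) := by rw [← he']; simp only [mul_assoc]
      _ = e' * F := by rw [hee', hF]
  have a3 : (e' * F).trace = (e * F).trace := by
    calc (e' * F).trace = (e * (e' * F)).trace := by rw [← mul_assoc, h1]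
      _ = ((e' * F) * e).trace := Matrix.trace_mul_comm _ _
      _ = (e * F).trace := by rw [mul_assoc, ← he, ← mul_assoc, h2]
  rw [trace_eq_rank a1, trace_eq_rank a2] at a3
  exact_mod_cast a3

theorem OrthB.of_range {e e' : Matrix n n ℂ} (h : OrthB Q P e) (_h1 : e * e' = e') (h2 : e' * e = e) :
    OrthB Q P e' := by
  obtain ⟨x, hx, hxs, hx0⟩ := h
  refine ⟨x, hx, hxs, fun h0 => hx0 ?_⟩
  calc eᵀ * (toC Q * x) * e = (e' * e)ᵀ * (toC Q * x) * (e' * e) := by rw [h2]
    _ = eᵀ * (e'ᵀ * (toC Q * x) * e') * e := by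
      rw [Matrix.transpose_mul]
      simp only [mul_assoc]
    _ = 0 := by rw [h0, mul_zero, zero_mul]

theorem orth_range {e e' x : Matrix n n ℂ} (h2 : e' * e = e) (hx0 : eᵀ * (toC Q * x) * e ≠ 0) :
    e'ᵀ * (toC Q * x) * e' ≠ 0 := by
  intro h0
  apply hx0
  calc eᵀ * (toC Q * x) * e = (e' * e)ᵀ * (toC Q * x) * (e' * e) := by rw [h2]
    _ = eᵀ * (e'ᵀ * (toC Q * x) * e') * e := by
      rw [Matrix.transpose_mul]
      simp only [mul_assoc]
    _ = 0 := by rw [h0, mul_zero, zero_mul]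

theorem map_mapσ (σ τ : ℂ ≃+* ℂ) (e : Matrix n n ℂ) : (e.map σ).map τ = e.map (σ.trans τ) := by
  ext i j
  simp

namespace IsHW

variable (H : IsHW w Q S P)
include H

section basis

variable {B Bi : Matrix n n ℂ} (h1 : B * Bi = 1) (h2 : Bi * B = 1) (hM : Mw w Q S P = Bᴴ * B)
include h1 h2 hM

/-- every block has the same range as a Hermitian block -/
theorem herm_rep {e : Matrix n n ℂ} (he : IsBlk P e) :
    ∃ e', IsBlk P e' ∧ (cj B Bi e')ᴴ = cj B Bi e' ∧ e * e' = e' ∧ e' * e = e := by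
  classical
  set e1 := cj B Bi e with he1
  have hee : e1 * e1 = e1 := by rw [he1, cj_mul h2, he.idem]
  have hcL := H.LB_com h1 h2 hM he.mem
  obtain ⟨T, hT1, hT2, hT3, hT4⟩ := proj (LinearMap.range e1.mulVecLin)
  have hW : ∀ v : n → ℂ, v ∈ LinearMap.range e1.mulVecLin ↔ e1 *ᵥ v = v := by
    intro v
    constructor
    · rintro ⟨u, rfl⟩
      rw [Matrix.mulVecLin_apply, Matrix.mulVec_mulVec, hee]
    · intro h
      exact ⟨v, h⟩
  have hst : ∀ x ∈ LB Q S P B Bi, ∀ v ∈ LinearMap.range e1.mulVecLin, x *ᵥ v ∈ LinearMap.range e1.mulVecLin := by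
    intro x hx v hv
    rw [hW] at hv ⊢
    rw [Matrix.mulVec_mulVec, ← hcL x hx, ← Matrix.mulVec_mulVec, hv]
  have hTx : ∀ x ∈ LB Q S P B Bi, T * x = x * T := fun x hx =>
    hT4 x (hst x hx) (hst xᴴ (H.LB_star h1 h2 hM hx))
  have a1 : T * e1 = e1 := by
    apply Matrix.toLin'.injective
    apply LinearMap.ext
    intro v
    rw [Matrix.toLin'_apply, Matrix.toLin'_apply, ← Matrix.mulVec_mulVec]
    exact (hT3 _).1 ((hW _).2 (by rw [Matrix.mulVec_mulVec, hee]))
  have a2 : e1 * T = T := by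
    apply Matrix.toLin'.injective
    apply LinearMap.ext
    intro v
    rw [Matrix.toLin'_apply, Matrix.toLin'_apply, ← Matrix.mulVec_mulVec]
    exact (hW _).1 ((hT3 _).2 (by rw [Matrix.mulVec_mulVec, hT1]))
  have b1 : e * cj Bi B T = cj Bi B T := by
    have := congrArg (cj Bi B) a2
    rwa [← cj_mul h1, he1, cj_cj h2] at this
  have b2 : cj Bi B T * e = e := by
    have := congrArg (cj Bi B) a1
    rwa [← cj_mul h1, he1, cj_cj h2] at this
  have hEC : cj Bi B T ∈ EC P := by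
    refine H.EC_of_LH fun Y hY => ?_
    have hY' : cj B Bi Y ∈ LB Q S P B Bi := by rw [mem_LB, cj_cj h2]; exact hY
    have a6 := congrArg (cj Bi B) (hTx _ hY')
    rw [← cj_mul h1, ← cj_mul h1, cj_cj h2] at a6
    exact a6
  refine ⟨cj Bi B T, ⟨hEC, ?_, ?_, ?_⟩, ?_, b1, b2⟩
  · rw [cj_mul h1, hT1]
  · intro h0
    apply he.ne
    rw [← b2, h0, zero_mul]
  · intro x hx
    obtain ⟨c, hc⟩ := he.min _ (EC_mul hEC hx)
    refine ⟨c, ?_⟩
    calc cj Bi B T * x * cj Bi B T = (e * cj Bi B T) * x * (e * cj Bi B T) := by rw [b1]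
      _ = (e * (cj Bi B T * x) * e) * cj Bi B T := by simp only [mul_assoc]
      _ = c • cj Bi B T := by rw [hc, smul_mul_assoc, b1]
  · rw [cj_cj h1, hT2]

/-- the data of a block with a symmetric form -/
theorem orth_dat (hw2 : w = 2 * m) {e x : Matrix n n ℂ} (he : IsBlk P e) (hx : x ∈ EC P)
    (hxs : xᵀ * toC Q = toC Q * x) (hx0 : eᵀ * (toC Q * x) * e ≠ 0) {k : Type*} [Fintype k] [DecidableEq k]
    {u : Matrix n k ℂ} (hu : uᴴ * u = 1) (huu : u * uᴴ = cj B Bi e) :
    ∃ (Fi : Matrix k k ℂ) (τ : Matrix k k ℂ →ₗ[ℂ] Matrix k k ℂ), Fi * (uᵀ * (Biᵀ * (toC Q * x) * Bi) * u) = 1 ∧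
      (uᵀ * (Biᵀ * (toC Q * x) * Bi) * u)ᵀ = uᵀ * (Biᵀ * (toC Q * x) * Bi) * u ∧
      (∀ y, τ y = Fi * yᵀ * (uᵀ * (Biᵀ * (toC Q * x) * Bi) * u)) ∧
      Dat τ (cpL u uᴴ (LB Q S P B Bi)) (uᴴ * cj B Bi (hw w S P) * u) (fun μ => uᴴ * EW w S P B Bi μ * u)
        (LamW w S) := by
  obtain ⟨hF0, hFs, hsk⟩ := H.blk_form h1 h2 hM (H.Q_symm_even hw2) he hx hxs hx0 hu huu
  obtain ⟨Fi, τ, hFi, hτ, D⟩ := dat_of_form ((H.grW h1 h2 hM).compress hu huu (H.LB_com h1 h2 hM he.mem))
    (H.blk_irr h1 h2 hM he hu huu) hF0 hFs hsk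
  exact ⟨Fi, τ, hFi, hFs, hτ, D⟩

/-- the numbers of a block with a symmetric form -/
theorem orth_nums (hw2 : w = 2 * m) {e : Matrix n n ℂ} (he : IsBlk P e) (hO : OrthB Q P e) :
    e.rank = (e * P m).rank + 2 * sB m S P e ∧ ∀ p, p ≠ m → (e * P p).rank ≤ sB m S P e := by
  classical
  obtain ⟨e', he', hes, a1, a2⟩ := H.herm_rep h1 h2 hM he
  have hPP : ∀ p, P p * P p = P p := fun p => by rw [H.mul, if_pos rfl]
  have hr : ∀ p, (e' * P p).rank = (e * P p).rank := fun p =>
    rank_of_range a1 a2 (hPP p) (EC_P he.mem p) (EC_P he'.mem p)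
  have hrk : e'.rank = e.rank := by
    have := rank_of_range (F := (1 : Matrix n n ℂ)) a1 a2 (mul_one 1) (by rw [mul_one, one_mul]) (by rw [mul_one, one_mul])
    rwa [mul_one, mul_one] at this
  have hs : sB m S P e' = sB m S P e := by
    unfold sB
    exact Finset.sum_congr rfl fun p _ => hr p
  obtain ⟨x, hx, hxs, hx0⟩ := hO.of_range a1 a2
  have hee' : cj B Bi e' * cj B Bi e' = cj B Bi e' := by rw [cj_mul h2, he'.idem]
  obtain ⟨k, u, hu, huu⟩ : ∃ (k : ℕ) (u : Matrix n (Fin k) ℂ), uᴴ * u = 1 ∧ u * uᴴ = cj B Bi e' :=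
    ⟨_, exists_onbE hee' hes⟩
  obtain ⟨E', r1, Fi, τ, D⟩ : ∃ E' : ℝ → Matrix (Fin k) (Fin k) ℂ,
      (∀ p : ℤ, (E' ((2 * p - w : ℤ) : ℝ)).rank = (e' * P p).rank) ∧
      ∃ (Fi : Matrix (Fin k) (Fin k) ℂ) (τ : Matrix (Fin k) (Fin k) ℂ →ₗ[ℂ] Matrix (Fin k) (Fin k) ℂ),
      Dat τ (cpL u uᴴ (LB Q S P B Bi)) (uᴴ * cj B Bi (hw w S P) * u) E' (LamW w S) := by
    obtain ⟨Fi, τ, _, _, _, D⟩ := H.orth_dat h1 h2 hM hw2 he' hx hxs hx0 hu huu
    exact ⟨fun μ => uᴴ * EW w S P B Bi μ * u, H.blk_rank h1 h2 hM he' hu huu, Fi, τ, D⟩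
  have hSD : SD (uᴴ * cj B Bi (hw w S P) * u) E' (LamW w S) := ⟨D.spec.mul, D.spec.sum, D.spec.eq⟩
  have hτ := D.sk _ D.mem
  have c1 := sd_card D.inv hSD hτ
  have hsum : ∑ μ ∈ (LamW w S).filter (fun μ => 0 < μ), (E' μ).rank = sB m S P e' := sum_LamW r1 hw2
  have r0 := r1 m
  rw [show (2 * m - w : ℤ) = 0 by omega, Int.cast_zero] at r0
  have hcard : Fintype.card (Fin k) = e'.rank := by
    rw [← rank_cj h1 h2 he'.idem]
    exact cp_card hu huu hee'
  rw [hcard, hsum, r0, hr, hs, hrk] at c1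
  refine ⟨c1, fun p hp => ?_⟩
  have c2 := sd_le D.inv hSD hτ (μ := ((2 * p - w : ℤ) : ℝ)) (by
    intro h0
    have h3 : (2 * p - w : ℤ) = 0 := by exact_mod_cast h0
    omega)
  rw [hsum, r1, hr, hs] at c2
  exact c2

/-- untouched blocks -/
theorem untouched_of_rank {e : Matrix n n ℂ} (he : IsBlk P e) {p : ℤ} (hr : (e * P p).rank = e.rank) :
    e * P p = e := by
  have hPP : P p * P p = P p := by rw [H.mul, if_pos rfl]
  have hPe := EC_P he.mem p
  have a1 : (e * P p) * (e * P p) = e * P p := by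
    calc (e * P p) * (e * P p) = e * (P p * e) * P p := by simp only [mul_assoc]
      _ = (e * e) * (P p * P p) := by rw [← hPe]; simp only [mul_assoc]
      _ = e * P p := by rw [he.idem, hPP]
  have a2 : (e - e * P p) * (e - e * P p) = e - e * P p := by
    have b1 : e * (e * P p) = e * P p := by rw [← mul_assoc, he.idem]
    have b2 : (e * P p) * e = e * P p := by rw [mul_assoc, ← hPe, b1]
    rw [sub_mul, mul_sub, mul_sub, he.idem, b1, b2, a1, sub_self, sub_zero]
  have a3 : (e - e * P p).trace = 0 := by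
    rw [Matrix.trace_sub, trace_eq_rank he.idem, trace_eq_rank a1, hr, sub_self]
  rw [trace_eq_rank a2] at a3
  have a4 : (e - e * P p).rank = 0 := by exact_mod_cast a3
  rw [Matrix.rank, Submodule.finrank_eq_zero, LinearMap.range_eq_bot] at a4
  have a5 : e - e * P p = 0 := (LinearEquiv.map_eq_zero_iff Matrix.toLin').1 a4
  exact (sub_eq_zero.1 a5).symm

/-- the two conditions for a block with a symmetric form -/
theorem orth_cond (hw2 : w = 2 * m) {e : Matrix n n ℂ} (he : IsBlk P e) (hO : OrthB Q P e) (h3 : 3 ≤ e.rank)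
    (hD : DomB w Q S P e) :
    e * P m = e ∨ 1 ≤ sB m S P e ∧ sB m S P e ^ 2 < (e * P m).rank ∧ 4 ≤ (e * P m).rank := by
  obtain ⟨c1, c2⟩ := H.orth_nums h1 h2 hM hw2 he hO
  rcases hD with ⟨p, hp⟩ | ⟨m', hm', _, hm2⟩
  · by_cases hpm : p = m
    · subst hpm
      by_cases hs : sB p S P e = 0
      · left
        apply H.untouched_of_rank h1 h2 hM he
        omega
      · right
        set s := sB p S P e with hsdef
        set b := (e * P p).rank with hbdef
        have hs1 : 1 ≤ s := Nat.one_le_iff_ne_zero.2 hs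
        rcases hp with hp | hp
        · omega
        · have h4 : e.rank - b + 1 = 2 * s + 1 := by omega
          rw [h4, c1] at hp
          refine ⟨hs1, ?_, ?_⟩
          · nlinarith
          · nlinarith
    · exfalso
      have h4 := c2 p hpm
      set s := sB m S P e with hsdef
      set b := (e * P m).rank with hbdef
      rcases hp with hp | hp
      · omega
      · have h5 : b + s + 1 ≤ e.rank - (e * P p).rank + 1 := by omega
        have h6 : (b + s + 1) ^ 2 ≤ e.rank := le_trans (Nat.pow_le_pow_left h5 2) hp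
        rw [c1] at h6
        nlinarith
  · have hmm : m' = m := by omega
    subst hmm
    rcases hm2 with h4 | ⟨h4, h5⟩
    · exact Or.inl h4
    · refine Or.inr ⟨by omega, h5, ?_⟩
      nlinarith

end basis

end IsHW

end MH
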