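import Pool.Agent.Helper14.GH.SDa
import Pool.Agent.Helper43.GH.TC3
import Pool.Agent.Helper2.MON.Defs

/-!
Project GH (MP_b8862a_ag): monodromy groups without a condition on the order, and blocks of rank one.
-/

set_option linter.unusedSectionVars false

open Matrix

namespace MH

variable {n : Type*} [Fintype n] [DecidableEq n]
variable {w : ℤ} {Q : Matrix n n ℚ} {S : Finset ℤ} {P : ℤ → Matrix n n ℂ}

/-- `D` is a group of rational isometries of `Q`, and the tensors fixed by subgroups of finite index of `D` are stable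
under the Hodge cocharacter. -/
structure IsMonN (Q : Matrix n n ℚ) (S : Finset ℤ) (P : ℤ → Matrix n n ℂ) (D : Subgroup (GL n ℚ)) : Prop where
  isom : ∀ g ∈ D, (g : Matrix n n ℚ)ᵀ * Q * (g : Matrix n n ℚ) = Q
  fixed : ∀ a b t, IsTateTensor (mapC D) a b t → ∀ z : ℂ, z ≠ 0 →
    IsTateTensor (mapC D) a b (actF (slot a b (cochar S P z) (cochar S P z⁻¹)) t)

/-- a group that is not virtually scalar on a matrix contains elements of infinite order -/
theorem IsMonN.toMon {D : Subgroup (GL n ℚ)} (M : IsMonN Q S P D) {e : Matrix n n ℂ}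
    (h : ∃ g ∈ D, ∀ N : ℕ, 0 < N → ∀ c : ℂ, toC ((g : Matrix n n ℚ) ^ N) * e ≠ c • e) : IsMon Q S P D := by
  obtain ⟨g, hg, h⟩ := h
  refine ⟨M.isom, ⟨g, hg, fun N hN h1 => h N hN 1 ?_⟩, M.fixed⟩
  rw [← Units.val_pow_eq_pow_val, h1, one_smul]
  simp [toC]

/-- the blocks of rank one -/
theorem IsHW.InD_one (H : IsHW w Q S P) (h1 : ∀ e, IsBlk P e → e.rank = 1) {g : Matrix n n ℂ} (hg : InD Q S P g) :
    g = 1 := by
  obtain ⟨ι, i1, e, e1, -, e3⟩ := H.exists_blks43
  have key : ∀ i, g * e i = e i := by
    intro i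
    obtain ⟨W, V, hVW, hWV⟩ := exists_fac14 (e1 i).idem
    have hr := h1 _ (e1 i)
    have hc : g * e i = e i * g := hg.1 _ (H.SI_EC (e1 i).mem)
    have hd := hg.2.2 _ (e1 i)
    -- the block is a scalar
    have h2 : g * e i + (1 - e i) = 1 + ((g - 1) * W) * V := by
      rw [Matrix.mul_assoc, hWV, Matrix.sub_mul, Matrix.one_mul]
      abel
    rw [h2, Matrix.det_one_add_mul_comm] at hd
    have h3 : 1 + V * ((g - 1) * W) = V * g * W := by
      rw [Matrix.sub_mul, Matrix.one_mul, Matrix.mul_sub, hVW, ← Matrix.mul_assoc]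
      abel
    rw [h3] at hd
    have h4 : V * g * W = 1 := by
      have hsub : Subsingleton (Fin (e i).rank) := by
        rw [hr]
        infer_instance
      have hne : Nonempty (Fin (e i).rank) := by
        rw [hr]
        infer_instance
      obtain ⟨k⟩ := hne
      have h5 : (V * g * W).det = (V * g * W) k k := by
        rw [Matrix.det_eq_elem_of_subsingleton _ k]
      rw [h5] at hd
      ext a b
      rw [Subsingleton.elim a k, Subsingleton.elim b k, hd, Matrix.one_apply_eq]
    calc g * e i = g * (e i * e i) := by rw [(e1 i).idem]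
      _ = e i * g * e i := by rw [← mul_assoc, hc]
      _ = W * (V * g * W) * V := by
          have h6 : W * (V * g * W) * V = W * V * g * (W * V) := by simp only [Matrix.mul_assoc]
          rw [h6, hWV]
      _ = e i := by rw [h4, Matrix.mul_one, hWV]
  calc g = g * ∑ i, e i := by rw [e3, mul_one]
    _ = ∑ i, g * e i := by rw [Finset.mul_sum]
    _ = 1 := by rw [Finset.sum_congr rfl fun i _ => key i, e3]

end MH
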