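import Pool.Agent.Helper14.GH.Fin
import Pool.Agent.Helper14.GH.DefsD
import Pool.Agent.Helper71.OW.MTs

/-!
Project GH (MP_b8862a_ag): commutators, and semi-invariants in the self-dual case.
-/

set_option linter.unusedSectionVars false

open Matrix Module GH

namespace MH

variable {n : Type*} [Fintype n] [DecidableEq n]
variable {m w : ℤ} {Q : Matrix n n ℚ} {S : Finset ℤ} {P : ℤ → Matrix n n ℂ}

/-- an idempotent factors through its range -/
theorem exists_fac14 {e : Matrix n n ℂ} (hee : e * e = e) :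
    ∃ (W : Matrix n (Fin e.rank) ℂ) (V : Matrix (Fin e.rank) n ℂ), V * W = 1 ∧ W * V = e := by
  classical
  have hr : Module.finrank ℂ (LinearMap.range e.mulVecLin) = e.rank := rfl
  let b := Module.finBasisOfFinrankEq ℂ (LinearMap.range e.mulVecLin) hr
  let φ : (n → ℂ) →ₗ[ℂ] (Fin e.rank → ℂ) := b.equivFun.toLinearMap ∘ₗ e.mulVecLin.rangeRestrict
  let ψ : (Fin e.rank → ℂ) →ₗ[ℂ] (n → ℂ) :=
    (LinearMap.range e.mulVecLin).subtype ∘ₗ b.equivFun.symm.toLinearMap
  refine ⟨LinearMap.toMatrix' ψ, LinearMap.toMatrix' φ, ?_, ?_⟩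
  · rw [← LinearMap.toMatrix'_comp, ← LinearMap.toMatrix'_id]
    congr 1
    refine LinearMap.ext fun x => ?_
    have h1 : ∀ u : LinearMap.range e.mulVecLin, e.mulVecLin.rangeRestrict (u : n → ℂ) = u := by
      rintro ⟨u, v, rfl⟩
      apply Subtype.ext
      simp only [LinearMap.codRestrict_apply, Matrix.mulVecLin_apply, LinearMap.rangeRestrict]
      rw [Matrix.mulVec_mulVec, hee]
    simp only [φ, ψ, LinearMap.comp_apply, Submodule.subtype_apply, LinearEquiv.coe_coe, LinearMap.id_apply]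
    rw [h1, LinearEquiv.apply_symm_apply]
  · rw [← LinearMap.toMatrix'_comp]
    have h2 : ψ ∘ₗ φ = e.mulVecLin := by
      refine LinearMap.ext fun x => ?_
      simp only [φ, ψ, LinearMap.comp_apply, Submodule.subtype_apply, LinearEquiv.coe_coe,
        LinearEquiv.symm_apply_apply]
      rfl
    rw [h2, ← Matrix.toLin'_apply', LinearMap.toMatrix'_toLin']

theorem det_blk_mul {e g h : Matrix n n ℂ} (he : e * e = e) (hh : h * e = e * h) :
    ((g * h) * e + (1 - e)).det = (g * e + (1 - e)).det * (h * e + (1 - e)).det := by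
  rw [← Matrix.det_mul]
  congr 1
  have e1 : g * e * (h * e) = g * h * e := by
    calc g * e * (h * e) = g * (e * h) * e := by simp only [mul_assoc]
      _ = g * h * (e * e) := by rw [← hh]; simp only [mul_assoc]
      _ = _ := by rw [he]
  have e2 : g * e * (1 - e) = 0 := by rw [mul_sub, mul_one, mul_assoc, he, sub_self]
  have e3 : (1 - e) * (h * e) = 0 := by
    rw [sub_mul, one_mul, ← mul_assoc, ← hh, mul_assoc, he, sub_self]
  have e4 : (1 - e) * (1 - e) = 1 - e := by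
    rw [mul_sub, mul_one, sub_mul, one_mul, he, sub_self, sub_zero]
  rw [add_mul, mul_add, mul_add, e1, e2, e3, e4, add_zero, zero_add]

/-- the determinant of a scalar on a block -/
theorem smul_one_add_det {e : Matrix n n ℂ} (he : e * e = e) {c : ℂ} : c ^ e.rank = (c • e + (1 - e)).det := by
  obtain ⟨W, V, h1, h2⟩ := exists_fac14 he
  have h3 : c • e + (1 - e) = 1 + ((c - 1) • W) * V := by
    rw [Matrix.smul_mul, h2, sub_smul, one_smul]
    abel
  rw [h3, Matrix.det_one_add_mul_comm, Matrix.mul_smul, h1]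
  have h4 : (1 : Matrix (Fin e.rank) (Fin e.rank) ℂ) + (c - 1) • 1 = c • 1 := by
    rw [sub_smul, one_smul, add_sub_cancel]
  rw [h4, Matrix.det_smul, Matrix.det_one, mul_one, Fintype.card_fin]

namespace IsHW

variable (H : IsHW w Q S P)
include H

theorem detQ : (toC Q).det ≠ 0 := by
  obtain ⟨_, _, Qi, _, _, q1, _, _⟩ := H.exists_basis
  intro h0
  have h3 := congrArg Matrix.det q1
  rw [Matrix.det_mul, h0, zero_mul, Matrix.det_one] at h3
  exact zero_ne_one h3

/-- **Commutators of the Mumford-Tate group are in `InD`.** -/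
theorem comm_InD {g h : GL n ℂ} (hg : g ∈ MT S P) (hh : h ∈ MT S P) :
    InD Q S P ((g * h * g⁻¹ * h⁻¹ : GL n ℂ) : Matrix n n ℂ) := by
  have ginv : (g : Matrix n n ℂ) * ((g⁻¹ : GL n ℂ) : Matrix n n ℂ) = 1 := by
    rw [← Units.val_mul, mul_inv_cancel, Units.val_one]
  have ginv' : ((g⁻¹ : GL n ℂ) : Matrix n n ℂ) * (g : Matrix n n ℂ) = 1 := by
    rw [← Units.val_mul, inv_mul_cancel, Units.val_one]
  have hinv : (h : Matrix n n ℂ) * ((h⁻¹ : GL n ℂ) : Matrix n n ℂ) = 1 := by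
    rw [← Units.val_mul, mul_inv_cancel, Units.val_one]
  have hinv' : ((h⁻¹ : GL n ℂ) : Matrix n n ℂ) * (h : Matrix n n ℂ) = 1 := by
    rw [← Units.val_mul, inv_mul_cancel, Units.val_one]
  rcases isEmpty_or_nonempty n with hn | hn
  · have e0 : ∀ X Y : Matrix n n ℂ, X = Y := by
      intro X Y
      ext i
      exact hn.elim i
    refine ⟨fun T _ => e0 _ _, e0 _ _, fun e he => absurd (e0 _ _) he.ne⟩
  have hcoe : ((g * h * g⁻¹ * h⁻¹ : GL n ℂ) : Matrix n n ℂ) = (g : Matrix n n ℂ) * (h : Matrix n n ℂ) *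
      ((g⁻¹ : GL n ℂ) : Matrix n n ℂ) * ((h⁻¹ : GL n ℂ) : Matrix n n ℂ) := by
    simp only [Units.val_mul]
  have hgi := (MT S P).inv_mem hg
  have hhi := (MT S P).inv_mem hh
  refine ⟨fun T hT => ?_, ?_, fun e he => ?_⟩
  · by_cases hT0 : T = 0
    · rw [hT0, mul_zero, zero_mul]
    -- characters
    have key : ∀ {x : GL n ℂ}, x ∈ MT S P → ∃ c : ℂ, c ≠ 0 ∧ (x : Matrix n n ℂ) * T = c • (T * (x : Matrix n n ℂ)) ∧
        ((x⁻¹ : GL n ℂ) : Matrix n n ℂ) * T = c⁻¹ • (T * ((x⁻¹ : GL n ℂ) : Matrix n n ℂ)) := by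
      intro x hx
      obtain ⟨c, hc⟩ := hT x hx
      have xinv : (x : Matrix n n ℂ) * ((x⁻¹ : GL n ℂ) : Matrix n n ℂ) = 1 := by
        rw [← Units.val_mul, mul_inv_cancel, Units.val_one]
      have xinv' : ((x⁻¹ : GL n ℂ) : Matrix n n ℂ) * (x : Matrix n n ℂ) = 1 := by
        rw [← Units.val_mul, inv_mul_cancel, Units.val_one]
      have hc0 : c ≠ 0 := by
        rintro rfl
        rw [zero_smul] at hc
        apply hT0
        calc T = ((x⁻¹ : GL n ℂ) : Matrix n n ℂ) * ((x : Matrix n n ℂ) * T) := by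
              rw [← mul_assoc, xinv', one_mul]
          _ = 0 := by rw [hc, mul_zero]
      refine ⟨c, hc0, hc, ?_⟩
      have h1 : T * ((x⁻¹ : GL n ℂ) : Matrix n n ℂ) = c • (((x⁻¹ : GL n ℂ) : Matrix n n ℂ) * T) := by
        calc T * ((x⁻¹ : GL n ℂ) : Matrix n n ℂ) =
            ((x⁻¹ : GL n ℂ) : Matrix n n ℂ) * ((x : Matrix n n ℂ) * T) * ((x⁻¹ : GL n ℂ) : Matrix n n ℂ) := by
              rw [← mul_assoc, xinv', one_mul]
          _ = c • (((x⁻¹ : GL n ℂ) : Matrix n n ℂ) * T * ((x : Matrix n n ℂ) * ((x⁻¹ : GL n ℂ) : Matrix n n ℂ))) := by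
              rw [hc, mul_smul_comm, smul_mul_assoc]
              simp only [mul_assoc]
          _ = _ := by rw [xinv, mul_one]
      rw [h1, smul_smul, inv_mul_cancel₀ hc0, one_smul]
    obtain ⟨c, hc0, hc1, hc2⟩ := key hg
    obtain ⟨d, hd0, hd1, hd2⟩ := key hh
    rw [hcoe]
    set G := (g : Matrix n n ℂ)
    set G' := ((g⁻¹ : GL n ℂ) : Matrix n n ℂ)
    set K := (h : Matrix n n ℂ)
    set K' := ((h⁻¹ : GL n ℂ) : Matrix n n ℂ)
    calc G * K * G' * K' * T = G * (K * (G' * (K' * T))) := by simp only [mul_assoc]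
      _ = (d⁻¹ * (c⁻¹ * (d * c))) • (T * (G * (K * (G' * K')))) := by
          rw [hd2, mul_smul_comm, ← mul_assoc G' T, hc2, smul_mul_assoc, smul_smul, mul_smul_comm,
            mul_assoc T G' K', ← mul_assoc K T, hd1, smul_mul_assoc, smul_smul, mul_smul_comm, mul_assoc T K,
            ← mul_assoc G T, hc1, smul_mul_assoc, smul_smul, mul_assoc T G]
          congr 1
          ring
      _ = _ := by
          have e1 : d⁻¹ * (c⁻¹ * (d * c)) = 1 := by field_simp
          rw [e1, one_smul]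
          simp only [mul_assoc]
  · obtain ⟨c, hc0, hc⟩ := H.MT_sim hg
    obtain ⟨c', hc0', hc'⟩ := H.MT_sim hgi
    obtain ⟨d, hd0, hd⟩ := H.MT_sim hh
    obtain ⟨d', hd0', hd'⟩ := H.MT_sim hhi
    rw [hcoe]
    set G := (g : Matrix n n ℂ)
    set G' := ((g⁻¹ : GL n ℂ) : Matrix n n ℂ)
    set K := (h : Matrix n n ℂ)
    set K' := ((h⁻¹ : GL n ℂ) : Matrix n n ℂ)
    have e1 : (c * c') • toC Q = toC Q := by
      calc (c * c') • toC Q = G'ᵀ * (Gᵀ * toC Q * G) * G' := by
            rw [hc, mul_smul_comm, smul_mul_assoc, hc', smul_smul]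
        _ = (G * G')ᵀ * toC Q * (G * G') := by
            rw [Matrix.transpose_mul]
            simp only [mul_assoc]
        _ = toC Q := by rw [ginv, Matrix.transpose_one, one_mul, mul_one]
    have e2 : (d * d') • toC Q = toC Q := by
      calc (d * d') • toC Q = K'ᵀ * (Kᵀ * toC Q * K) * K' := by
            rw [hd, mul_smul_comm, smul_mul_assoc, hd', smul_smul]
        _ = (K * K')ᵀ * toC Q * (K * K') := by
            rw [Matrix.transpose_mul]
            simp only [mul_assoc]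
        _ = toC Q := by rw [hinv, Matrix.transpose_one, one_mul, mul_one]
    calc (G * K * G' * K')ᵀ * toC Q * (G * K * G' * K')
        = K'ᵀ * (G'ᵀ * (Kᵀ * (Gᵀ * toC Q * G) * K) * G') * K' := by
          rw [Matrix.transpose_mul, Matrix.transpose_mul, Matrix.transpose_mul]
          simp only [mul_assoc]
      _ = (d * d') • ((c * c') • toC Q) := by
          rw [hc, mul_smul_comm, smul_mul_assoc, hd, mul_smul_comm, mul_smul_comm, smul_mul_assoc, smul_mul_assoc, hc',
            mul_smul_comm, mul_smul_comm, mul_smul_comm, smul_mul_assoc, smul_mul_assoc, smul_mul_assoc, hd',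
            smul_smul, smul_smul, smul_smul, smul_smul]
          congr 1
          ring
      _ = toC Q := by rw [e1, e2]
  · have c1 := H.MT_EC hg he.mem
    have c2 := H.MT_EC hh he.mem
    have c3 := H.MT_EC hgi he.mem
    have c4 := H.MT_EC hhi he.mem
    rw [hcoe, det_blk_mul he.idem c4, det_blk_mul he.idem c3, det_blk_mul he.idem c2]
    have e1 : ((g : Matrix n n ℂ) * e + (1 - e)).det * (((g⁻¹ : GL n ℂ) : Matrix n n ℂ) * e + (1 - e)).det = 1 := by
      rw [← det_blk_mul he.idem c3, ginv, one_mul, add_sub_cancel, Matrix.det_one]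
    have e2 : ((h : Matrix n n ℂ) * e + (1 - e)).det * (((h⁻¹ : GL n ℂ) : Matrix n n ℂ) * e + (1 - e)).det = 1 := by
      rw [← det_blk_mul he.idem c4, hinv, one_mul, add_sub_cancel, Matrix.det_one]
    linear_combination ((h : Matrix n n ℂ) * e + (1 - e)).det * (((h⁻¹ : GL n ℂ) : Matrix n n ℂ) * e + (1 - e)).det *
      e1 + e2

section basis

variable {B Bi : Matrix n n ℂ} (h1 : B * Bi = 1) (h2 : Bi * B = 1) (hM : Mw w Q S P = Bᴴ * B)
include h1 h2 hM

/-- in the self-dual case the semi-invariants are invariants -/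
theorem SI_self (hSD : SelfDual Q P) {T : Matrix n n ℂ} (hT : SI S P T) : T ∈ EC P := by
  classical
  by_cases hT0 : T = 0
  · rw [hT0]
    exact (EC P).zero_mem
  have hL : ∀ X ∈ (LB Q S P B Bi : Set (Matrix n n ℂ)), Xᴴ ∈ (LB Q S P B Bi : Set (Matrix n n ℂ)) :=
    fun X hX => H.LB_star h1 h2 hM hX
  have hT1 := H.SI_iff_LH.1 hT
  obtain ⟨ι, _, _, e, hirr, hherm, horth, hsum⟩ := exists_irr_sum hL
  set T0 := cj B Bi T with hT0def
  have hT0ne : T0 ≠ 0 := by
    intro h0
    apply hT0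
    rw [← cj_cj h2 T, ← hT0def, h0, cj_zero]
  have hcT0 : ∀ X ∈ LB Q S P B Bi, ∃ c : ℂ, X * T0 - T0 * X = c • T0 := by
    intro X hX
    obtain ⟨c, hc⟩ := hT1 _ (mem_LB.1 hX)
    refine ⟨c, ?_⟩
    have a1 := congrArg (cj B Bi) hc
    rw [cj_sub, ← cj_mul h2, ← cj_mul h2, cj_smul, cj_cj h1] at a1
    exact a1
  obtain ⟨i, j, hij⟩ : ∃ i j, e j * T0 * e i ≠ 0 := by
    by_contra hcon
    push Not at hcon
    apply hT0ne
    calc T0 = (∑ j, e j) * T0 * (∑ i, e i) := by rw [hsum, one_mul, mul_one]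
      _ = ∑ j, ∑ i, e j * T0 * e i := by
        rw [Finset.sum_mul, Finset.sum_mul]
        refine Finset.sum_congr rfl fun j _ => ?_
        rw [Finset.mul_sum]
      _ = 0 := Finset.sum_eq_zero fun j _ => Finset.sum_eq_zero fun i _ => hcon i j
  -- the invariant forms
  have hform : ∀ i, ∃ F : Matrix n n ℂ, F ≠ 0 ∧ (e i)ᵀ * F = F ∧ F * e i = F ∧
      ∀ X ∈ LB Q S P B Bi, Xᵀ * F + F * X = 0 := by
    intro i
    have hb : IsBlk P (cj Bi B (e i)) := by
      refine ⟨?_, ?_, ?_, ?_⟩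
      · refine H.EC_of_LH fun Y hY => ?_
        have hY' : cj B Bi Y ∈ LB Q S P B Bi := by rw [mem_LB, cj_cj h2]; exact hY
        have a6 := congrArg (cj Bi B) ((hirr i).mem _ hY').symm
        rw [← cj_mul h1, ← cj_mul h1, cj_cj h2] at a6
        exact a6
      · rw [cj_mul h1, (hirr i).idem]
      · intro h0
        apply (hirr i).ne
        rw [← cj_cj h1 (e i), h0, cj_zero]
      · intro x hx
        obtain ⟨c, hc⟩ := (hirr i).min (cj B Bi x) fun X hX => H.LB_com h1 h2 hM hx X hX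
        refine ⟨c, ?_⟩
        have a7 := congrArg (cj Bi B) hc
        rw [← cj_mul h1, ← cj_mul h1, cj_cj h2, cj_smul] at a7
        exact a7
    obtain ⟨x, hx, hx0⟩ := hSD _ hb
    have hBe : B * cj Bi B (e i) = e i * B := by
      unfold cj
      calc B * (Bi * e i * B) = (B * Bi) * e i * B := by simp only [mul_assoc]
        _ = e i * B := by rw [h1, one_mul]
    have hcj : cj Bi B (e i) * Bi = Bi * e i := by
      unfold cj
      calc Bi * e i * B * Bi = Bi * e i * (B * Bi) := by simp only [mul_assoc]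
        _ = Bi * e i := by rw [h1, mul_one]
    refine ⟨(e i)ᵀ * (Biᵀ * (toC Q * x) * Bi) * e i, ?_, ?_, ?_, ?_⟩
    · intro h0
      apply hx0
      have a1 : Biᵀ * ((cj Bi B (e i))ᵀ * (toC Q * x) * cj Bi B (e i)) * Bi = 0 := by
        calc Biᵀ * ((cj Bi B (e i))ᵀ * (toC Q * x) * cj Bi B (e i)) * Bi
            = (cj Bi B (e i) * Bi)ᵀ * (toC Q * x) * (cj Bi B (e i) * Bi) := by
              rw [Matrix.transpose_mul]
              simp only [mul_assoc]
          _ = (e i)ᵀ * (Biᵀ * (toC Q * x) * Bi) * e i := by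
              rw [hcj, Matrix.transpose_mul]
              simp only [mul_assoc]
          _ = 0 := h0
      calc (cj Bi B (e i))ᵀ * (toC Q * x) * cj Bi B (e i)
          = (Bi * B)ᵀ * ((cj Bi B (e i))ᵀ * (toC Q * x) * cj Bi B (e i)) * (Bi * B) := by
            rw [h2, Matrix.transpose_one, one_mul, mul_one]
        _ = Bᵀ * (Biᵀ * ((cj Bi B (e i))ᵀ * (toC Q * x) * cj Bi B (e i)) * Bi) * B := by
            rw [Matrix.transpose_mul]
            simp only [mul_assoc]
        _ = 0 := by rw [a1, mul_zero, zero_mul]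
    · rw [← mul_assoc, ← mul_assoc, ← Matrix.transpose_mul, (hirr i).idem]
    · rw [mul_assoc, (hirr i).idem]
    · intro X hX
      have hXL : cj Bi B X ∈ LH Q S P := mem_LB.1 hX
      have b1 : X * e i = e i * X := (hirr i).mem X hX
      have b2 : Xᵀ * (e i)ᵀ = (e i)ᵀ * Xᵀ := by rw [← Matrix.transpose_mul, ← Matrix.transpose_mul, b1]
      have b3 : Bi * X = cj Bi B X * Bi := by
        unfold cj
        calc Bi * X = Bi * X * (B * Bi) := by rw [h1, mul_one]
          _ = _ := by simp only [mul_assoc]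
      have b4 : Xᵀ * Biᵀ = Biᵀ * (cj Bi B X)ᵀ := by rw [← Matrix.transpose_mul, b3, Matrix.transpose_mul]
      have b5 : (cj Bi B X)ᵀ * toC Q = -(toC Q * cj Bi B X) := eq_neg_of_add_eq_zero_left hXL.1
      have b6 := H.LH_EC hXL hx
      calc Xᵀ * ((e i)ᵀ * (Biᵀ * (toC Q * x) * Bi) * e i) + (e i)ᵀ * (Biᵀ * (toC Q * x) * Bi) * e i * X
          = (Xᵀ * (e i)ᵀ) * (Biᵀ * (toC Q * x) * Bi) * e i + (e i)ᵀ * (Biᵀ * (toC Q * x) * Bi) * (e i * X) := by
            simp only [mul_assoc]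
        _ = (e i)ᵀ * ((Xᵀ * Biᵀ) * (toC Q * x) * Bi + Biᵀ * (toC Q * x) * (Bi * X)) * e i := by
            rw [b2, ← b1, mul_add, add_mul]
            simp only [mul_assoc]
        _ = (e i)ᵀ * (Biᵀ * (((cj Bi B X)ᵀ * toC Q) * x + toC Q * (x * cj Bi B X)) * Bi) * e i := by
            have b7 : (Biᵀ * (cj Bi B X)ᵀ) * (toC Q * x) * Bi + Biᵀ * (toC Q * x) * (cj Bi B X * Bi) =
                Biᵀ * (((cj Bi B X)ᵀ * toC Q) * x + toC Q * (x * cj Bi B X)) * Bi := by
              rw [mul_add, add_mul]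
              simp only [mul_assoc]
            rw [b3, b4, b7]
        _ = 0 := by
            rw [b5, ← b6, neg_mul, mul_assoc (toC Q), neg_add_cancel, mul_zero, zero_mul, mul_zero, zero_mul]
  obtain ⟨Fi, hFi0, hFi1, hFi2, hFi3⟩ := hform i
  obtain ⟨Fj, hFj0, hFj1, hFj2, hFj3⟩ := hform j
  set T1 := e j * T0 * e i with hT1def
  have hT1c : ∀ X ∈ LB Q S P B Bi, ∀ c : ℂ, X * T0 - T0 * X = c • T0 → X * T1 - T1 * X = c • T1 := by
    intro X hX c hc
    rw [hT1def]
    calc X * (e j * T0 * e i) - e j * T0 * e i * X = (X * e j) * T0 * e i - e j * T0 * (e i * X) := by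
          simp only [mul_assoc]
      _ = e j * (X * T0 - T0 * X) * e i := by
          rw [(hirr j).mem X hX, ← (hirr i).mem X hX, mul_sub, sub_mul]
          simp only [mul_assoc]
      _ = c • (e j * T0 * e i) := by rw [hc, mul_smul_comm, smul_mul_assoc]
  have hT1s : SemT (LB Q S P B Bi : Set (Matrix n n ℂ)) T1 := by
    intro X hX
    obtain ⟨c, hc⟩ := hcT0 X hX
    exact ⟨c, hT1c X hX c hc⟩
  have hT1l : e j * T1 = T1 := by rw [hT1def, ← mul_assoc, ← mul_assoc, (hirr j).idem]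
  have hT1r : T1 * e i = T1 := by rw [hT1def, mul_assoc, (hirr i).idem]
  clear_value T1
  obtain ⟨T1', k1, k2, k3, k4, _⟩ := hT1s.inv hL (hirr j) (hirr i) (hherm j) (hherm i) hT1l hT1r hij
  obtain ⟨Fi', l1, l2, l3, l4⟩ := SemB.inv hL (hirr i) (hirr i) (hherm i) (hherm i)
    (fun X hX => ⟨0, by rw [hFi3 X hX, zero_smul]⟩) hFi1 hFi2 hFi0
  obtain ⟨Fj', l5, l6, l7, l8⟩ := SemB.inv hL (hirr j) (hirr j) (hherm j) (hherm j)
    (fun X hX => ⟨0, by rw [hFj3 X hX, zero_smul]⟩) hFj1 hFj2 hFj0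
  -- the character vanishes
  have hzero : ∀ X ∈ LB Q S P B Bi, X * T1 = T1 * X := by
    intro X hX
    set R := Fi' * (T1ᵀ * Fj * T1) with hR
    have hRs : ∀ X ∈ LB Q S P B Bi, ∀ c : ℂ, X * T1 - T1 * X = c • T1 → X * R - R * X = (2 * c) • R := by
      intro X hX c hc
      have m1 : X * T1 = T1 * X + c • T1 := by rw [← hc]; abel
      have m2 : T1ᵀ * Xᵀ = Xᵀ * T1ᵀ + c • T1ᵀ := by
        have := congrArg Matrix.transpose m1
        rwa [Matrix.transpose_mul, Matrix.transpose_add, Matrix.transpose_mul, Matrix.transpose_smul] at this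
      have m3 : Xᵀ * Fj = -(Fj * X) := eq_neg_of_add_eq_zero_left (hFj3 X hX)
      have m4 : Xᵀ * Fi = -(Fi * X) := eq_neg_of_add_eq_zero_left (hFi3 X hX)
      have m5 : Fi' * Xᵀ = -(X * Fi') := by
        have n1 : Xᵀ * (e i)ᵀ = (e i)ᵀ * Xᵀ := by
          rw [← Matrix.transpose_mul, ← Matrix.transpose_mul, (hirr i).mem X hX]
        calc Fi' * Xᵀ = Fi' * (e i)ᵀ * Xᵀ := by rw [l4]
          _ = Fi' * (Xᵀ * (e i)ᵀ) := by rw [mul_assoc, n1]
          _ = Fi' * (Xᵀ * Fi) * Fi' := by rw [← l2]; simp only [mul_assoc]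
          _ = -((Fi' * Fi) * X * Fi') := by
              rw [m4, mul_neg, neg_mul]
              simp only [mul_assoc]
          _ = -(X * Fi') := by rw [l1, ← (hirr i).mem X hX, mul_assoc, l3]
      have m6 : Xᵀ * (T1ᵀ * Fj * T1) + (T1ᵀ * Fj * T1) * X = -((2 * c) • (T1ᵀ * Fj * T1)) := by
        have n1 : Xᵀ * T1ᵀ = T1ᵀ * Xᵀ - c • T1ᵀ := by rw [m2]; abel
        have n2 : T1 * X = X * T1 - c • T1 := by rw [m1]; abel
        calc Xᵀ * (T1ᵀ * Fj * T1) + (T1ᵀ * Fj * T1) * X = (Xᵀ * T1ᵀ) * Fj * T1 + T1ᵀ * Fj * (T1 * X) := by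
              simp only [mul_assoc]
          _ = T1ᵀ * (Xᵀ * Fj) * T1 - c • (T1ᵀ * Fj * T1) + (T1ᵀ * Fj * (X * T1) - c • (T1ᵀ * Fj * T1)) := by
              rw [n1, n2, sub_mul, sub_mul, mul_sub, smul_mul_assoc, smul_mul_assoc, mul_smul_comm]
              simp only [mul_assoc]
          _ = -((2 * c) • (T1ᵀ * Fj * T1)) := by
              rw [m3, two_mul, add_smul, mul_neg, neg_mul]
              simp only [mul_assoc]
              abel
      calc X * R - R * X = -(Fi' * Xᵀ * (T1ᵀ * Fj * T1)) - Fi' * ((T1ᵀ * Fj * T1) * X) := by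
            rw [m5, neg_mul, neg_neg, hR]
            simp only [mul_assoc]
        _ = -(Fi' * (Xᵀ * (T1ᵀ * Fj * T1) + (T1ᵀ * Fj * T1) * X)) := by
            rw [mul_add, mul_assoc Fi' Xᵀ]
            abel
        _ = (2 * c) • R := by rw [m6, mul_neg, neg_neg, mul_smul_comm]
    have hRsem : SemT (LB Q S P B Bi : Set (Matrix n n ℂ)) R := by
      intro Y hY
      obtain ⟨c, hc⟩ := hT1s Y hY
      exact ⟨2 * c, hRs Y hY c hc⟩
    have hRl : e i * R = R := by rw [hR, ← mul_assoc, l3]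
    have hRr : R * e i = R := by
      rw [hR]
      simp only [mul_assoc]
      rw [hT1r]
    obtain ⟨d, hd⟩ := hRsem.scalar hL (hirr i) (hherm i) hRl hRr
    have hR0 : R ≠ 0 := by
      intro h0
      apply hij
      have p1 : T1ᵀ * Fj * T1 = 0 := by
        have q1 : (e i)ᵀ * T1ᵀ = T1ᵀ := by rw [← Matrix.transpose_mul, hT1r]
        calc T1ᵀ * Fj * T1 = (e i)ᵀ * (T1ᵀ * Fj * T1) := by rw [← mul_assoc, ← mul_assoc, q1]
          _ = Fi * R := by rw [← l2, hR, mul_assoc]
          _ = 0 := by rw [h0, mul_zero]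
      have p2 : Fj * T1 = 0 := by
        calc Fj * T1 = (e j)ᵀ * Fj * T1 := by rw [hFj1]
          _ = T1'ᵀ * (T1ᵀ * Fj * T1) := by
            rw [← k2, Matrix.transpose_mul]
            simp only [mul_assoc]
          _ = 0 := by rw [p1, mul_zero]
      calc T1 = e j * T1 := hT1l.symm
        _ = Fj' * (Fj * T1) := by rw [← l5, mul_assoc]
        _ = 0 := by rw [p2, mul_zero]
    obtain ⟨c, hc⟩ := hT1s X hX
    have h3 := hRs X hX c hc
    rw [hd, mul_smul_comm, smul_mul_assoc, (hirr i).mem X hX, sub_self, ← hd] at h3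
    have h4 : 2 * c = 0 := (smul_eq_zero.1 h3.symm).resolve_right hR0
    have h5 : c = 0 := by simpa using h4
    rw [h5, zero_smul] at hc
    exact sub_eq_zero.1 hc
  refine H.EC_of_LH fun Y hY => ?_
  have hY' : cj B Bi Y ∈ LB Q S P B Bi := by rw [mem_LB, cj_cj h2]; exact hY
  obtain ⟨c, hc⟩ := hcT0 _ hY'
  have h3 : c • T1 = 0 := by
    have h4 := hT1c _ hY' c hc
    rw [← h4, hzero _ hY', sub_self]
  have h5 : c = 0 := (smul_eq_zero.1 h3).resolve_right hij
  rw [h5, zero_smul] at hc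
  have a6 := congrArg (cj Bi B) (sub_eq_zero.1 hc).symm
  rw [← cj_mul h1, ← cj_mul h1, cj_cj h2, cj_cj h2] at a6
  exact a6

end basis

theorem SI_EC {T : Matrix n n ℂ} (hT : T ∈ EC P) : SI S P T := fun g hg => ⟨1, by rw [one_smul, H.MT_EC hg hT]⟩

/-- the scalars are in the Mumford-Tate group if the weight is not zero -/
theorem scalar_MT (hw0 : w ≠ 0) {g : GL n ℂ} {z : ℂ} (hg : (g : Matrix n n ℂ) = z • (1 : Matrix n n ℂ)) :
    g ∈ MT S P := by
  intro a b t ht
  have h1 := H.kill_one ht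
  have h2 : dL a b (tC t) 1 = 0 := (smul_eq_zero.1 h1).resolve_left (by exact_mod_cast hw0)
  have hgi : (g : Matrix n n ℂ) * ((g⁻¹ : GL n ℂ) : Matrix n n ℂ) = 1 := by
    rw [← Units.val_mul, mul_inv_cancel, Units.val_one]
  rcases isEmpty_or_nonempty n with hn | hn
  · have e1 : (g : Matrix n n ℂ) = 1 := by
      ext i
      exact hn.elim i
    have e2 : ((g⁻¹ : GL n ℂ) : Matrix n n ℂ) = 1 := by
      ext i
      exact hn.elim i
    rw [e1, e2, slot_one48, actF_one]
  have hz : z ≠ 0 := by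
    rintro rfl
    rw [hg, zero_smul, zero_mul] at hgi
    exact zero_ne_one hgi
  have hgi' : ((g⁻¹ : GL n ℂ) : Matrix n n ℂ) = z⁻¹ • (1 : Matrix n n ℂ) := by
    rw [hg, smul_mul_assoc, one_mul] at hgi
    rw [← hgi, smul_smul, inv_mul_cancel₀ hz, one_smul]
  have h3 : IsHodgeTensor ({1} : Finset ℤ) (fun p => if p = 1 then (1 : Matrix n n ℂ) else 0) a b t := by
    have hI : Idm ({1} : Finset ℤ) (fun p => if p = 1 then (1 : Matrix n n ℂ) else 0) := by
      refine ⟨fun p q => ?_, ?_⟩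
      · by_cases hp : p = 1
        · by_cases hq : q = 1
          · rw [if_pos hp, if_pos hq, if_pos (by rw [hp, hq]), one_mul]
          · rw [if_pos hp, if_neg hq, if_neg (by rw [hp]; exact fun h => hq h.symm), mul_zero]
        · rw [if_neg hp, zero_mul]
          split_ifs <;> rfl
      · rw [Finset.sum_singleton, if_pos rfl]
    refine (hI.inv_iff a b (tC t)).2 ?_
    rw [Finset.sum_singleton, if_pos rfl, Int.cast_one, one_smul]
    exact h2
  have h4 := h3 z hz
  unfold cochar at h4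
  simp only [Finset.sum_singleton, if_true, _root_.zpow_one] at h4
  rw [hg, hgi']
  exact h4

end IsHW

end MH
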