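import Pool.Agent.Helper14.GH.SDa
import Pool.Agent.Helper32.GH.Up

/-!
Project GH (MP_b8862a_ag): the Mumford-Tate group in the self-dual case.
-/

set_option linter.unusedSectionVars false

open Matrix Module GH

namespace MH

variable {n : Type*} [Fintype n] [DecidableEq n]
variable {m w : ℤ} {Q : Matrix n n ℚ} {S : Finset ℤ} {P : ℤ → Matrix n n ℂ}

namespace IsHW

variable (H : IsHW w Q S P)
include H

/-- **The Mumford-Tate group in the self-dual case.** -/
theorem MT_iff_self (hdom : ∀ f, IsBlk P f → DomB w Q S P f) (hSD : SelfDual Q P) (g : GL n ℂ) :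
    g ∈ MT S P ↔ InGw w Q P (g : Matrix n n ℂ) := by
  refine ⟨fun hg => MT_InGw H hSD hg, ?_⟩
  rintro ⟨hc, z, hz0, hzQ, hzd⟩
  obtain ⟨B, Bi, Qi, h1, h2, q1, q2, hM⟩ := H.exists_basis
  rcases isEmpty_or_nonempty n with hn | hn
  · have e1 : g = 1 := by
      ext i
      exact hn.elim i
    rw [e1]
    exact (MT S P).one_mem
  have hgi : (g : Matrix n n ℂ) * ((g⁻¹ : GL n ℂ) : Matrix n n ℂ) = 1 := by
    rw [← Units.val_mul, mul_inv_cancel, Units.val_one]
  have hz : z ≠ 0 := by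
    rintro rfl
    rw [zero_pow (by norm_num), zero_smul] at hzQ
    have h3 := congrArg Matrix.det hzQ
    rw [Matrix.det_mul, Matrix.det_mul, Matrix.det_transpose, Matrix.det_zero] at h3
    have h4 : (g : Matrix n n ℂ).det ≠ 0 := by
      intro h0
      have h5 := congrArg Matrix.det hgi
      rw [Matrix.det_mul, h0, zero_mul, Matrix.det_one] at h5
      exact zero_ne_one h5
    exact mul_ne_zero (mul_ne_zero h4 H.detQ) h4 h3
  -- the scalar and the unimodular part
  let s : GL n ℂ := ⟨z • (1 : Matrix n n ℂ), z⁻¹ • (1 : Matrix n n ℂ), by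
      rw [smul_mul_smul_comm, mul_one, mul_inv_cancel₀ hz, one_smul], by
      rw [smul_mul_smul_comm, mul_one, inv_mul_cancel₀ hz, one_smul]⟩
  have hs : (s : Matrix n n ℂ) = z • (1 : Matrix n n ℂ) := rfl
  have hsi : ((s⁻¹ : GL n ℂ) : Matrix n n ℂ) = z⁻¹ • (1 : Matrix n n ℂ) := rfl
  have hsm : s ∈ MT S P := by
    by_cases hw0 : w = 0
    · have e1 : s = 1 := by
        apply Units.ext
        rw [hs, hz0 hw0, one_smul, Units.val_one]
      rw [e1]
      exact (MT S P).one_mem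
    · exact H.scalar_MT hw0 hs
  have hd : s⁻¹ * g ∈ MT S P := by
    apply H.InD_MT hdom
    have e0 : ((s⁻¹ * g : GL n ℂ) : Matrix n n ℂ) = z⁻¹ • (g : Matrix n n ℂ) := by
      rw [Units.val_mul, hsi, smul_mul_assoc, one_mul]
    rw [e0]
    refine ⟨fun T hT => ?_, ?_, fun e he => ?_⟩
    · rw [smul_mul_assoc, mul_smul_comm, hc T (H.SI_self h1 h2 hM hSD hT)]
    · rw [Matrix.transpose_smul, smul_mul_assoc, smul_mul_assoc, mul_smul_comm, hzQ, smul_smul, smul_smul]
      have e1 : z⁻¹ * z⁻¹ * z ^ 2 = 1 := by field_simp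
      rw [e1, one_smul]
    · have e1 : (z⁻¹ • (g : Matrix n n ℂ)) = (z⁻¹ • (1 : Matrix n n ℂ)) * (g : Matrix n n ℂ) := by
        rw [smul_mul_assoc, one_mul]
      rw [e1, det_blk_mul he.idem (hc e he.mem), hzd e he, smul_mul_assoc, one_mul, ← smul_one_add_det he.idem]
      rw [inv_pow, inv_mul_cancel₀ (pow_ne_zero _ hz)]
  have e2 : g = s * (s⁻¹ * g) := by rw [mul_inv_cancel_left]
  rw [e2]
  exact (MT S P).mul_mem hsm hd

end IsHW

end MH
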